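import Mathlib

/-! The final inequality. -/

namespace Pool.Agent.MP_7c6760_co

/-- the final inequality in real variables -/
lemma final_arith {A h l X Y M E S : ℝ}
    (hA : 2 ≤ A) (hh : 0 < h) (hl0 : 0 < l) (hl : l * (h + l) ≤ h ^ 2)
    (hY1 : 1 ≤ Y) (hYl : Y ≤ l) (hX1 : 1 ≤ X) (hXA : X ≤ A) (hM1 : 1 ≤ M) (hMp : M ≤ h + l - Y)
    (hE0 : 0 ≤ E)
    (hE : 2 * E ≤ (M + (h + l) - Y) * (A + 1 - X) + (X - 1) * ((h + l) - 1) + 2 * Y
      - 2 * (A + 1) * h)
    (hS : S ≤ (A + 1) * ((h - l) * (2 * h - l)))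
    (hmain : 2 * M * (A + 1) * h ≤ S + l * M * (A + 1 - X) + (2 * (h + l) - 2 - l) * E
      + 2 * (M - 1) * (h + l - Y) + M * Y * A) : False := by
  -- `3 l ≤ 2 h`
  have h3 : 3 * l ≤ 2 * h := by
    by_contra hcon
    push Not at hcon
    nlinarith
  have hlh : l < h := by linarith
  -- `Y ≤ M + 1`
  have hYM : Y ≤ M + 1 := by
    by_contra hcon
    push Not at hcon
    have e1 : X * (Y - M - 1) ≤ A * (Y - M - 1) :=
      mul_le_mul_of_nonneg_right hXA (by linarith)
    have e2 : (A + 1) * (h + l) < (A + 1) * (2 * h) :=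
      mul_lt_mul_of_pos_left (by linarith) (by linarith)
    nlinarith
  -- reduction to `X = 1`
  set E1 : ℝ := ((M + (h + l) - Y) * A + 2 * Y - 2 * (A + 1) * h) / 2 with hE1
  have hXM : (M + 1 - Y) ≤ X * (M + 1 - Y) := by nlinarith
  have hEE1 : E ≤ E1 := by rw [hE1]; nlinarith
  have hE10 : 0 ≤ E1 := le_trans hE0 hEE1
  have hcoef : 0 ≤ 2 * (h + l) - 2 - l := by linarith
  have hlM : l * M * (A + 1 - X) ≤ l * M * A :=
    mul_le_mul_of_nonneg_left (by linarith) (by positivity)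
  have hmain1 : 2 * M * (A + 1) * h ≤ (A + 1) * ((h - l) * (2 * h - l)) + l * M * A
      + (2 * (h + l) - 2 - l) * E1 + 2 * (M - 1) * (h + l - Y) + M * Y * A := by
    have := mul_le_mul_of_nonneg_left hEE1 hcoef
    linarith
  -- the coefficient of `M`
  by_cases hk : 0 ≤ A * (h - 3 / 2 * l + 1 - Y) - 2 * (l - Y)
  · -- compare with the point where `E1 = 0`
    have hk2 : 0 ≤ (A * (h - 3 / 2 * l + 1 - Y) - 2 * (l - Y)) * E1 := mul_nonneg hk hE10
    have hN : A * M = A * (h - l + Y) + 2 * (h - Y) + 2 * E1 := by rw [hE1]; ring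
    have hbig : 0 < (A * (h - l + Y) + 2 * (h - Y)) * (A * (2 * h - l - Y) - 2 * (l - Y))
        + 2 * A * (h + l - Y) - A * ((A + 1) * ((h - l) * (2 * h - l))) := by
      have c1 : 0 ≤ (A - 2) * (A * (Y * (h - Y))) :=
        mul_nonneg (by linarith) (mul_nonneg (by linarith) (mul_nonneg (by linarith) (by linarith)))
      have c2 : 0 ≤ (A - 2) * ((h - Y) * (l - Y)) :=
        mul_nonneg (by linarith) (mul_nonneg (by linarith) (by linarith))
      have c3 : 0 ≤ A * ((2 * h - l) * (h - l)) :=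
        mul_nonneg (by linarith) (mul_nonneg (by linarith) (by linarith))
      have c4 : 0 < A * (h + l - Y) := mul_pos (by linarith) (by linarith)
      nlinarith
    have hfin : A * (2 * M * (A + 1) * h) ≤ A * ((A + 1) * ((h - l) * (2 * h - l)) + l * M * A
      + (2 * (h + l) - 2 - l) * E1 + 2 * (M - 1) * (h + l - Y) + M * Y * A) :=
      mul_le_mul_of_nonneg_left hmain1 (by linarith)
    have hid : A * (2 * M * (A + 1) * h) - A * ((A + 1) * ((h - l) * (2 * h - l)) + l * M * A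
      + (2 * (h + l) - 2 - l) * E1 + 2 * (M - 1) * (h + l - Y) + M * Y * A)
      = (A * (h - l + Y) + 2 * (h - Y)) * (A * (2 * h - l - Y) - 2 * (l - Y))
        + 2 * A * (h + l - Y) - A * ((A + 1) * ((h - l) * (2 * h - l)))
        + 2 * ((A * (h - 3 / 2 * l + 1 - Y) - 2 * (l - Y)) * E1) := by
      have : E1 = (A * M - (A * (h - l + Y) + 2 * (h - Y))) / 2 := by linarith
      rw [this]; ring
    linarith
  · -- compare with the point `M = h + l - Y`
    push Not at hk
    have hk2 : 0 ≤ (-(A * (h - 3 / 2 * l + 1 - Y) - 2 * (l - Y))) * (h + l - Y - M) :=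
      mul_nonneg (by linarith) (by linarith)
    have hP : 0 < l * (2 * h - 3 * l) - Y * (h - l - Y) + 2 * (l - Y) := by
      by_cases h2 : 2 * l ≤ h
      · nlinarith [mul_nonneg (sub_nonneg.mpr hYl) (sub_nonneg.mpr h2),
          mul_nonneg (sub_nonneg.mpr hYl) (sub_nonneg.mpr hlh.le), mul_pos hl0 hl0]
      · push Not at h2
        nlinarith [sq_nonneg (2 * Y - (h - l)), mul_nonneg (sub_nonneg.mpr h3) hl0.le]
    have hQ : 0 < l * (2 * h - 3 * l) + Y * (3 * l - 2 * Y) + 2 * l := by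
      have c1 : 0 ≤ l * (2 * h - 3 * l) := mul_nonneg hl0.le (by linarith)
      have c2 : 0 ≤ Y * (3 * l - 2 * Y) := mul_nonneg (by linarith) (by linarith)
      linarith
    have hAP : 0 ≤ A * (l * (2 * h - 3 * l) - Y * (h - l - Y) + 2 * (l - Y)) :=
      mul_nonneg (by linarith) hP.le
    have hid : 2 * M * (A + 1) * h - ((A + 1) * ((h - l) * (2 * h - l)) + l * M * A
      + (2 * (h + l) - 2 - l) * E1 + 2 * (M - 1) * (h + l - Y) + M * Y * A)
      = A * (l * (2 * h - 3 * l) - Y * (h - l - Y) + 2 * (l - Y))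
        + (l * (2 * h - 3 * l) + Y * (3 * l - 2 * Y) + 2 * l)
        + (-(A * (h - 3 / 2 * l + 1 - Y) - 2 * (l - Y))) * (h + l - Y - M) := by
      rw [hE1]; ring
    linarith

end Pool.Agent.MP_7c6760_co
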