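import Pool.Agent.Lib.MP_7c6760_co.Macro

/-! Iteration of the reduction. -/

namespace Pool.Agent.MP_7c6760_co

open Finset

noncomputable section

open Classical

set_option linter.unusedSectionVars false

/-- all pairs with Ore-degree bounds at least `C` and product at most `r n` pack -/
def QQ (r : ℝ) : Prop :=
  ∃ C : ℕ, ∀ a b n : ℕ, C ≤ a → C ≤ b → (a : ℝ) * b ≤ r * n → PP a b n

lemma QQ_base : QQ (8 / 5) := by
  refine ⟨0, fun a b n _ _ h => PP_golden ?_⟩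
  have h0 : (0 : ℝ) ≤ (a : ℝ) * b := by positivity
  have hn : (0 : ℝ) ≤ (n : ℝ) := by positivity
  have h1 : ((a : ℝ) * b) ^ 2 ≤ (a : ℝ) * b * n + (n : ℝ) ^ 2 := by nlinarith
  exact_mod_cast h1

lemma QQ_mono {r r' : ℝ} (h : r ≤ r') (hQ : QQ r') : QQ r := by
  obtain ⟨C, hC⟩ := hQ
  refine ⟨C, fun a b n ha hb hab => hC a b n ha hb (hab.trans ?_)⟩
  exact mul_le_mul_of_nonneg_right h (by positivity)

lemma big_k {c η k : ℝ} (hc : 0 < c) (hη : 0 < η) (hk : 4 / (c ^ 2 * η) ≤ k) :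
    k * Real.exp (-c * k) ≤ η / 2 := by
  have hc2 : 0 < c ^ 2 * η := by positivity
  have hk0 : 0 < k := lt_of_lt_of_le (by positivity) hk
  have h1 : 4 ≤ k * (c ^ 2 * η) := by
    rw [div_le_iff₀ hc2] at hk; exact hk
  have h2 := Real.quadratic_le_exp_of_nonneg (show 0 ≤ c * k by positivity)
  have h3 : (c * k) ^ 2 / 2 ≤ Real.exp (c * k) := by
    have : 0 < c * k := by positivity
    linarith
  have h4 : Real.exp (-c * k) * Real.exp (c * k) = 1 := by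
    rw [← Real.exp_add]; ring_nf; exact Real.exp_zero
  have h5 : 0 < Real.exp (-c * k) := Real.exp_pos _
  have h6 : Real.exp (-c * k) * ((c * k) ^ 2 / 2) ≤ 1 := by
    rw [← h4]; exact mul_le_mul_of_nonneg_left h3 h5.le
  have h7 : k * Real.exp (-c * k) * 4 ≤ k * Real.exp (-c * k) * (k * (c ^ 2 * η)) :=
    mul_le_mul_of_nonneg_left h1 (by positivity)
  have h8 : k * Real.exp (-c * k) * (k * (c ^ 2 * η))
      = 2 * η * (Real.exp (-c * k) * ((c * k) ^ 2 / 2)) := by ring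
  have h9 : 2 * η * (Real.exp (-c * k) * ((c * k) ^ 2 / 2)) ≤ 2 * η * 1 :=
    mul_le_mul_of_nonneg_left h6 (by linarith)
  linarith

/-- real arithmetic of one round -/
lemma round_arith {a b n r p δ η A B m : ℝ} (hn : 0 < n) (ha : 0 < a) (hb : 0 < b)
    (hp : 0 < p) (hp1 : p ≤ 1 / 5) (hη : η = 2 / 5 * p ^ 2) (hδ0 : 0 ≤ δ)
    (hδ : δ ≤ 2 / 5 * p ^ 2)
    (hr : 8 / 5 ≤ r) (hr2 : r + δ ≤ 2 - 2 * p) (h1 : r * n < a * b) (h2 : a * b ≤ (r + δ) * n)
    (hA0 : 0 ≤ A) (hB0 : 0 ≤ B)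
    (hA : A ≤ a - (p - η) * (n / b)) (hB : B ≤ b - (p - η) * (n / a)) (hm : (1 - p) * n ≤ m) :
    A * B ≤ r * m := by
  have hq0 : 0 ≤ p - η := by rw [hη]; nlinarith
  have h3 : A * B ≤ (a - (p - η) * (n / b)) * (b - (p - η) * (n / a)) :=
    mul_le_mul hA hB hB0 (hA0.trans hA)
  have h4 : (a - (p - η) * (n / b)) * (b - (p - η) * (n / a))
      = a * b - 2 * (p - η) * n + (p - η) ^ 2 * (n * (n / (a * b))) := by
    field_simp; ring
  have hab : 0 < a * b := mul_pos ha hb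
  have h5 : n / (a * b) ≤ 5 / 8 := by
    rw [div_le_iff₀ hab]
    nlinarith
  have h6 : (p - η) ^ 2 * (n * (n / (a * b))) ≤ p ^ 2 * (n * (5 / 8)) := by
    have h7 : (p - η) ^ 2 ≤ p ^ 2 := by
      apply pow_le_pow_left₀ hq0
      rw [hη]; nlinarith [sq_nonneg p]
    have h8 : n * (n / (a * b)) ≤ n * (5 / 8) := mul_le_mul_of_nonneg_left h5 hn.le
    exact mul_le_mul h7 h8 (by positivity) (by positivity)
  have h9 : r * ((1 - p) * n) ≤ r * m := mul_le_mul_of_nonneg_left hm (by linarith)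
  have h10 : (r + δ) * n - 2 * (p - η) * n + p ^ 2 * (n * (5 / 8)) ≤ r * ((1 - p) * n) := by
    have h11 : r * p ≤ (2 - 2 * p - δ) * p := mul_le_mul_of_nonneg_right (by linarith) hp.le
    have h12 : (r + δ) - 2 * (p - η) + p ^ 2 * (5 / 8) ≤ r * (1 - p) := by
      rw [hη]
      nlinarith [mul_nonneg hδ0 hp.le, sq_nonneg p]
    have := mul_le_mul_of_nonneg_right h12 hn.le
    nlinarith
  linarith

lemma QQ_step {ε r δ : ℝ} (hε : 0 < ε) (hε1 : ε ≤ 2 / 5) (hδ0 : 0 ≤ δ) (hδ : δ ≤ ε ^ 2 / 10)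
    (hr : 8 / 5 ≤ r) (hr2 : r + δ ≤ 2 - ε) (hQ : QQ r) : QQ (r + δ) := by
  obtain ⟨C', hC'⟩ := hQ
  obtain ⟨p, hp⟩ : ∃ p, p = ε / 2 := ⟨_, rfl⟩
  obtain ⟨η, hη⟩ : ∃ η, η = 2 / 5 * p ^ 2 := ⟨_, rfl⟩
  have hp0 : 0 < p := by rw [hp]; linarith
  have hp5 : p ≤ 1 / 5 := by rw [hp]; linarith
  have hη0 : 0 < η := by rw [hη]; positivity
  have hηp : η ≤ p := by rw [hη]; nlinarith
  obtain ⟨K0, hK0⟩ := exists_nat_ge (4 / ((η ^ 2 / 8) ^ 2 * η))
  refine ⟨2 * C' + 2 * K0 + 4, fun a b n ha hb hab => ?_⟩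
  have ha4 : 4 ≤ a := by omega
  have hb4 : 4 ≤ b := by omega
  have haR : (4 : ℝ) ≤ a := by exact_mod_cast ha4
  have hbR : (4 : ℝ) ≤ b := by exact_mod_cast hb4
  have ha0 : (0 : ℝ) < a := by linarith
  have hb0 : (0 : ℝ) < b := by linarith
  have hab0 : (0 : ℝ) < (a : ℝ) * b := mul_pos ha0 hb0
  have hn : 0 < n := by
    rcases Nat.eq_zero_or_pos n with h | h
    · rw [h] at hab; simp at hab; linarith
    · exact h
  have hnR : (0 : ℝ) < n := by exact_mod_cast hn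
  by_cases hcase : (a : ℝ) * b ≤ r * n
  · exact hC' a b n (by omega) (by omega) hcase
  · push Not at hcase
    have hnab : n ≤ a * b := by
      have : (n : ℝ) ≤ a * b := by nlinarith
      exact_mod_cast this
    have hnabR : (n : ℝ) ≤ a * b := by exact_mod_cast hnab
    have hab2 : (a : ℝ) * b ≤ 2 * n := by nlinarith
    -- large quotients
    have hkb : ∀ c d : ℕ, K0 * 2 ≤ c → (0 : ℝ) < d → (c : ℝ) * d ≤ 2 * n →
        ((⌈(n : ℝ) / d⌉₊ : ℕ) : ℝ) *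
          Real.exp (-(η ^ 2 / 8) * ((⌈(n : ℝ) / d⌉₊ : ℕ) : ℝ)) ≤ η / 2 := by
      intro c d hc hd hcd
      apply big_k (by positivity) hη0
      refine hK0.trans ?_
      have h1 : (n : ℝ) / d ≤ (⌈(n : ℝ) / d⌉₊ : ℕ) := Nat.le_ceil _
      refine le_trans ?_ h1
      rw [le_div_iff₀ hd]
      have h2 : (K0 : ℝ) * 2 ≤ c := by exact_mod_cast hc
      have h3 := mul_le_mul_of_nonneg_right h2 hd.le
      linarith
    refine macro_step hn hη0 hηp (by linarith) ?_ hnab (hkb a b (by omega) hb0 hab2)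
      (hkb b a (by omega) ha0 (by rw [mul_comm]; exact hab2)) ?_
    · refine hab.trans (mul_le_mul_of_nonneg_right ?_ hnR.le)
      rw [hp]; linarith
    · -- the new parameters
      have hj : ∀ c d : ℕ, 4 ≤ c → (0 : ℝ) < d → (n : ℝ) ≤ c * d →
          2 * ⌈(p - η) * (⌈(n : ℝ) / d⌉₊ : ℕ)⌉₊ ≤ c ∧
          (p - η) * ((n : ℝ) / d) ≤ (⌈(p - η) * (⌈(n : ℝ) / d⌉₊ : ℕ)⌉₊ : ℕ) := by
        intro c d hc hd hcd
        have hq0 : 0 ≤ p - η := by linarith
        have h1 : (n : ℝ) / d ≤ (⌈(n : ℝ) / d⌉₊ : ℕ) := Nat.le_ceil _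
        have h2 : ((⌈(n : ℝ) / d⌉₊ : ℕ) : ℝ) < (n : ℝ) / d + 1 :=
          Nat.ceil_lt_add_one (by positivity)
        have h3 : (n : ℝ) / d ≤ c := by rw [div_le_iff₀ hd]; exact hcd
        have h4 : (p - η) * (⌈(n : ℝ) / d⌉₊ : ℕ) ≤ (⌈(p - η) * (⌈(n : ℝ) / d⌉₊ : ℕ)⌉₊ : ℕ) :=
          Nat.le_ceil _
        have h5 : ((⌈(p - η) * (⌈(n : ℝ) / d⌉₊ : ℕ)⌉₊ : ℕ) : ℝ)
            < (p - η) * (⌈(n : ℝ) / d⌉₊ : ℕ) + 1 :=
          Nat.ceil_lt_add_one (mul_nonneg hq0 (by positivity))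
        have hcR : (4 : ℝ) ≤ c := by exact_mod_cast hc
        constructor
        · have h6 : (p - η) * (⌈(n : ℝ) / d⌉₊ : ℕ) ≤ 1 / 5 * (c + 1) := by
            apply mul_le_mul (by linarith) (by linarith) (by positivity) (by norm_num)
          have h7 : ((⌈(p - η) * (⌈(n : ℝ) / d⌉₊ : ℕ)⌉₊ : ℕ) : ℝ) * 2 < c + 1 := by linarith
          have h8 : ⌈(p - η) * (⌈(n : ℝ) / d⌉₊ : ℕ)⌉₊ * 2 < c + 1 := by exact_mod_cast h7
          omega
        · exact (mul_le_mul_of_nonneg_left h1 hq0).trans h4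
      obtain ⟨hja1, hja2⟩ := hj a b ha4 hb0 hnabR
      obtain ⟨hjb1, hjb2⟩ := hj b a hb4 ha0 (by rw [mul_comm]; exact hnabR)
      apply hC'
      · omega
      · omega
      · have hfloor : (⌊p * n⌋₊ : ℝ) ≤ p * n := Nat.floor_le (by positivity)
        have hsn : ⌊p * n⌋₊ ≤ n := by
          have : (⌊p * n⌋₊ : ℝ) ≤ n := hfloor.trans (by nlinarith)
          exact_mod_cast this
        have hsub : ((n - ⌊p * n⌋₊ : ℕ) : ℝ) = n - (⌊p * n⌋₊ : ℝ) := Nat.cast_sub hsn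
        have hA : ((a - ⌈(p - η) * (⌈(n : ℝ) / b⌉₊ : ℕ)⌉₊ : ℕ) : ℝ)
            = a - (⌈(p - η) * (⌈(n : ℝ) / b⌉₊ : ℕ)⌉₊ : ℕ) := Nat.cast_sub (by omega)
        have hB : ((b - ⌈(p - η) * (⌈(n : ℝ) / a⌉₊ : ℕ)⌉₊ : ℕ) : ℝ)
            = b - (⌈(p - η) * (⌈(n : ℝ) / a⌉₊ : ℕ)⌉₊ : ℕ) := Nat.cast_sub (by omega)
        refine round_arith (a := a) (b := b) (n := n) (p := p) (δ := δ) (η := η) hnR ha0 hb0 hp0
          hp5 hη hδ0 (by rw [hp]; nlinarith) hr (by rw [hp]; linarith) hcase hab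
          (by positivity) (by positivity) ?_ ?_ ?_
        · rw [hA]; linarith
        · rw [hB]; linarith
        · rw [hsub]; linarith

lemma QQ_all {ε : ℝ} (hε : 0 < ε) (hε1 : ε ≤ 2 / 5) : QQ (2 - ε) := by
  have hδ : 0 < ε ^ 2 / 10 := by positivity
  have key : ∀ k : ℕ, QQ (min (8 / 5 + k * (ε ^ 2 / 10)) (2 - ε)) := by
    intro k
    induction k with
    | zero =>
      refine QQ_mono ?_ QQ_base
      simp
    | succ k ih =>
      by_cases h : 2 - ε ≤ 8 / 5 + k * (ε ^ 2 / 10)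
      · rw [min_eq_right h] at ih
        exact QQ_mono (min_le_right _ _) ih
      · push Not at h
        rw [min_eq_left h.le] at ih
        obtain ⟨δ, hδd⟩ : ∃ δ, δ = min (8 / 5 + ((k + 1 : ℕ) : ℝ) * (ε ^ 2 / 10)) (2 - ε)
          - (8 / 5 + k * (ε ^ 2 / 10)) := ⟨_, rfl⟩
        have h1 : min (8 / 5 + ((k + 1 : ℕ) : ℝ) * (ε ^ 2 / 10)) (2 - ε)
          = (8 / 5 + k * (ε ^ 2 / 10)) + δ := by rw [hδd]; ring
        rw [h1]
        have h2 : (8 / 5 + k * (ε ^ 2 / 10)) + δ ≤ 8 / 5 + ((k + 1 : ℕ) : ℝ) * (ε ^ 2 / 10) := by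
          rw [← h1]; exact min_le_left _ _
        push_cast at h2
        apply QQ_step hε hε1 _ (by linarith) (by
          have : (0 : ℝ) ≤ k * (ε ^ 2 / 10) := by positivity
          linarith) _ ih
        · rw [hδd, sub_nonneg, le_min_iff]
          refine ⟨?_, h.le⟩
          push_cast
          linarith
        · rw [← h1]; exact min_le_right _ _
  obtain ⟨k, hk⟩ := exists_nat_ge ((2 - ε) / (ε ^ 2 / 10))
  have h1 := key k
  rw [min_eq_right] at h1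
  · exact h1
  · rw [div_le_iff₀ hδ] at hk
    linarith

lemma OreLe.mono_right {V : Type} [Fintype V] {G : SimpleGraph V} {a b : ℕ} (h : OreLe G a)
    (hab : a ≤ b) : OreLe G b := fun x y hxy => (h x y hxy).trans hab

/-- the asymptotic theorem in terms of bounds -/
theorem asym {ε : ℝ} (hε : 0 < ε) : ∃ δ : ℝ, 0 < δ ∧ ∀ (V : Type) [Fintype V]
    (G H : SimpleGraph V) (a b : ℕ), OreLe G a → OreLe H b →
    (a : ℝ) ≤ δ * Fintype.card V → (b : ℝ) ≤ δ * Fintype.card V →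
    (a : ℝ) * b ≤ (2 - ε) * Fintype.card V →
    ∃ σ : Equiv.Perm V, ∀ x y, G.Adj x y → ¬ H.Adj (σ x) (σ y) := by
  obtain ⟨ε', hε'⟩ : ∃ ε', ε' = min ε (2 / 5) := ⟨_, rfl⟩
  have hε'0 : 0 < ε' := by rw [hε']; exact lt_min hε (by norm_num)
  have hε'1 : ε' ≤ 2 / 5 := by rw [hε']; exact min_le_right _ _
  obtain ⟨C0, hC0⟩ := QQ_all hε'0 hε'1
  obtain ⟨C, hC⟩ : ∃ C : ℕ, C = C0 + 1 := ⟨_, rfl⟩
  have hC1 : (1 : ℝ) ≤ C := by rw [hC]; push_cast; linarith [(Nat.cast_nonneg C0 : (0:ℝ) ≤ C0)]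
  refine ⟨1 / (C : ℝ) ^ 2, by positivity, ?_⟩
  intro V _ G H a b ha hb haδ hbδ hab
  have hn0 : (0 : ℝ) ≤ (Fintype.card V : ℝ) := by positivity
  have hab' : (a : ℝ) * b ≤ (2 - ε') * Fintype.card V := by
    refine hab.trans (mul_le_mul_of_nonneg_right ?_ hn0)
    have : ε' ≤ ε := by rw [hε']; exact min_le_left _ _
    linarith
  have hC2 : (0 : ℝ) < (C : ℝ) ^ 2 := by positivity
  by_cases h0 : a = 0 ∧ b = 0
  · refine ⟨1, fun x y h1 _ => ?_⟩
    have h2 := ha x y h1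
    have h3 := dg_pos_of_adj h1
    omega
  · have hnC : (C : ℝ) ^ 2 ≤ Fintype.card V := by
      have h1 : (1 : ℝ) ≤ 1 / (C : ℝ) ^ 2 * Fintype.card V := by
        rcases Nat.eq_zero_or_pos a with h | h
        · have hb1 : 1 ≤ b := by omega
          have : (1 : ℝ) ≤ b := by exact_mod_cast hb1
          linarith
        · have : (1 : ℝ) ≤ a := by exact_mod_cast h
          linarith
      have h2 : 1 / (C : ℝ) ^ 2 * Fintype.card V = Fintype.card V / (C : ℝ) ^ 2 := by ring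
      rw [h2, le_div_iff₀ hC2] at h1
      linarith
    have hCb : ∀ c : ℕ, (c : ℝ) ≤ 1 / (C : ℝ) ^ 2 * Fintype.card V →
        (c : ℝ) * C ≤ Fintype.card V := by
      intro c hc
      have h2 : 1 / (C : ℝ) ^ 2 * Fintype.card V = Fintype.card V / (C : ℝ) ^ 2 := by ring
      rw [h2, le_div_iff₀ hC2] at hc
      have h3 : (c : ℝ) * C ≤ c * (C : ℝ) ^ 2 := by
        apply mul_le_mul_of_nonneg_left _ (by positivity)
        nlinarith
      linarith
    have hmax : ((max a C : ℕ) : ℝ) * (max b C : ℕ) ≤ (2 - ε') * Fintype.card V := by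
      have h2 : (Fintype.card V : ℝ) ≤ (2 - ε') * Fintype.card V := by nlinarith
      rcases le_total a C with h | h <;> rcases le_total b C with h' | h'
      · rw [max_eq_right h, max_eq_right h']
        nlinarith
      · rw [max_eq_right h, max_eq_left h', mul_comm]
        exact (hCb b hbδ).trans h2
      · rw [max_eq_left h, max_eq_right h']
        exact (hCb a haδ).trans h2
      · rw [max_eq_left h, max_eq_left h']
        exact hab'
    exact hC0 (max a C) (max b C) (Fintype.card V) (by omega) (by omega) hmax V G H rfl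
      (ha.mono_right (le_max_left _ _)) (hb.mono_right (le_max_left _ _))

end

end Pool.Agent.MP_7c6760_co
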