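import Mathlib

/-! Basic tools for packing two graphs on one vertex set: states with exactly one conflict,
exchanges of two vertices, and the weighted count of the exchanges. -/

namespace Pool.Agent.MP_7c6760_co

open Finset

noncomputable section

open Classical

set_option linter.unusedSectionVars false

variable {V : Type*} [Fintype V]

/-- neighbourhood as a finset -/
def nb (G : SimpleGraph V) (x : V) : Finset V := univ.filter (fun y => G.Adj x y)

/-- degree -/
def dg (G : SimpleGraph V) (x : V) : ℕ := (nb G x).card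

/-- exchange the roles of `u` and `w` in `H` -/
def sw (H : SimpleGraph V) (u w : V) : SimpleGraph V := H.comap (Equiv.swap u w)

/-- `H` is obtained from `G2` by permuting the vertices -/
def IsCopy (G2 H : SimpleGraph V) : Prop := ∃ σ : Equiv.Perm V, H = G2.comap σ

/-- `uv` is the one and only common edge of `G` and `H` -/
def One (G H : SimpleGraph V) (u v : V) : Prop :=
  G.Adj u v ∧ H.Adj u v ∧
    ∀ x y, G.Adj x y → H.Adj x y → (x = u ∧ y = v) ∨ (x = v ∧ y = u)

/-- no copy of `G2` is edge-disjoint from `G` -/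
def NoPack (G G2 : SimpleGraph V) : Prop :=
  ∀ H, IsCopy G2 H → ∃ x y, G.Adj x y ∧ H.Adj x y

variable {G G2 H : SimpleGraph V} {u v w x y : V}

@[simp] lemma mem_nb : y ∈ nb G x ↔ G.Adj x y := by simp [nb]

lemma dg_comap (σ : Equiv.Perm V) (x : V) : dg (H.comap σ) x = dg H (σ x) := by
  unfold dg
  refine Finset.card_bij (fun y _ => σ y) ?_ ?_ ?_
  · intro y hy; simpa using hy
  · intro y _ z _ h; exact σ.injective h
  · intro z hz
    refine ⟨σ.symm z, ?_, by simp⟩
    simpa using hz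

lemma dg_pos_of_adj (h : G.Adj x y) : 1 ≤ dg G x :=
  Finset.card_pos.mpr ⟨y, by simpa using h⟩

lemma IsCopy.refl (G2 : SimpleGraph V) : IsCopy G2 G2 := ⟨1, by ext; simp⟩

lemma IsCopy.sw (h : IsCopy G2 H) (u w : V) : IsCopy G2 (sw H u w) := by
  obtain ⟨σ, rfl⟩ := h
  exact ⟨(Equiv.swap u w).trans σ, by ext; simp [MP_7c6760_co.sw]⟩

lemma One.symm (h : One G H u v) : One G H v u := by
  refine ⟨h.1.symm, h.2.1.symm, fun x y hx hy => ?_⟩
  rcases h.2.2 x y hx hy with h | h
  · exact Or.inr ⟨h.1, h.2⟩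
  · exact Or.inl ⟨h.1, h.2⟩

lemma dg_sw_left : dg (sw H u w) u = dg H w := by
  unfold sw; rw [dg_comap]; simp

lemma dg_sw_right : dg (sw H u w) w = dg H u := by
  unfold sw; rw [dg_comap]; simp

lemma dg_sw_of_ne (h1 : x ≠ u) (h2 : x ≠ w) : dg (sw H u w) x = dg H x := by
  unfold sw; rw [dg_comap, Equiv.swap_apply_of_ne_of_ne h1 h2]

lemma sw_adj : (sw H u w).Adj x y ↔ H.Adj (Equiv.swap u w x) (Equiv.swap u w y) := by
  simp [sw]

/-- conflicts after an exchange of an end `u` of the unique conflict with `w` -/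
lemma conf_sw (h : One G H u v) (hwu : w ≠ u) (hwv : w ≠ v)
    (hG : G.Adj x y) (hH : (sw H u w).Adj x y) :
    (x = u ∧ y ≠ w ∧ H.Adj w y) ∨ (y = u ∧ x ≠ w ∧ H.Adj w x) ∨
    (x = w ∧ y ≠ u ∧ H.Adj u y) ∨ (y = w ∧ x ≠ u ∧ H.Adj u x) := by
  rw [sw_adj] at hH
  have hxy : x ≠ y := hG.ne
  by_cases hxu : x = u
  · subst hxu
    by_cases hyw : y = w
    · subst hyw
      simp at hH
      rcases h.2.2 x y hG hH.symm with h' | h'
      · exact absurd h'.2 hwv
      · exact absurd h'.2 hwu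
    · left
      rw [Equiv.swap_apply_left, Equiv.swap_apply_of_ne_of_ne hxy.symm hyw] at hH
      exact ⟨rfl, hyw, hH⟩
  · by_cases hxw : x = w
    · subst hxw
      by_cases hyu : y = u
      · subst hyu
        simp at hH
        rcases h.2.2 y x hG.symm hH with h' | h'
        · exact absurd h'.2 hwv
        · exact absurd h'.2 hwu
      · right; right; left
        rw [Equiv.swap_apply_right, Equiv.swap_apply_of_ne_of_ne hyu hxy.symm] at hH
        exact ⟨rfl, hyu, hH⟩
    · rw [Equiv.swap_apply_of_ne_of_ne hxu hxw] at hH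
      by_cases hyu : y = u
      · subst hyu
        rw [Equiv.swap_apply_left] at hH
        right; left
        exact ⟨rfl, hxw, hH.symm⟩
      · by_cases hyw : y = w
        · subst hyw
          rw [Equiv.swap_apply_right] at hH
          right; right; right
          exact ⟨rfl, hxu, hH.symm⟩
        · rw [Equiv.swap_apply_of_ne_of_ne hyu hyw] at hH
          rcases h.2.2 x y hG hH with h' | h'
          · exact absurd h'.1 hxu
          · exact absurd h'.2 hyu

lemma cover (hno : NoPack G G2) (hc : IsCopy G2 H) (h : One G H u v)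
    (hwu : w ≠ u) (hwv : w ≠ v) :
    (∃ x, G.Adj u x ∧ H.Adj w x) ∨ (∃ x, H.Adj u x ∧ G.Adj w x) := by
  obtain ⟨x, y, hG, hH⟩ := hno _ (hc.sw u w)
  rcases conf_sw h hwu hwv hG hH with h' | h' | h' | h'
  · left; exact ⟨y, h'.1 ▸ hG, h'.2.2⟩
  · left; exact ⟨x, h'.1 ▸ hG.symm, h'.2.2⟩
  · right; exact ⟨y, h'.2.2, h'.1 ▸ hG⟩
  · right; exact ⟨x, h'.2.2, h'.1 ▸ hG.symm⟩

lemma singleA (h : One G H u v) (hwu : w ≠ u) (hwv : w ≠ v)
    (hx1 : G.Adj u x) (hx2 : H.Adj w x)
    (hA : ∀ z, G.Adj u z → H.Adj w z → z = x) (hB : ∀ z, H.Adj u z → ¬ G.Adj w z) :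
    One G (sw H u w) u x := by
  refine ⟨hx1, ?_, ?_⟩
  · rw [sw_adj, Equiv.swap_apply_left, Equiv.swap_apply_of_ne_of_ne hx1.ne' hx2.ne']
    exact hx2
  · intro a b hab1 hab2
    rcases conf_sw h hwu hwv hab1 hab2 with h' | h' | h' | h'
    · obtain ⟨rfl, _, h3⟩ := h'
      exact Or.inl ⟨rfl, hA _ hab1 h3⟩
    · obtain ⟨rfl, _, h3⟩ := h'
      exact Or.inr ⟨hA _ hab1.symm h3, rfl⟩
    · obtain ⟨rfl, _, h3⟩ := h'
      exact absurd hab1 (hB _ h3)
    · obtain ⟨rfl, _, h3⟩ := h'
      exact absurd hab1.symm (hB _ h3)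

lemma singleB (h : One G H u v) (hwu : w ≠ u) (hwv : w ≠ v)
    (hx1 : H.Adj u x) (hx2 : G.Adj w x)
    (hA : ∀ z, G.Adj u z → ¬ H.Adj w z) (hB : ∀ z, H.Adj u z → G.Adj w z → z = x) :
    One G (sw H u w) w x := by
  refine ⟨hx2, ?_, ?_⟩
  · rw [sw_adj, Equiv.swap_apply_right, Equiv.swap_apply_of_ne_of_ne hx1.ne' hx2.ne']
    exact hx1
  · intro a b hab1 hab2
    rcases conf_sw h hwu hwv hab1 hab2 with h' | h' | h' | h'
    · obtain ⟨rfl, _, h3⟩ := h'
      exact absurd h3 (hA _ hab1)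
    · obtain ⟨rfl, _, h3⟩ := h'
      exact absurd h3 (hA _ hab1.symm)
    · obtain ⟨rfl, _, h3⟩ := h'
      exact Or.inl ⟨rfl, hB _ h3 hab1⟩
    · obtain ⟨rfl, _, h3⟩ := h'
      exact Or.inr ⟨hB _ h3 hab1.symm, rfl⟩

/-- every exchange is blocked, and a path which blocks alone gives a new state -/
lemma weight (hno : NoPack G G2) (hc : IsCopy G2 H) (h : One G H u v)
    (hwu : w ≠ u) (hwv : w ≠ v) (tA tB : V → Prop)
    (hA : ∀ x, G.Adj u x → H.Adj w x → One G (sw H u w) u x → tA x)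
    (hB : ∀ x, H.Adj u x → G.Adj w x → One G (sw H u w) w x → tB x) :
    2 ≤ ∑ x ∈ nb G u ∩ nb H w, (if tA x then 2 else 1)
      + ∑ x ∈ nb H u ∩ nb G w, (if tB x then 2 else 1) := by
  have hA1 : ((nb G u ∩ nb H w).card : ℕ) ≤ ∑ x ∈ nb G u ∩ nb H w, (if tA x then 2 else 1) := by
    rw [Finset.card_eq_sum_ones]
    exact Finset.sum_le_sum (fun x _ => by split_ifs <;> omega)
  have hB1 : ((nb H u ∩ nb G w).card : ℕ) ≤ ∑ x ∈ nb H u ∩ nb G w, (if tB x then 2 else 1) := by
    rw [Finset.card_eq_sum_ones]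
    exact Finset.sum_le_sum (fun x _ => by split_ifs <;> omega)
  by_contra hlt
  push Not at hlt
  have hcard : (nb G u ∩ nb H w).card + (nb H u ∩ nb G w).card ≤ 1 := by omega
  rcases cover hno hc h hwu hwv with ⟨x, hx1, hx2⟩ | ⟨x, hx1, hx2⟩
  · have hmem : x ∈ nb G u ∩ nb H w := by simp [hx1, hx2]
    have hpos : 1 ≤ (nb G u ∩ nb H w).card := Finset.card_pos.mpr ⟨x, hmem⟩
    have hA2 : (nb G u ∩ nb H w).card = 1 := by omega
    have hB2 : (nb H u ∩ nb G w).card = 0 := by omega
    obtain ⟨x', hx'⟩ := Finset.card_eq_one.mp hA2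
    have hxx : x' = x := by rw [hx'] at hmem; exact (Finset.mem_singleton.mp hmem).symm
    subst hxx
    have hone : One G (sw H u w) u x' := by
      refine singleA h hwu hwv hx1 hx2 ?_ ?_
      · intro z hz1 hz2
        have : z ∈ nb G u ∩ nb H w := by simp [hz1, hz2]
        rw [hx'] at this; simpa using this
      · intro z hz1 hz2
        have : z ∈ nb H u ∩ nb G w := by simp [hz1, hz2]
        rw [Finset.card_eq_zero] at hB2
        rw [hB2] at this; simp at this
    have := hA x' hx1 hx2 hone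
    rw [hx'] at hlt
    simp only [Finset.sum_singleton, this, if_true] at hlt
    omega
  · have hmem : x ∈ nb H u ∩ nb G w := by simp [hx1, hx2]
    have hpos : 1 ≤ (nb H u ∩ nb G w).card := Finset.card_pos.mpr ⟨x, hmem⟩
    have hA2 : (nb H u ∩ nb G w).card = 1 := by omega
    have hB2 : (nb G u ∩ nb H w).card = 0 := by omega
    obtain ⟨x', hx'⟩ := Finset.card_eq_one.mp hA2
    have hxx : x' = x := by rw [hx'] at hmem; exact (Finset.mem_singleton.mp hmem).symm
    subst hxx
    have hone : One G (sw H u w) w x' := by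
      refine singleB h hwu hwv hx1 hx2 ?_ ?_
      · intro z hz1 hz2
        have : z ∈ nb G u ∩ nb H w := by simp [hz1, hz2]
        rw [Finset.card_eq_zero] at hB2
        rw [hB2] at this; simp at this
      · intro z hz1 hz2
        have : z ∈ nb H u ∩ nb G w := by simp [hz1, hz2]
        rw [hx'] at this; simpa using this
    have := hB x' hx1 hx2 hone
    rw [hx'] at hlt
    simp only [Finset.sum_singleton, this, if_true] at hlt
    omega

/-- weighted count of the exchanges of `u` with the elements of `W` -/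
lemma master (hno : NoPack G G2) (hc : IsCopy G2 H) (h : One G H u v)
    (W : Finset V) (hWu : u ∉ W) (hWv : v ∉ W) (tA tB : V → Prop)
    (hA : ∀ w ∈ W, ∀ x, G.Adj u x → H.Adj w x → One G (sw H u w) u x → tA x)
    (hB : ∀ w ∈ W, ∀ x, H.Adj u x → G.Adj w x → One G (sw H u w) w x → tB x) :
    2 * W.card ≤ ∑ x ∈ nb G u, (if tA x then 2 else 1) * (nb H x ∩ W).card
      + ∑ x ∈ nb H u, (if tB x then 2 else 1) * (nb G x ∩ W).card := by
  have key : ∀ w ∈ W, 2 ≤ ∑ x ∈ nb G u ∩ nb H w, (if tA x then 2 else 1)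
      + ∑ x ∈ nb H u ∩ nb G w, (if tB x then 2 else 1) := by
    intro w hw
    exact weight hno hc h (fun e => hWu (e ▸ hw)) (fun e => hWv (e ▸ hw)) tA tB
      (hA w hw) (hB w hw)
  have h1 : 2 * W.card ≤ ∑ w ∈ W, (∑ x ∈ nb G u ∩ nb H w, (if tA x then 2 else 1)
      + ∑ x ∈ nb H u ∩ nb G w, (if tB x then 2 else 1)) := by
    calc 2 * W.card = ∑ w ∈ W, 2 := by simp [mul_comm]
      _ ≤ _ := Finset.sum_le_sum key
  refine h1.trans (le_of_eq ?_)
  rw [Finset.sum_add_distrib]
  congr 1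
  · have e1 : ∀ w ∈ W, ∑ x ∈ nb G u ∩ nb H w, (if tA x then 2 else 1)
        = ∑ x ∈ nb G u, if H.Adj x w then (if tA x then 2 else 1) else 0 := by
      intro w _
      rw [← Finset.sum_filter]
      congr 1
      ext x; simp [SimpleGraph.adj_comm]
    rw [Finset.sum_congr rfl e1, Finset.sum_comm]
    refine Finset.sum_congr rfl (fun x _ => ?_)
    rw [← Finset.sum_filter, Finset.sum_const, smul_eq_mul, mul_comm]
    congr 2
    ext z; simp [and_comm]
  · have e1 : ∀ w ∈ W, ∑ x ∈ nb H u ∩ nb G w, (if tB x then 2 else 1)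
        = ∑ x ∈ nb H u, if G.Adj x w then (if tB x then 2 else 1) else 0 := by
      intro w _
      rw [← Finset.sum_filter]
      congr 1
      ext x; simp [SimpleGraph.adj_comm]
    rw [Finset.sum_congr rfl e1, Finset.sum_comm]
    refine Finset.sum_congr rfl (fun x _ => ?_)
    rw [← Finset.sum_filter, Finset.sum_const, smul_eq_mul, mul_comm]
    congr 2
    ext z; simp [and_comm]

end

end Pool.Agent.MP_7c6760_co
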