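import Pool.Agent.Lib.MP_7c6760_co.Critical
import Pool.Agent.Lib.MP_7c6760_co.Arith

/-! Counting lemmas. -/

namespace Pool.Agent.MP_7c6760_co

open Finset

noncomputable section

open Classical

set_option linter.unusedSectionVars false

variable {V : Type*} [Fintype V]

variable {G G' G2 H : SimpleGraph V} {u v w x y : V} {a b : ℕ}

lemma nb_symm : y ∈ nb G x ↔ x ∈ nb G y := by
  simp [SimpleGraph.adj_comm]

/-- double counting over the neighbourhoods of a set -/
lemma double_count (G : SimpleGraph V) (B : Finset V) (f : V → ℕ) :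
    ∑ y ∈ B, ∑ x ∈ nb G y, f x = ∑ x, f x * (nb G x ∩ B).card := by
  have e1 : ∀ y ∈ B, ∑ x ∈ nb G y, f x = ∑ x, if x ∈ nb G y then f x else 0 := by
    intro y _
    rw [← Finset.sum_filter]
    congr 1
    ext z; simp
  rw [Finset.sum_congr rfl e1, Finset.sum_comm]
  refine Finset.sum_congr rfl (fun x _ => ?_)
  rw [← Finset.sum_filter, Finset.sum_const, smul_eq_mul, mul_comm]
  congr 2
  ext z
  simp only [Finset.mem_filter, Finset.mem_inter]
  rw [nb_symm]
  tauto

/-- in a graph whose edges all join a `P` vertex to a non-`P` vertex -/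
lemma bip {P : V → Prop} (hP : ∀ x y, H.Adj x y → (P x ∧ ¬ P y) ∨ (¬ P x ∧ P y)) (f : V → ℕ) :
    ∑ x ∈ univ.filter (fun x => ¬ P x), dg H x * f x
      = ∑ y ∈ univ.filter P, ∑ x ∈ nb H y, f x := by
  rw [double_count, Finset.sum_filter]
  refine Finset.sum_congr rfl (fun x _ => ?_)
  by_cases hx : P x
  · simp only [hx, not_true, if_false]
    have : nb H x ∩ univ.filter P = ∅ := by
      rw [Finset.eq_empty_iff_forall_notMem]
      intro z hz
      simp only [Finset.mem_inter, mem_nb, Finset.mem_filter, Finset.mem_univ, true_and] at hz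
      rcases hP x z hz.1 with h | h
      · exact h.2 hz.2
      · exact h.1 hx
    rw [this]; simp
  · simp only [hx, not_false_iff, if_true]
    have : nb H x ∩ univ.filter P = nb H x := by
      apply Finset.inter_eq_left.mpr
      intro z hz
      simp only [mem_nb] at hz
      simp only [Finset.mem_filter, Finset.mem_univ, true_and]
      rcases hP x z hz with h | h
      · exact absurd h.1 hx
      · exact h.2
    rw [this, mul_comm]; rfl

lemma bip_one {P : V → Prop} (hP : ∀ x y, H.Adj x y → (P x ∧ ¬ P y) ∨ (¬ P x ∧ P y)) :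
    ∑ x ∈ univ.filter (fun x => ¬ P x), dg H x = ∑ y ∈ univ.filter P, dg H y := by
  have := bip hP (fun _ => 1)
  simp only [mul_one, Finset.sum_const, smul_eq_mul] at this
  exact this

lemma bip_sq {P : V → Prop} (hP : ∀ x y, H.Adj x y → (P x ∧ ¬ P y) ∨ (¬ P x ∧ P y))
    (hb : OreLe H b) :
    ∑ x ∈ univ.filter (fun x => ¬ P x), dg H x * dg H x
      + ∑ y ∈ univ.filter P, dg H y * dg H y ≤ b * ∑ y ∈ univ.filter P, dg H y := by
  rw [bip hP, ← Finset.sum_add_distrib, Finset.mul_sum]
  refine Finset.sum_le_sum (fun y _ => ?_)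
  have h1 : dg H y * dg H y = ∑ x ∈ nb H y, dg H y := by
    rw [Finset.sum_const, smul_eq_mul]; rfl
  rw [h1, ← Finset.sum_add_distrib]
  have h2 : b * dg H y = ∑ x ∈ nb H y, b := by
    rw [Finset.sum_const, smul_eq_mul, mul_comm]; rfl
  rw [h2]
  refine Finset.sum_le_sum (fun x hx => ?_)
  rw [mem_nb] at hx
  have := hb y x hx
  omega

/-- the first sum, real arithmetic -/
lemma arithS {e2 h2 n a h l : ℝ} (hh : 0 < h) (hl0 : 0 < l) (hl : l * (h + l) ≤ h ^ 2)
    (hn : n = a * h) (ha : 0 ≤ a)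
    (C1 : (h + l) * e2 ≤ h ^ 2 * h2 + l ^ 2 * (n - h2)) (C2 : e2 ≤ l * (n - h2)) :
    2 * e2 - l * h2 ≤ a * ((h - l) * (2 * h - l)) := by
  have h3 : 3 * l ≤ 2 * h := by
    by_contra hcon
    push Not at hcon
    nlinarith
  have k1 := mul_le_mul_of_nonneg_left C1 (show 0 ≤ 3 * l by linarith)
  have k2 := mul_le_mul_of_nonneg_left C2
    (show 0 ≤ (2 * h - 3 * l) * (h + l) from mul_nonneg (by linarith) (by linarith))
  have k3 : (h * (h + l)) * (2 * e2 - l * h2) ≤ l * n * (h * (2 * h - l)) := by nlinarith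
  have k4 : l * h ≤ (h - l) * (h + l) := by nlinarith
  have k5 : l * n * (h * (2 * h - l)) ≤ (h * (h + l)) * (a * ((h - l) * (2 * h - l))) := by
    have : 0 ≤ a * h * (2 * h - l) := mul_nonneg (mul_nonneg ha hh.le) (by linarith)
    have := mul_le_mul_of_nonneg_right k4 this
    rw [hn]
    nlinarith
  have k6 : 0 < h * (h + l) := mul_pos hh (by linarith)
  exact le_of_mul_le_mul_left (k3.trans k5) k6

end

end Pool.Agent.MP_7c6760_co
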