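import Pool.Agent.Lib.MP_7c6760_co.Cross

/-! Reduction to pairs of graphs which are critical: every edge of each graph is the only
common edge for some placement. -/

namespace Pool.Agent.MP_7c6760_co

open Finset

noncomputable section

open Classical

set_option linter.unusedSectionVars false

variable {V : Type*} [Fintype V]

variable {G G' G2 H : SimpleGraph V} {u v w x y : V} {a b : ℕ}

lemma dg_mono (h : G' ≤ G) (x : V) : dg G' x ≤ dg G x := by
  unfold dg
  refine Finset.card_le_card (fun y hy => ?_)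
  rw [mem_nb] at hy ⊢
  exact h hy

lemma OreLe.mono (ha : OreLe G a) (h : G' ≤ G) : OreLe G' a := fun x y hxy =>
  (Nat.add_le_add (dg_mono h x) (dg_mono h y)).trans (ha x y (h hxy))

/-- remove one edge -/
def del (G : SimpleGraph V) (x y : V) : SimpleGraph V where
  Adj p q := G.Adj p q ∧ ¬ ((p = x ∧ q = y) ∨ (p = y ∧ q = x))
  symm := ⟨fun p q h => ⟨h.1.symm, fun h' => h.2 (by
    rcases h' with h' | h'
    · exact Or.inr ⟨h'.2, h'.1⟩
    · exact Or.inl ⟨h'.2, h'.1⟩)⟩⟩
  loopless := ⟨fun p h => G.irrefl h.1⟩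

lemma del_le : del G x y ≤ G := fun _ _ h => h.1

lemma del_ne (h : G.Adj x y) : ¬ G ≤ del G x y := fun hle => (hle h).2 (Or.inl ⟨rfl, rfl⟩)

/-- edge criticality of a pair -/
structure Crit (G G2 : SimpleGraph V) : Prop where
  no : NoPack G G2
  left : ∀ x y, G.Adj x y → ∃ H, IsCopy G2 H ∧ One G H x y
  right : ∀ x y, G2.Adj x y → ∃ σ : Equiv.Perm V, One G (G2.comap σ) (σ.symm x) (σ.symm y)

lemma exists_crit (hno : NoPack G G2) (ha : OreLe G a) (hb : OreLe G2 b) :
    ∃ K L : SimpleGraph V, Crit K L ∧ OreLe K a ∧ OreLe L b := by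
  let S : Set (SimpleGraph V × SimpleGraph V) :=
    {p | NoPack p.1 p.2 ∧ OreLe p.1 a ∧ OreLe p.2 b}
  have hne : S.Nonempty := ⟨(G, G2), hno, ha, hb⟩
  obtain ⟨⟨K, L⟩, hmem, hmin⟩ := (Set.toFinite S).exists_minimal hne
  obtain ⟨h1, h2, h3⟩ := hmem
  refine ⟨K, L, ⟨h1, ?_, ?_⟩, h2, h3⟩
  · intro x y hxy
    have hnot : ¬ NoPack (del K x y) L := by
      intro hno'
      have hle : (del K x y, L) ≤ (K, L) := ⟨del_le, le_refl _⟩
      have := hmin (show (del K x y, L) ∈ S from ⟨hno', h2.mono del_le, h3⟩) hle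
      exact del_ne hxy this.1
    unfold NoPack at hnot
    push Not at hnot
    obtain ⟨H, hH, hdis⟩ := hnot
    have key : ∀ p q, K.Adj p q → H.Adj p q → (p = x ∧ q = y) ∨ (p = y ∧ q = x) := by
      intro p q hp hq
      by_contra hcon
      exact hdis p q ⟨hp, hcon⟩ hq
    obtain ⟨p, q, hp, hq⟩ := h1 H hH
    have hHxy : H.Adj x y := by
      rcases key p q hp hq with h' | h'
      · rw [← h'.1, ← h'.2]; exact hq
      · rw [← h'.1, ← h'.2]; exact hq.symm
    exact ⟨H, hH, hxy, hHxy, key⟩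
  · intro x y hxy
    have hnot : ¬ NoPack K (del L x y) := by
      intro hno'
      have hle : (K, del L x y) ≤ (K, L) := ⟨le_refl _, del_le⟩
      have := hmin (show (K, del L x y) ∈ S from ⟨hno', h2, h3.mono del_le⟩) hle
      exact del_ne hxy this.2
    unfold NoPack at hnot
    push Not at hnot
    obtain ⟨H, ⟨σ, rfl⟩, hdis⟩ := hnot
    have key : ∀ p q, K.Adj p q → (L.comap σ).Adj p q →
        (p = σ.symm x ∧ q = σ.symm y) ∨ (p = σ.symm y ∧ q = σ.symm x) := by
      intro p q hp hq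
      by_contra hcon
      refine hdis p q hp ⟨hq, fun h' => hcon ?_⟩
      rcases h' with h' | h'
      · left; exact ⟨by rw [← h'.1]; simp, by rw [← h'.2]; simp⟩
      · right; exact ⟨by rw [← h'.1]; simp, by rw [← h'.2]; simp⟩
    obtain ⟨p, q, hp, hq⟩ := h1 (L.comap σ) ⟨σ, rfl⟩
    have hK : K.Adj (σ.symm x) (σ.symm y) := by
      rcases key p q hp hq with h' | h'
      · rw [← h'.1, ← h'.2]; exact hp
      · rw [← h'.1, ← h'.2]; exact hp.symm
    exact ⟨σ, hK, by simpa using hxy, key⟩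

/-- in a critical pair every edge of the first graph has exactly one end of large degree -/
lemma Crit.hi1 (hcr : Crit G G2) (ha : OreLe G a) (hb : OreLe G2 b)
    (hn : a * b < 2 * Fintype.card V) (hxy : G.Adj x y) :
    (Fintype.card V ≤ b * dg G x ∧ b * dg G y < Fintype.card V) ∨
    (b * dg G x < Fintype.card V ∧ Fintype.card V ≤ b * dg G y) := by
  obtain ⟨H, hH, hone⟩ := hcr.left x y hxy
  rcases dich hcr.no ha hb hn hH hone with h | h
  · left; exact ⟨h.1, h.2.1⟩
  · right; exact ⟨h.1, h.2.1⟩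

/-- in a critical pair every edge of the second graph has exactly one end of large degree -/
lemma Crit.hi2 (hcr : Crit G G2) (ha : OreLe G a) (hb : OreLe G2 b)
    (hn : a * b < 2 * Fintype.card V) (hc : IsCopy G2 H) (hxy : H.Adj x y) :
    (Fintype.card V ≤ a * dg H x ∧ a * dg H y < Fintype.card V) ∨
    (a * dg H x < Fintype.card V ∧ Fintype.card V ≤ a * dg H y) := by
  obtain ⟨τ, rfl⟩ := hc
  obtain ⟨σ, hone⟩ := hcr.right (τ x) (τ y) hxy
  have h := dich hcr.no ha hb hn ⟨σ, rfl⟩ hone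
  rw [dg_comap, dg_comap] at h ⊢
  simp only [Equiv.apply_symm_apply] at h
  omega

end

end Pool.Agent.MP_7c6760_co
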