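import Pool.Agent.Lib.MP_7c6760_co.Basic

/-! The crossing lemma: in every state with one conflict each end of the conflict has large
degree in one of the two graphs. -/

namespace Pool.Agent.MP_7c6760_co

open Finset

noncomputable section

open Classical

set_option linter.unusedSectionVars false

variable {V : Type*} [Fintype V]

variable {G G2 H : SimpleGraph V} {u v w x y : V} {a b : ℕ}

lemma sum_add_le {s : Finset V} {f g : V → ℕ} {k : ℕ} (hv : v ∈ s)
    (h : ∀ x ∈ s, f x ≤ g x) (hk : f v + k ≤ g v) :
    ∑ x ∈ s, f x + k ≤ ∑ x ∈ s, g x := by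
  rw [← Finset.add_sum_erase s f hv, ← Finset.add_sum_erase s g hv]
  have : ∑ x ∈ s.erase v, f x ≤ ∑ x ∈ s.erase v, g x :=
    Finset.sum_le_sum (fun x hx => h x (Finset.mem_of_mem_erase hx))
  omega

lemma sum_ite_le {s : Finset V} {t : V → Prop} {f : V → ℕ} {M : ℕ}
    (h1 : ∀ x ∈ s, t x → 2 * f x ≤ M) (h2 : ∀ x ∈ s, ¬ t x → f x ≤ M) :
    ∑ x ∈ s, (if t x then 2 else 1) * f x ≤ s.card * M := by
  rw [← smul_eq_mul, ← Finset.sum_const]
  refine Finset.sum_le_sum (fun x hx => ?_)
  by_cases ht : t x
  · simp only [ht, if_true]; exact h1 x hx ht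
  · simp only [ht, if_false, one_mul]; exact h2 x hx ht

/-- the weighted count over all exchanges of `u` -/
lemma master_full (hno : NoPack G G2) (hc : IsCopy G2 H) (h : One G H u v)
    (tA tB : V → Prop) (hAv : tA v) (hBv : tB v)
    (hA : ∀ w, w ≠ u → w ≠ v → ∀ x, G.Adj u x → H.Adj w x → One G (sw H u w) u x → tA x)
    (hB : ∀ w, w ≠ u → w ≠ v → ∀ x, H.Adj u x → G.Adj w x → One G (sw H u w) w x → tB x) :
    2 * Fintype.card V ≤ ∑ x ∈ nb G u, (if tA x then 2 else 1) * dg H x
      + ∑ x ∈ nb H u, (if tB x then 2 else 1) * dg G x := by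
  have huv : u ≠ v := h.1.ne
  have h1 := master hno hc h (univ \ {u, v}) (by simp) (by simp) tA tB
    (fun w hw => hA w (by rintro rfl; simp at hw) (by rintro rfl; simp at hw))
    (fun w hw => hB w (by rintro rfl; simp at hw) (by rintro rfl; simp at hw))
  have hcardW : (univ \ {u, v} : Finset V).card + 2 = Fintype.card V := by
    have h2 : ({u, v} : Finset V).card = 2 := by simp [huv]
    rw [Finset.card_sdiff_of_subset (Finset.subset_univ _), h2, Finset.card_univ]
    have : 2 ≤ Fintype.card V := by
      rw [← h2, ← Finset.card_univ]; exact Finset.card_le_card (Finset.subset_univ _)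
    omega
  have hs : ∀ (K : SimpleGraph V) (x : V), (nb K x ∩ (univ \ {u, v})).card ≤ dg K x :=
    fun K x => Finset.card_le_card Finset.inter_subset_left
  have hs1 : ∀ (K : SimpleGraph V), K.Adj v u → (nb K v ∩ (univ \ {u, v})).card + 1 ≤ dg K v := by
    intro K hK
    have : nb K v ∩ (univ \ {u, v}) ⊆ (nb K v).erase u := by
      intro z hz
      simp only [Finset.mem_inter, Finset.mem_sdiff, Finset.mem_insert, Finset.mem_singleton] at hz
      simp only [Finset.mem_erase]
      exact ⟨fun e => hz.2.2 (Or.inl e), hz.1⟩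
    have h3 := Finset.card_le_card this
    have hmem : u ∈ nb K v := by simpa using hK
    rw [Finset.card_erase_of_mem hmem] at h3
    have : 1 ≤ (nb K v).card := Finset.card_pos.mpr ⟨u, hmem⟩
    unfold dg
    omega
  have hA1 : ∑ x ∈ nb G u, (if tA x then 2 else 1) * (nb H x ∩ (univ \ {u, v})).card + 2
      ≤ ∑ x ∈ nb G u, (if tA x then 2 else 1) * dg H x := by
    refine sum_add_le (v := v) (by simpa using h.1) (fun x _ => Nat.mul_le_mul_left _ (hs H x)) ?_
    have := hs1 H h.2.1.symm
    simp only [hAv, if_true]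
    omega
  have hB1 : ∑ x ∈ nb H u, (if tB x then 2 else 1) * (nb G x ∩ (univ \ {u, v})).card + 2
      ≤ ∑ x ∈ nb H u, (if tB x then 2 else 1) * dg G x := by
    refine sum_add_le (v := v) (by simpa using h.2.1) (fun x _ => Nat.mul_le_mul_left _ (hs G x)) ?_
    have := hs1 G h.1.symm
    simp only [hBv, if_true]
    omega
  omega

/-- Ore-degree bound, `a` an upper bound for the degree sums of edges -/
def OreLe (G : SimpleGraph V) (a : ℕ) : Prop := ∀ x y, G.Adj x y → dg G x + dg G y ≤ a

lemma OreLe.copy (h : OreLe G2 b) (hc : IsCopy G2 H) : OreLe H b := by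
  obtain ⟨σ, rfl⟩ := hc
  intro x y hxy
  rw [dg_comap, dg_comap]
  exact h _ _ hxy

lemma OreLe.dg_le (h : OreLe G a) (x : V) : dg G x ≤ a - 1 := by
  by_cases h0 : dg G x = 0
  · omega
  · have : 0 < (nb G x).card := Nat.pos_of_ne_zero h0
    obtain ⟨y, hy⟩ := Finset.card_pos.mp this
    have hadj : G.Adj x y := by simpa using hy
    have h1 := h x y hadj
    have h2 := dg_pos_of_adj hadj.symm
    omega

private lemma arith1 {α π p q n : ℕ} (h1 : α ≤ q) (h2 : π ≤ p)
    (h : 2 * n ≤ α * (2 * p) + π * (2 * q)) (hn : (α + q) * (π + p) < 2 * n) : False := by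
  obtain ⟨c, rfl⟩ := Nat.exists_eq_add_of_le h1
  obtain ⟨d, rfl⟩ := Nat.exists_eq_add_of_le h2
  nlinarith [Nat.zero_le (c * d)]

private lemma arith2 {α π p q n : ℕ} (h2 : p < π) (hα : 0 < α)
    (h : 2 * n ≤ α * (π + p - 1) + π * (2 * q)) (hn : (α + q) * π < n) : False := by
  obtain ⟨c, hc⟩ : ∃ c, π + p = c + 1 := ⟨π + p - 1, by omega⟩
  have h3 : π + p - 1 = c := by omega
  rw [h3] at h
  have h5 : c ≤ 2 * π := by omega
  have h6 : α * c ≤ α * (2 * π) := Nat.mul_le_mul_left α h5
  nlinarith

/-- the crossing lemma -/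
lemma crossing (hno : NoPack G G2) (ha : OreLe G a) (hb : OreLe G2 b)
    (hn : a * b < 2 * Fintype.card V) :
    ∀ (k : ℕ) (H : SimpleGraph V) (u v : V), IsCopy G2 H → One G H u v →
      dg G u + dg H u = k →
      Fintype.card V ≤ b * dg G u ∨ Fintype.card V ≤ a * dg H u := by
  intro k
  induction k using Nat.strong_induction_on with
  | _ k ih =>
  intro H u v hc h hk
  by_contra hcon
  push Not at hcon
  obtain ⟨hc1, hc2⟩ := hcon
  have hbH : OreLe H b := hb.copy hc
  have hα : dg G u + dg G v ≤ a := ha u v h.1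
  have hπ : dg H u + dg H v ≤ b := hbH u v h.2.1
  have hα0 : 1 ≤ dg G u := dg_pos_of_adj h.1
  have hπ0 : 1 ≤ dg H u := dg_pos_of_adj h.2.1
  have hα1 : 1 ≤ dg G v := dg_pos_of_adj h.1.symm
  have hπ1 : 1 ≤ dg H v := dg_pos_of_adj h.2.1.symm
  set α := dg G u with hαd
  set π := dg H u with hπd
  -- the four cases
  have hmain := by
    refine master_full hno hc h (fun x => dg H x + π ≤ b) (fun x => dg G x + α ≤ a)
      (by show dg H v + π ≤ b; omega) (by show dg G v + α ≤ a; omega) ?_ ?_
    · intro w hwu hwv x hx1 hx2 hone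
      by_contra hlt
      replace hlt : ¬ (dg H x + π ≤ b) := hlt
      push Not at hlt
      have h1 := hbH w x hx2
      have hd : dg (sw H u w) u = dg H w := dg_sw_left
      have := ih (α + dg H w) (by omega) (sw H u w) u x (hc.sw u w) hone (by rw [hd])
      rw [hd] at this
      rcases this with h' | h'
      · rw [← hαd] at h'; omega
      · have : a * dg H w ≤ a * π := Nat.mul_le_mul_left a (by omega)
        omega
    · intro w hwu hwv x hx1 hx2 hone
      by_contra hlt
      replace hlt : ¬ (dg G x + α ≤ a) := hlt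
      push Not at hlt
      have h1 := ha w x hx2
      have hd : dg (sw H u w) w = dg H u := dg_sw_right
      have := ih (dg G w + π) (by omega) (sw H u w) w x (hc.sw u w) hone (by rw [hd])
      rw [hd] at this
      rcases this with h' | h'
      · have : b * dg G w ≤ b * α := Nat.mul_le_mul_left b (by omega)
        omega
      · rw [← hπd] at h'; omega
  have hle1 := sum_ite_le (s := nb G u) (t := fun x => dg H x + π ≤ b) (f := fun x => dg H x)
    (M := max (2 * (b - π)) (b - 1))
    (fun x _ ht => le_max_of_le_left (by have ht' : dg H x + π ≤ b := ht; omega))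
    (fun x _ _ => le_max_of_le_right (hbH.dg_le x))
  have hle2 := sum_ite_le (s := nb H u) (t := fun x => dg G x + α ≤ a) (f := fun x => dg G x)
    (M := max (2 * (a - α)) (a - 1))
    (fun x _ ht => le_max_of_le_left (by have ht' : dg G x + α ≤ a := ht; omega))
    (fun x _ _ => le_max_of_le_right (ha.dg_le x))
  have htot : 2 * Fintype.card V ≤ α * max (2 * (b - π)) (b - 1)
      + π * max (2 * (a - α)) (a - 1) := hmain.trans (Nat.add_le_add hle1 hle2)
  obtain ⟨q, hq⟩ := Nat.exists_eq_add_of_le (show α ≤ a by omega)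
  obtain ⟨p, hp⟩ := Nat.exists_eq_add_of_le (show π ≤ b by omega)
  have e1 : b - π = p := by omega
  have e2 : a - α = q := by omega
  rw [e1, e2] at htot
  by_cases h1 : α ≤ q
  · have m2 : max (2 * q) (a - 1) = 2 * q := max_eq_left (by omega)
    rw [m2] at htot
    by_cases h2 : π ≤ p
    · have m1 : max (2 * p) (b - 1) = 2 * p := max_eq_left (by omega)
      rw [m1] at htot
      rw [hq, hp] at hn
      exact arith1 h1 h2 htot hn
    · have m1 : max (2 * p) (b - 1) = b - 1 := max_eq_right (by omega)
      rw [m1, hp] at htot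
      rw [hq] at hc2
      exact arith2 (by omega) hα0 htot hc2
  · by_cases h2 : π ≤ p
    · have m1 : max (2 * p) (b - 1) = 2 * p := max_eq_left (by omega)
      have m2 : max (2 * q) (a - 1) = a - 1 := max_eq_right (by omega)
      rw [m1, m2, hq] at htot
      rw [hp] at hc1
      exact arith2 (n := Fintype.card V) (by omega : q < α) hπ0
        (by rw [add_comm (α * _)] at htot; exact htot) hc1
    · -- both large: look at the other end
      have hlt1 : dg G v < α := by omega
      have hlt2 : dg H v < π := by omega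
      rcases ih (dg G v + dg H v) (by omega) H v u hc h.symm rfl with h' | h'
      · have : b * dg G v ≤ b * α := Nat.mul_le_mul_left b (by omega)
        omega
      · have : a * dg H v ≤ a * π := Nat.mul_le_mul_left a (by omega)
        omega

/-- dichotomy for the ends of a conflict -/
lemma dich (hno : NoPack G G2) (ha : OreLe G a) (hb : OreLe G2 b)
    (hn : a * b < 2 * Fintype.card V) (hc : IsCopy G2 H) (h : One G H u v) :
    (Fintype.card V ≤ b * dg G u ∧ b * dg G v < Fintype.card V ∧
      a * dg H u < Fintype.card V ∧ Fintype.card V ≤ a * dg H v) ∨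
    (b * dg G u < Fintype.card V ∧ Fintype.card V ≤ b * dg G v ∧
      Fintype.card V ≤ a * dg H u ∧ a * dg H v < Fintype.card V) := by
  have hbH : OreLe H b := hb.copy hc
  have h1 := crossing hno ha hb hn _ H u v hc h rfl
  have h2 := crossing hno ha hb hn _ H v u hc h.symm rfl
  have hα : dg G u + dg G v ≤ a := ha u v h.1
  have hπ : dg H u + dg H v ≤ b := hbH u v h.2.1
  have e1 : b * dg G u + b * dg G v ≤ a * b := by
    rw [← mul_add, mul_comm a b]; exact Nat.mul_le_mul_left b hα
  have e2 : a * dg H u + a * dg H v ≤ a * b := by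
    rw [← mul_add]; exact Nat.mul_le_mul_left a hπ
  omega

end

end Pool.Agent.MP_7c6760_co
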