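import Pool.Agent.Lib.MP_7c6760_co.Main

/-! The packing theorem. -/

namespace Pool.Agent.MP_7c6760_co

open Finset

noncomputable section

open Classical

set_option linter.unusedSectionVars false

variable {V : Type*} [Fintype V]

variable {G G' G2 H : SimpleGraph V} {u v w x y : V} {a b : ℕ}

lemma crit_false (hcr : Crit G G2) (ha : OreLe G a) (hb : OreLe G2 b)
    (hab : (a * b) ^ 2 ≤ a * b * Fintype.card V + Fintype.card V ^ 2)
    (hV : 0 < Fintype.card V) : False := by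
  set n := Fintype.card V with hn_def
  have hn : a * b < 2 * n := by
    by_contra hcon
    push Not at hcon
    nlinarith
  obtain ⟨H, α, π, ρ, D, M, c, hc, hα, hαD, hρ, hπρ, hM1, hMπ, hnD, hnπ, hcD, hcov, hmain⟩ :=
    main_count hcr ha hb hn
  rw [← hn_def] at hnD hnπ hcov hmain
  have hbH : OreLe H b := hb.copy hc
  -- basic natural facts
  have hD1 : 1 ≤ D := by
    by_contra hcon
    have : D = 0 := by omega
    rw [this] at hnD; omega
  have hnab : n ≤ a * b := by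
    have := Nat.mul_le_mul_left a (show π ≤ b by omega)
    omega
  have ha3 : 3 ≤ a := by
    by_contra hcon
    push Not at hcon
    have hD : D ≤ 1 := by omega
    have hD' : D = 1 := by omega
    have ha2 : a = 2 := by omega
    subst hD' ha2
    nlinarith
  have haR : (3 : ℝ) ≤ a := by exact_mod_cast ha3
  have ha0 : (0 : ℝ) < a := by linarith
  have hnR : (0 : ℝ) < n := by exact_mod_cast hV
  -- real parameters
  obtain ⟨h, hh⟩ : ∃ h : ℝ, h = n / a := ⟨_, rfl⟩
  have hnah : (n : ℝ) = a * h := by rw [hh]; field_simp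
  have hh0 : 0 < h := by rw [hh]; positivity
  obtain ⟨l, hl⟩ : ∃ l : ℝ, l = b - h := ⟨_, rfl⟩
  have hbl : (b : ℝ) = h + l := by rw [hl]; ring
  have hπb : (π : ℝ) + ρ ≤ b := by exact_mod_cast hπρ
  have hρ1 : (1 : ℝ) ≤ ρ := by exact_mod_cast hρ
  have hπh : h ≤ π := by
    have : (n : ℝ) ≤ a * π := by exact_mod_cast hnπ
    rw [hnah] at this
    exact le_of_mul_le_mul_left this ha0
  have hl1 : 1 ≤ l := by rw [hl]; linarith
  have hl0 : 0 < l := by linarith
  have hlh : l * (h + l) ≤ h ^ 2 := by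
    have h1 : ((a : ℝ) * b) ^ 2 ≤ a * b * n + (n : ℝ) ^ 2 := by exact_mod_cast hab
    rw [hnah, hbl] at h1
    have h2 : (a : ℝ) ^ 2 * (l * (h + l)) ≤ (a : ℝ) ^ 2 * h ^ 2 := by nlinarith
    exact le_of_mul_le_mul_left h2 (by positivity)
  -- the part with large degree
  obtain ⟨hi, hi_def⟩ : ∃ hi : V → Prop, ∀ x, hi x ↔ n ≤ a * dg H x :=
    ⟨fun x => n ≤ a * dg H x, fun _ => Iff.rfl⟩
  have hPbip : ∀ x y, H.Adj x y → (hi x ∧ ¬ hi y) ∨ (¬ hi x ∧ hi y) := by
    intro x y hxy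
    have := hcr.hi2 ha hb hn hc hxy
    rw [← hn_def] at this
    rw [hi_def, hi_def]
    omega
  obtain ⟨e2, he2⟩ : ∃ e2 : ℝ, e2 = ∑ x ∈ univ.filter hi, (dg H x : ℝ) := ⟨_, rfl⟩
  obtain ⟨h2, hh2⟩ : ∃ h2 : ℝ, h2 = ((univ.filter hi).card : ℝ) := ⟨_, rfl⟩
  have hlowcard : ((univ.filter (fun x => ¬ hi x)).card : ℝ) = n - h2 := by
    have := Finset.card_filter_add_card_filter_not (s := (univ : Finset V)) hi
    rw [Finset.card_univ, ← hn_def] at this
    have h' : ((univ.filter hi).card : ℝ) + ((univ.filter (fun x => ¬ hi x)).card : ℝ) = n := by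
      exact_mod_cast this
    rw [hh2]; linarith
  have hlowsum : ∑ x ∈ univ.filter (fun x => ¬ hi x), (dg H x : ℝ) = e2 := by
    have := bip_one hPbip
    rw [he2]
    exact_mod_cast this
  have hlowd : ∀ x, ¬ hi x → (dg H x : ℝ) ≤ l := by
    intro x hx
    have h1 : a * dg H x < n := by rw [hi_def] at hx; omega
    have h2 := low2' hcr ha hb hn hnab hc h1
    rw [← hn_def] at h2
    have h3 : (a : ℝ) * dg H x + n ≤ a * b := by exact_mod_cast h2
    rw [hnah, hbl] at h3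
    have h4 : (a : ℝ) * dg H x ≤ a * l := by linarith
    exact le_of_mul_le_mul_left h4 ha0
  have hhid : ∀ x, hi x → h ≤ (dg H x : ℝ) := by
    intro x hx
    have h1 : (n : ℝ) ≤ a * dg H x := by exact_mod_cast (hi_def x).mp hx
    rw [hnah] at h1
    exact le_of_mul_le_mul_left h1 ha0
  have C2 : e2 ≤ l * (n - h2) := by
    rw [← hlowsum, ← hlowcard, mul_comm, ← nsmul_eq_mul, ← Finset.sum_const]
    exact Finset.sum_le_sum (fun x hx => hlowd x (Finset.mem_filter.mp hx).2)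
  have C1 : (h + l) * e2 ≤ h ^ 2 * h2 + l ^ 2 * (n - h2) := by
    have h1 := bip_sq hPbip hbH
    have h1' : ∑ x ∈ univ.filter (fun x => ¬ hi x), (dg H x : ℝ) * dg H x
      + ∑ y ∈ univ.filter hi, (dg H y : ℝ) * dg H y ≤ b * e2 := by
      rw [he2]; exact_mod_cast h1
    have h3 : 0 ≤ ∑ x ∈ univ.filter (fun x => ¬ hi x), ((dg H x : ℝ) - l) ^ 2 :=
      Finset.sum_nonneg (fun x _ => sq_nonneg _)
    have h4 : 0 ≤ ∑ x ∈ univ.filter hi, ((dg H x : ℝ) - h) ^ 2 :=
      Finset.sum_nonneg (fun x _ => sq_nonneg _)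
    have h5 : ∑ x ∈ univ.filter (fun x => ¬ hi x), ((dg H x : ℝ) - l) ^ 2
        = ∑ x ∈ univ.filter (fun x => ¬ hi x), (dg H x : ℝ) * dg H x - 2 * l * e2
          + l ^ 2 * (n - h2) := by
      rw [← hlowsum, ← hlowcard, Finset.mul_sum, ← Finset.sum_sub_distrib,
        mul_comm (l ^ 2), ← nsmul_eq_mul, ← Finset.sum_const, ← Finset.sum_add_distrib]
      exact Finset.sum_congr rfl (fun x _ => by ring)
    have h6 : ∑ x ∈ univ.filter hi, ((dg H x : ℝ) - h) ^ 2
        = ∑ x ∈ univ.filter hi, (dg H x : ℝ) * dg H x - 2 * h * e2 + h ^ 2 * h2 := by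
      rw [he2, hh2, Finset.mul_sum, ← Finset.sum_sub_distrib,
        mul_comm (h ^ 2), ← nsmul_eq_mul, ← Finset.sum_const, ← Finset.sum_add_distrib]
      exact Finset.sum_congr rfl (fun x _ => by ring)
    rw [hbl] at h1'
    rw [h5] at h3
    rw [h6] at h4
    linarith
  have hS : 2 * e2 - l * h2 ≤ a * ((h - l) * (2 * h - l)) :=
    arithS hh0 hl0 hlh hnah ha0.le C1 C2
  -- pointwise bound
  have hSsum : ∑ x, (if hi x then (2 * (dg H x : ℝ) - l) else 0) = 2 * e2 - l * h2 := by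
    rw [← Finset.sum_filter, Finset.sum_sub_distrib, ← Finset.mul_sum, ← he2, Finset.sum_const,
      nsmul_eq_mul, hh2]
    ring
  obtain ⟨cov, hcovd⟩ : ∃ cov : ℝ, cov = ((univ.filter (fun x => 1 ≤ c x)).card : ℝ) := ⟨_, rfl⟩
  obtain ⟨C, hC⟩ : ∃ C : ℝ, C = ∑ x, (c x : ℝ) := ⟨_, rfl⟩
  have hlh' : l ≤ h := by
    by_contra hcon
    push Not at hcon
    nlinarith
  have hl2b : 0 ≤ 2 * (h + l) - 2 - l := by linarith
  have hexc : ∀ x, ((c x : ℝ) - if 1 ≤ c x then 1 else 0) ≥ 0 := by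
    intro x
    split_ifs with h1
    · have : (1 : ℝ) ≤ c x := by exact_mod_cast h1
      linarith
    · have : (0 : ℝ) ≤ c x := by positivity
      linarith
  have hpt : ∀ x, (((if n ≤ a * dg H x then 2 else 1) * dg H x * c x : ℕ) : ℝ) ≤
      (if hi x then (2 * (dg H x : ℝ) - l) else 0) + l * c x
        + (2 * (h + l) - 2 - l) * ((c x : ℝ) - if 1 ≤ c x then 1 else 0) := by
    intro x
    have hdb : (dg H x : ℝ) ≤ h + l - 1 := by
      have h1 := hbH.dg_le x
      have h1' : dg H x + 1 ≤ b := by omega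
      have h2 : (dg H x : ℝ) + 1 ≤ b := by exact_mod_cast h1'
      rw [hbl] at h2; linarith
    have hc0 : (0 : ℝ) ≤ c x := by positivity
    by_cases hx : hi x
    · have hx' : n ≤ a * dg H x := (hi_def x).mp hx
      simp only [hx, hx', if_true]
      push_cast
      have hdh := hhid x hx
      by_cases h1 : 1 ≤ c x
      · simp only [h1, if_true]
        have h2 : (0 : ℝ) ≤ (c x : ℝ) - 1 := by
          have : (1 : ℝ) ≤ c x := by exact_mod_cast h1
          linarith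
        have h3 : (2 * (dg H x : ℝ) - l) * ((c x : ℝ) - 1)
            ≤ (2 * (h + l) - 2 - l) * ((c x : ℝ) - 1) :=
          mul_le_mul_of_nonneg_right (by linarith) h2
        linarith
      · have h2 : c x = 0 := by omega
        simp only [h2]
        simp
        linarith
    · have hx' : ¬ n ≤ a * dg H x := fun h' => hx ((hi_def x).mpr h')
      simp only [hx, hx', if_false]
      push_cast
      have h1 : (dg H x : ℝ) * c x ≤ l * c x := mul_le_mul_of_nonneg_right (hlowd x hx) hc0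
      have h2 := mul_nonneg hl2b (hexc x)
      linarith
  have hcovs : ∑ x, (if 1 ≤ c x then (1 : ℝ) else 0) = cov := by
    rw [hcovd]; simp
  have hsum : ((∑ x, (if n ≤ a * dg H x then 2 else 1) * dg H x * c x : ℕ) : ℝ)
      ≤ 2 * e2 - l * h2 + l * C + (2 * (h + l) - 2 - l) * (C - cov) := by
    rw [← hSsum, hC, ← hcovs, ← Finset.sum_sub_distrib, Finset.mul_sum, Finset.mul_sum,
      ← Finset.sum_add_distrib, ← Finset.sum_add_distrib, Nat.cast_sum]
    exact Finset.sum_le_sum (fun x _ => hpt x)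
  -- collect
  have hCD : C ≤ M * D := by rw [hC]; exact_mod_cast hcD
  have hE0 : 0 ≤ C - cov := by
    rw [hC, ← hcovs, ← Finset.sum_sub_distrib]
    exact Finset.sum_nonneg (fun x _ => hexc x)
  have hMR1 : (1 : ℝ) ≤ M := by exact_mod_cast hM1
  have hMRπ : (M : ℝ) ≤ π := by exact_mod_cast hMπ
  obtain ⟨X, hX⟩ : ∃ X : ℝ, X = a - D := ⟨_, rfl⟩
  obtain ⟨Y, hY⟩ : ∃ Y : ℝ, Y = b - π := ⟨_, rfl⟩
  have hαR : (1 : ℝ) ≤ α := by exact_mod_cast hα
  have hDR : (1 : ℝ) ≤ D := by exact_mod_cast hD1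
  have hαDR : (α : ℝ) + D ≤ a := by exact_mod_cast hαD
  have hπ' : (π : ℝ) = h + l - Y := by rw [hY, hbl]; ring
  have hD' : (D : ℝ) = a - X := by rw [hX]; ring
  have hcovR : 2 * (n : ℝ) ≤ 2 * cov + ((α : ℝ) - 1) * (b - 1) + 2 * ρ + (π - M) * D := by
    have h1 : ((2 * n : ℕ) : ℝ) ≤ ((2 * (univ.filter (fun x => 1 ≤ c x)).card
        + (α - 1) * (b - 1) + 2 * ρ + (π - M) * D : ℕ) : ℝ) := by exact_mod_cast hcov
    push_cast [Nat.cast_sub hα, Nat.cast_sub hMπ, Nat.cast_sub (show 1 ≤ b by omega)] at h1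
    rw [hcovd]; linarith
  have hb1 : (0 : ℝ) ≤ b - 1 := by
    have : (1 : ℝ) ≤ b := by exact_mod_cast (show 1 ≤ b by omega)
    linarith
  have hmainR : 2 * (M : ℝ) * n ≤ 2 * e2 - l * h2 + l * C + (2 * (h + l) - 2 - l) * (C - cov)
      + 2 * (M - 1) * π + M * ((b - π) * (a - 1)) := by
    have h1 : ((2 * M * n : ℕ) : ℝ) ≤ ((∑ x, (if n ≤ a * dg H x then 2 else 1) * dg H x * c x
        + 2 * (M - 1) * π + M * ((b - π) * (a - 1)) : ℕ) : ℝ) := by exact_mod_cast hmain
    rw [Nat.cast_add, Nat.cast_add] at h1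
    push_cast [Nat.cast_sub hM1, Nat.cast_sub (show π ≤ b by omega),
      Nat.cast_sub (show 1 ≤ a by omega)] at h1 hsum
    linarith
  have hα2 : ((α : ℝ) - 1) * (b - 1) ≤ (X - 1) * (b - 1) :=
    mul_le_mul_of_nonneg_right (by linarith) hb1
  refine final_arith (A := a - 1) (h := h) (l := l) (X := X) (Y := Y) (M := M) (E := C - cov)
    (S := 2 * e2 - l * h2) (by linarith) hh0 hl0 hlh (by linarith) (by linarith) (by linarith)
    (by linarith) hMR1 (by linarith) hE0 ?_ ?_ ?_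
  · rw [hbl] at hα2 hcovR
    rw [hnah, hπ', hD'] at hcovR
    rw [hD'] at hCD
    linarith
  · have : ((a : ℝ) - 1 + 1) = a := by ring
    rw [this]; exact hS
  · have h1 : ((a : ℝ) - 1 + 1) = a := by ring
    rw [h1]
    have h2 : l * C ≤ l * M * (a - X) := by
      rw [mul_assoc, ← hD']; exact mul_le_mul_of_nonneg_left hCD hl0.le
    have h3 : (M : ℝ) * ((b - π) * (a - 1)) = M * Y * (a - 1) := by rw [hY]; ring
    rw [h3, hnah, hπ'] at hmainR
    linarith

/-- graphs with `(ab)² ≤ ab n + n²` pack -/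
theorem packs (ha : OreLe G a) (hb : OreLe G2 b)
    (hab : (a * b) ^ 2 ≤ a * b * Fintype.card V + Fintype.card V ^ 2) :
    ∃ σ : Equiv.Perm V, ∀ x y, G.Adj x y → ¬ G2.Adj (σ x) (σ y) := by
  by_contra hcon
  push Not at hcon
  have hno : NoPack G G2 := by
    rintro H ⟨σ, rfl⟩
    obtain ⟨x, y, h1, h2⟩ := hcon σ
    exact ⟨x, y, h1, h2⟩
  obtain ⟨x, y, h1, -⟩ := hno G2 (IsCopy.refl G2)
  obtain ⟨K, L, hcr, hK, hL⟩ := exists_crit hno ha hb
  exact crit_false hcr hK hL hab (Fintype.card_pos_iff.mpr ⟨x⟩)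

end

end Pool.Agent.MP_7c6760_co
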