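import Mathlib

/-! A set which meets every member of a family of large sets in the expected proportion. -/

namespace Pool.Agent.MP_7c6760_co

open Finset

noncomputable section

open Classical

variable {V ι : Type*} [Fintype ι]

/-- binomial weight of a subset -/
def bw (p : ℝ) (C S : Finset V) : ℝ := (∏ _c ∈ S, p) * (∏ _c ∈ C \ S, (1 - p))

lemma bw_nonneg {p : ℝ} (h0 : 0 ≤ p) (h1 : p ≤ 1) (C S : Finset V) : 0 ≤ bw p C S :=
  mul_nonneg (Finset.prod_nonneg (fun _ _ => h0))
    (Finset.prod_nonneg (fun _ _ => by linarith))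

lemma sum_bw (p : ℝ) (C : Finset V) : ∑ S ∈ C.powerset, bw p C S = 1 := by
  unfold bw
  rw [← Finset.prod_add]
  simp

lemma sum_bw_mem (p : ℝ) (C : Finset V) {c : V} (hc : c ∈ C) :
    ∑ S ∈ C.powerset, (if c ∈ S then bw p C S else 0) = p := by
  have h := Finset.prod_add (fun _ : V => p) (fun x => if x = c then 0 else 1 - p) C
  have h1 : ∏ x ∈ C, (p + (if x = c then 0 else 1 - p)) = p := by
    rw [← Finset.mul_prod_erase _ _ hc]
    simp only [if_true, add_zero]
    have : ∏ x ∈ C.erase c, (p + (if x = c then 0 else 1 - p)) = 1 := by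
      apply Finset.prod_eq_one
      intro x hx
      simp [Finset.ne_of_mem_erase hx]
    rw [this, mul_one]
  refine Eq.trans ?_ (h.symm.trans h1)
  refine Finset.sum_congr rfl (fun S hS => ?_)
  by_cases hcS : c ∈ S
  · simp only [hcS, if_true]
    unfold bw
    congr 1
    refine Finset.prod_congr rfl (fun x hx => ?_)
    have : x ≠ c := by
      rintro rfl
      exact (Finset.mem_sdiff.mp hx).2 hcS
    simp [this]
  · simp only [hcS, if_false]
    have hmem : c ∈ C \ S := Finset.mem_sdiff.mpr ⟨hc, hcS⟩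
    rw [Finset.prod_eq_zero (s := C \ S) (i := c) hmem (by simp)]
    simp

lemma sum_bw_card (p : ℝ) (C : Finset V) :
    ∑ S ∈ C.powerset, bw p C S * (S.card : ℝ) = p * C.card := by
  have h1 : ∀ S ∈ C.powerset, bw p C S * (S.card : ℝ)
      = ∑ c ∈ C, (if c ∈ S then bw p C S else 0) := by
    intro S hS
    rw [Finset.sum_ite_mem, Finset.inter_eq_right.mpr (Finset.mem_powerset.mp hS),
      Finset.sum_const, nsmul_eq_mul, mul_comm]
  rw [Finset.sum_congr rfl h1, Finset.sum_comm]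
  rw [Finset.sum_congr rfl (fun c hc => sum_bw_mem p C hc), Finset.sum_const, nsmul_eq_mul,
    mul_comm]

lemma sum_bw_exp (p t : ℝ) (C N : Finset V) (hN : N ⊆ C) :
    ∑ S ∈ C.powerset, bw p C S * Real.exp (-t * ((S ∩ N).card : ℝ))
      = (1 - p * (1 - Real.exp (-t))) ^ N.card := by
  have h := Finset.prod_add (fun x : V => p * (if x ∈ N then Real.exp (-t) else 1))
    (fun _ => 1 - p) C
  have h1 : ∏ x ∈ C, (p * (if x ∈ N then Real.exp (-t) else 1) + (1 - p))
      = (1 - p * (1 - Real.exp (-t))) ^ N.card := by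
    rw [← Finset.prod_sdiff hN]
    have e1 : ∏ x ∈ C \ N, (p * (if x ∈ N then Real.exp (-t) else 1) + (1 - p)) = 1 := by
      apply Finset.prod_eq_one
      intro x hx
      simp [(Finset.mem_sdiff.mp hx).2]
    have e2 : ∏ x ∈ N, (p * (if x ∈ N then Real.exp (-t) else 1) + (1 - p))
        = ∏ x ∈ N, (1 - p * (1 - Real.exp (-t))) := by
      refine Finset.prod_congr rfl (fun x hx => ?_)
      simp only [hx, if_true]; ring
    rw [e1, e2, one_mul, Finset.prod_const]
  rw [← h1, h]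
  refine Finset.sum_congr rfl (fun S hS => ?_)
  unfold bw
  have e3 : ∏ x ∈ S, (p * (if x ∈ N then Real.exp (-t) else 1))
      = (∏ _x ∈ S, p) * Real.exp (-t * ((S ∩ N).card : ℝ)) := by
    rw [Finset.prod_mul_distrib]
    congr 1
    rw [Finset.prod_ite_mem, Finset.prod_const, ← Real.exp_nat_mul]
    congr 1; ring
  rw [e3]; ring

lemma exp_neg_le {t : ℝ} (ht : 0 ≤ t) : Real.exp (-t) ≤ 1 - t + t ^ 2 / 2 := by
  have h1 := Real.quadratic_le_exp_of_nonneg ht
  have h2 : Real.exp (-t) * Real.exp t = 1 := by rw [← Real.exp_add]; simp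
  have h3 : 0 < 1 + t + t ^ 2 / 2 := by positivity
  have h4 : Real.exp (-t) * (1 + t + t ^ 2 / 2) ≤ (1 - t + t ^ 2 / 2) * (1 + t + t ^ 2 / 2) := by
    have h5 : Real.exp (-t) * (1 + t + t ^ 2 / 2) ≤ Real.exp (-t) * Real.exp t :=
      mul_le_mul_of_nonneg_left h1 (Real.exp_pos _).le
    nlinarith [sq_nonneg (t ^ 2)]
  exact le_of_mul_le_mul_right h4 h3

lemma tail_le {p η : ℝ} (hη : 0 < η) (hp : η ≤ p) (hp1 : p ≤ 1) {k : ℕ} (C N : Finset V)
    (hN : N ⊆ C) (hk : N.card = k) :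
    ∑ S ∈ C.powerset, bw (p - η / 2) C S *
      (if ((S ∩ N).card : ℝ) < (p - η) * k then 1 else 0)
      ≤ Real.exp (-(η ^ 2 / 8) * k) := by
  have hp0 : 0 ≤ p - η / 2 := by linarith
  have hp1' : p - η / 2 ≤ 1 := by linarith
  have h1 : ∀ S ∈ C.powerset, bw (p - η / 2) C S *
      (if ((S ∩ N).card : ℝ) < (p - η) * k then 1 else 0)
      ≤ Real.exp ((η / 2) * ((p - η) * k)) *
        (bw (p - η / 2) C S * Real.exp (-(η / 2) * ((S ∩ N).card : ℝ))) := by
    intro S _
    have hb := bw_nonneg hp0 hp1' C S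
    have h2 : (if ((S ∩ N).card : ℝ) < (p - η) * k then (1 : ℝ) else 0)
        ≤ Real.exp ((η / 2) * ((p - η) * k)) * Real.exp (-(η / 2) * ((S ∩ N).card : ℝ)) := by
      rw [← Real.exp_add]
      split_ifs with hlt
      · rw [← Real.exp_zero]
        apply Real.exp_le_exp.mpr
        nlinarith
      · exact (Real.exp_pos _).le
    calc _ ≤ bw (p - η / 2) C S * (Real.exp ((η / 2) * ((p - η) * k)) *
          Real.exp (-(η / 2) * ((S ∩ N).card : ℝ))) := mul_le_mul_of_nonneg_left h2 hb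
      _ = _ := by ring
  refine (Finset.sum_le_sum h1).trans ?_
  rw [← Finset.mul_sum, sum_bw_exp _ _ _ _ hN, hk]
  have h3 : 0 ≤ η / 2 := by linarith
  have h4 := exp_neg_le h3
  have h5 : (1 - (p - η / 2) * (1 - Real.exp (-(η / 2)))) ≤
      Real.exp (-((p - η / 2) * (η / 2 - (η / 2) ^ 2 / 2))) := by
    have h6 := Real.add_one_le_exp (-((p - η / 2) * (η / 2 - (η / 2) ^ 2 / 2)))
    nlinarith [mul_le_mul_of_nonneg_left h4 hp0]
  have h7 : 0 ≤ 1 - (p - η / 2) * (1 - Real.exp (-(η / 2))) := by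
    have h8 : Real.exp (-(η / 2)) > 0 := Real.exp_pos _
    have h9 : Real.exp (-(η / 2)) ≤ 1 := Real.exp_le_one_iff.mpr (by linarith)
    nlinarith
  have h10 : (1 - (p - η / 2) * (1 - Real.exp (-(η / 2)))) ^ k ≤
      Real.exp (-((p - η / 2) * (η / 2 - (η / 2) ^ 2 / 2))) ^ k := pow_le_pow_left₀ h7 h5 k
  rw [← Real.exp_nat_mul] at h10
  calc _ ≤ Real.exp ((η / 2) * ((p - η) * k)) *
        Real.exp (k * (-((p - η / 2) * (η / 2 - (η / 2) ^ 2 / 2)))) :=
        mul_le_mul_of_nonneg_left h10 (Real.exp_pos _).le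
    _ = Real.exp ((η / 2) * ((p - η) * k)
          + k * (-((p - η / 2) * (η / 2 - (η / 2) ^ 2 / 2)))) := by rw [← Real.exp_add]
    _ ≤ _ := by
        apply Real.exp_le_exp.mpr
        have hk0 : (0 : ℝ) ≤ k := by positivity
        have h11 : (η / 2) * (p - η) - (p - η / 2) * (η / 2 - (η / 2) ^ 2 / 2) ≤ -(η ^ 2 / 8) := by
          nlinarith [mul_nonneg (sub_nonneg.mpr hp1') (sq_nonneg η)]
        nlinarith [mul_le_mul_of_nonneg_left h11 hk0]

/-- the hitting lemma -/
theorem exists_hitting {p η : ℝ} (hη : 0 < η) (hp : η ≤ p) (hp1 : p ≤ 1) {k n : ℕ}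
    (hbig : (k : ℝ) * Real.exp (-(η ^ 2 / 8) * k) ≤ η / 2)
    (C : Finset V) (hC : C.card ≤ n) (N : ι → Finset V) (hN : ∀ i, N i ⊆ C)
    (hk : ∀ i, (N i).card = k) (hι : Fintype.card ι ≤ n) :
    ∃ S ⊆ C, (S.card : ℝ) ≤ p * n ∧ ∀ i, (p - η) * k ≤ ((S ∩ N i).card : ℝ) := by
  have hp0 : 0 ≤ p - η / 2 := by linarith
  have hp1' : p - η / 2 ≤ 1 := by linarith
  let bad : Finset V → Finset ι := fun S => univ.filter (fun i => ((S ∩ N i).card : ℝ) < (p - η) * k)
  let cost : Finset V → ℝ := fun S => (S.card : ℝ) + k * ((bad S).card : ℝ)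
  obtain ⟨S0, hS0, hmin⟩ := Finset.exists_min_image C.powerset cost ⟨∅, by simp⟩
  have h1 : cost S0 ≤ ∑ S ∈ C.powerset, bw (p - η / 2) C S * cost S := by
    calc cost S0 = (∑ S ∈ C.powerset, bw (p - η / 2) C S) * cost S0 := by
          rw [sum_bw, one_mul]
      _ = ∑ S ∈ C.powerset, bw (p - η / 2) C S * cost S0 := by rw [Finset.sum_mul]
      _ ≤ _ := Finset.sum_le_sum (fun S hS =>
          mul_le_mul_of_nonneg_left (hmin S hS) (bw_nonneg hp0 hp1' C S))
  have h2 : ∑ S ∈ C.powerset, bw (p - η / 2) C S * cost S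
      ≤ (p - η / 2) * C.card + k * (n * Real.exp (-(η ^ 2 / 8) * k)) := by
    have e1 : ∀ S, bw (p - η / 2) C S * cost S = bw (p - η / 2) C S * (S.card : ℝ)
        + k * ∑ i, bw (p - η / 2) C S *
          (if ((S ∩ N i).card : ℝ) < (p - η) * k then 1 else 0) := by
      intro S
      have e2 : ((bad S).card : ℝ) = ∑ i, (if ((S ∩ N i).card : ℝ) < (p - η) * k then (1:ℝ) else 0) := by
        simp [bad]
      show bw (p - η / 2) C S * ((S.card : ℝ) + k * ((bad S).card : ℝ)) = _
      rw [e2, ← Finset.mul_sum]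
      ring
    rw [Finset.sum_congr rfl (fun S _ => e1 S), Finset.sum_add_distrib, sum_bw_card,
      ← Finset.mul_sum, Finset.sum_comm]
    have hk0 : (0 : ℝ) ≤ k := by positivity
    refine add_le_add le_rfl (mul_le_mul_of_nonneg_left ?_ hk0)
    calc _ ≤ ∑ _i : ι, Real.exp (-(η ^ 2 / 8) * k) :=
          Finset.sum_le_sum (fun i _ => tail_le hη hp hp1 C (N i) (hN i) (hk i))
      _ = (Fintype.card ι : ℝ) * Real.exp (-(η ^ 2 / 8) * k) := by
          rw [Finset.sum_const, nsmul_eq_mul, Finset.card_univ]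
      _ ≤ _ := by
          apply mul_le_mul_of_nonneg_right _ (Real.exp_pos _).le
          exact_mod_cast hι
  have h3 : cost S0 ≤ p * n := by
    have hn0 : (0 : ℝ) ≤ n := by positivity
    have hCn : (C.card : ℝ) ≤ n := by exact_mod_cast hC
    have h4 := mul_le_mul_of_nonneg_left hbig hn0
    have h5 := mul_le_mul_of_nonneg_left hCn hp0
    calc cost S0 ≤ _ := h1.trans h2
      _ ≤ p * n := by nlinarith
  refine ⟨S0 ∪ (bad S0).biUnion N, ?_, ?_, ?_⟩
  · apply Finset.union_subset (Finset.mem_powerset.mp hS0)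
    intro x hx
    obtain ⟨i, _, hi⟩ := Finset.mem_biUnion.mp hx
    exact hN i hi
  · refine le_trans ?_ h3
    have h6 : (S0 ∪ (bad S0).biUnion N).card ≤ S0.card + (bad S0).card * k := by
      refine (Finset.card_union_le _ _).trans (Nat.add_le_add_left ?_ _)
      exact Finset.card_biUnion_le_card_mul _ _ _ (fun i _ => (hk i).le)
    have h7 : ((S0 ∪ (bad S0).biUnion N).card : ℝ) ≤ S0.card + (bad S0).card * k := by
      exact_mod_cast h6
    show _ ≤ (S0.card : ℝ) + k * ((bad S0).card : ℝ)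
    linarith
  · intro i
    by_cases hi : ((S0 ∩ N i).card : ℝ) < (p - η) * k
    · have hmem : i ∈ bad S0 := by simp [bad, hi]
      have h8 : (S0 ∪ (bad S0).biUnion N) ∩ N i = N i := by
        apply Finset.inter_eq_right.mpr
        intro x hx
        exact Finset.mem_union_right _ (Finset.mem_biUnion.mpr ⟨i, hmem, hx⟩)
      rw [h8, hk i]
      have hk0 : (0 : ℝ) ≤ k := by positivity
      nlinarith
    · push Not at hi
      refine hi.trans ?_
      have h9 : (S0 ∩ N i).card ≤ ((S0 ∪ (bad S0).biUnion N) ∩ N i).card :=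
        Finset.card_le_card (Finset.inter_subset_inter_right Finset.subset_union_left)
      exact_mod_cast h9

end

end Pool.Agent.MP_7c6760_co
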