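import Pool.Agent.Lib.MP_7c6760_co.Near

/-! Packings of the graphs which remain when a set of vertices is removed, and how to put
vertices of small degree back. -/

namespace Pool.Agent.MP_7c6760_co

open Finset

noncomputable section

open Classical

set_option linter.unusedSectionVars false

variable {V : Type*} [Fintype V]

variable {G G2 H : SimpleGraph V} {q u v w x y : V} {a b : ℕ} {S : Finset V}

/-- restriction to the complement of `S` -/
def rest (G : SimpleGraph V) (S : Finset V) : SimpleGraph {x : V // x ∉ S} :=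
  G.comap (fun x => x.1)

lemma rest_adj {x y : {x : V // x ∉ S}} : (rest G S).Adj x y ↔ G.Adj x.1 y.1 := by
  simp [rest]

lemma dg_rest (x : {x : V // x ∉ S}) : dg (rest G S) x = (nb G x.1 \ S).card := by
  unfold dg
  refine Finset.card_bij (fun y _ => y.1) ?_ ?_ ?_
  · intro y hy
    rw [mem_nb, rest_adj] at hy
    simp only [Finset.mem_sdiff, mem_nb]
    exact ⟨hy, y.2⟩
  · intro y _ z _ h; exact Subtype.ext h
  · intro z hz
    simp only [Finset.mem_sdiff, mem_nb] at hz
    exact ⟨⟨z, hz.2⟩, by rw [mem_nb, rest_adj]; exact hz.1, rfl⟩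

lemma dg_rest_le (x : {x : V // x ∉ S}) : dg (rest G S) x ≤ dg G x.1 := by
  rw [dg_rest]
  exact Finset.card_le_card Finset.sdiff_subset

lemma OreLe.rest (h : OreLe G a) : OreLe (rest G S) a := by
  intro x y hxy
  have h1 := h x.1 y.1 (rest_adj.mp hxy)
  have h2 := dg_rest_le (G := G) x
  have h3 := dg_rest_le (G := G) y
  omega

lemma card_rest : Fintype.card {x : V // x ∉ S} = Fintype.card V - S.card := by
  rw [Fintype.card_subtype]
  have : (univ.filter (fun x => x ∉ S)) = Sᶜ := by ext; simp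
  rw [this, Finset.card_compl]

/-- a placement without conflicts outside `S` -/
def PackOn (G H : SimpleGraph V) (S : Finset V) : Prop :=
  ∃ σ : Equiv.Perm V, (∀ x, σ x ∉ S ↔ x ∉ S) ∧
    ∀ x y, x ∉ S → y ∉ S → G.Adj x y → ¬ H.Adj (σ x) (σ y)

lemma packOn_of_rest (τ : Equiv.Perm {x : V // x ∉ S})
    (h : ∀ x y, (rest G S).Adj x y → ¬ (rest H S).Adj (τ x) (τ y)) : PackOn G H S := by
  refine ⟨Equiv.Perm.ofSubtype τ, ?_, ?_⟩
  · intro x
    by_cases hx : x ∈ S
    · have : Equiv.Perm.ofSubtype τ x = x :=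
        Equiv.Perm.ofSubtype_apply_of_not_mem τ (by simpa using hx)
      rw [this]
    · have : Equiv.Perm.ofSubtype τ x = τ ⟨x, hx⟩ := Equiv.Perm.ofSubtype_apply_of_mem τ hx
      rw [this]
      exact ⟨fun _ => hx, fun _ => (τ ⟨x, hx⟩).2⟩
  · intro x y hx hy hG hH
    have h1 : Equiv.Perm.ofSubtype τ x = τ ⟨x, hx⟩ := Equiv.Perm.ofSubtype_apply_of_mem τ hx
    have h2 : Equiv.Perm.ofSubtype τ y = τ ⟨y, hy⟩ := Equiv.Perm.ofSubtype_apply_of_mem τ hy
    rw [h1, h2] at hH
    exact h ⟨x, hx⟩ ⟨y, hy⟩ (rest_adj.mpr hG) (rest_adj.mpr hH)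

lemma packOn_fix (h : PackOn G H S) :
    ∃ σ : Equiv.Perm V, (∀ x ∈ S, σ x = x) ∧ (∀ x, σ x ∉ S ↔ x ∉ S) ∧
      ∀ x y, x ∉ S → y ∉ S → G.Adj x y → ¬ H.Adj (σ x) (σ y) := by
  obtain ⟨σ, h1, h2⟩ := h
  let τ : Equiv.Perm {x : V // x ∉ S} := σ.subtypePerm h1
  have hin : ∀ x (hx : x ∉ S), Equiv.Perm.ofSubtype τ x = σ x := by
    intro x hx
    rw [Equiv.Perm.ofSubtype_apply_of_mem τ hx]
    rfl
  have hout : ∀ x, x ∈ S → Equiv.Perm.ofSubtype τ x = x := by
    intro x hx
    exact Equiv.Perm.ofSubtype_apply_of_not_mem τ (by simpa using hx)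
  refine ⟨Equiv.Perm.ofSubtype τ, hout, ?_, ?_⟩
  · intro x
    by_cases hx : x ∈ S
    · rw [hout x hx]
    · rw [hin x hx]; exact h1 x
  · intro x y hx hy hG
    rw [hin x hx, hin y hy]
    exact h2 x y hx hy hG

/-- one pair of vertices of small degree is put back -/
lemma packOn_step (ha : OreLe G a) (hb : OreLe H b) (hq : q ∉ S)
    (h : PackOn G H (insert q S)) (hn : a * b < 2 * (Fintype.card V - S.card))
    (h1 : b * dg G q < Fintype.card V - S.card) (h2 : a * dg H q < Fintype.card V - S.card) :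
    PackOn G H S := by
  obtain ⟨σ, hfix, hmem, hpk⟩ := packOn_fix h
  have hbσ : OreLe (H.comap σ) b := hb.copy ⟨σ, rfl⟩
  have hcard : Fintype.card {x : V // x ∉ S} = Fintype.card V - S.card := card_rest
  obtain ⟨τ, hτ⟩ := pack_of_near (G := rest G S) (H := rest (H.comap σ) S) (q := ⟨q, hq⟩)
    ha.rest hbσ.rest (by rw [hcard]; exact hn)
    (by
      intro x y hG hH
      rw [rest_adj] at hG hH
      by_contra hcon
      push Not at hcon
      have hx : x.1 ∉ insert q S := by
        intro hmem'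
        rcases Finset.mem_insert.mp hmem' with h' | h'
        · exact hcon.1 (Subtype.ext h')
        · exact x.2 h'
      have hy : y.1 ∉ insert q S := by
        intro hmem'
        rcases Finset.mem_insert.mp hmem' with h' | h'
        · exact hcon.2 (Subtype.ext h')
        · exact y.2 h'
      exact hpk x.1 y.1 hx hy hG (by simpa using hH))
    (by
      rw [hcard]
      exact lt_of_le_of_lt (Nat.mul_le_mul_left b (dg_rest_le _)) h1)
    (by
      rw [hcard]
      refine lt_of_le_of_lt (Nat.mul_le_mul_left a (dg_rest_le _)) ?_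
      show a * dg (H.comap σ) q < _
      rw [dg_comap, hfix q (Finset.mem_insert_self _ _)]
      exact h2)
  obtain ⟨ρ, hρ1, hρ2⟩ := packOn_of_rest τ hτ
  refine ⟨ρ.trans σ, ?_, ?_⟩
  · intro x
    have hσS : ∀ z, σ z ∉ S ↔ z ∉ S := by
      intro z
      by_cases hz : z ∈ S
      · rw [hfix z (Finset.mem_insert_of_mem hz)]
      · refine ⟨fun _ => hz, fun _ hzS => ?_⟩
        have h3 := hfix (σ z) (Finset.mem_insert_of_mem hzS)
        have h4 := σ.injective h3
        rw [h4] at hzS
        exact hz hzS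
    rw [Equiv.trans_apply, hσS, hρ1]
  · intro x y hx hy hG hH
    rw [Equiv.trans_apply, Equiv.trans_apply] at hH
    exact hρ2 x y hx hy hG (by simpa using hH)

/-- all vertices of `S` are put back -/
lemma packOn_all (ha : OreLe G a) (hb : OreLe H b) {m : ℕ} (hn : a * b < 2 * m) :
    ∀ S : Finset V, m + S.card ≤ Fintype.card V + 1 →
      (∀ q ∈ S, b * dg G q < m ∧ a * dg H q < m) → PackOn G H S → PackOn G H ∅ := by
  intro S
  induction S using Finset.induction_on with
  | empty => intro _ _ h; exact h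
  | insert q S hq ih =>
    intro hm hlow h
    rw [Finset.card_insert_of_notMem hq] at hm
    have hm' : m ≤ Fintype.card V - S.card := by omega
    refine ih (by omega) (fun z hz => hlow z (Finset.mem_insert_of_mem hz)) ?_
    have h1 := hlow q (Finset.mem_insert_self _ _)
    exact packOn_step ha hb hq h (by omega) (by omega) (by omega)

end

end Pool.Agent.MP_7c6760_co
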