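import Pool.Agent.Lib.MP_7c6760_co.Golden
import Pool.Agent.Lib.MP_7c6760_co.Remove
import Pool.Agent.Lib.MP_7c6760_co.Hit

/-! One round of the reduction: vertices of small degree are removed from both graphs so that the
Ore-degrees drop. -/

namespace Pool.Agent.MP_7c6760_co

open Finset

noncomputable section

open Classical

set_option linter.unusedSectionVars false

variable {V : Type} [Fintype V]

variable {G G2 H K L : SimpleGraph V} {q u v w x y : V} {a b : ℕ} {S T : Finset V}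

/-- all pairs of graphs with `n` vertices and Ore-degrees at most `a` and `b` pack -/
def PP (a b n : ℕ) : Prop :=
  ∀ (W : Type) [Fintype W] (G H : SimpleGraph W), Fintype.card W = n → OreLe G a → OreLe H b →
    ∃ σ : Equiv.Perm W, ∀ x y, G.Adj x y → ¬ H.Adj (σ x) (σ y)

lemma PP_golden {a b n : ℕ} (h : (a * b) ^ 2 ≤ a * b * n + n ^ 2) : PP a b n := by
  intro W _ G H hW ha hb
  exact packs ha hb (by rw [hW]; exact h)

lemma low1' (hcr : Crit G G2) (ha : OreLe G a) (hb : OreLe G2 b)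
    (hn : a * b < 2 * Fintype.card V) (hab : Fintype.card V ≤ a * b)
    (hx : b * dg G x < Fintype.card V) :
    b * dg G x + Fintype.card V ≤ a * b := by
  by_cases h0 : dg G x = 0
  · rw [h0]; omega
  · obtain ⟨y, hy⟩ := Finset.card_pos.mp (Nat.pos_of_ne_zero h0)
    rw [mem_nb] at hy
    have h1 := ha x y hy
    rcases hcr.hi1 ha hb hn hy with h | h
    · omega
    · have := Nat.mul_le_mul_left b h1
      rw [mul_add, mul_comm b a] at this
      omega

/-- one graph: removal of vertices of small degree lowers the Ore-degree -/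
lemma side {a b n : ℕ} (hV : Fintype.card V = n) (hn : 0 < n)
    (hi : ∀ x y, G.Adj x y → (n ≤ b * dg G x ∧ b * dg G y < n) ∨
      (b * dg G x < n ∧ n ≤ b * dg G y))
    (ha : OreLe G a) {p η : ℝ} (hη : 0 < η) (hp : η ≤ p) (hp1 : p ≤ 1 / 2)
    (hbig : ((⌈(n : ℝ) / b⌉₊ : ℕ) : ℝ) * Real.exp (-(η ^ 2 / 8) * ((⌈(n : ℝ) / b⌉₊ : ℕ) : ℝ))
      ≤ η / 2) (hb0 : 0 < b) :
    ∃ S : Finset V, S.card = ⌊p * n⌋₊ ∧ (∀ x ∈ S, b * dg G x < n) ∧
      OreLe (rest G S) (a - ⌈(p - η) * (⌈(n : ℝ) / b⌉₊ : ℕ)⌉₊) := by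
  obtain ⟨k, hk⟩ : ∃ k : ℕ, k = ⌈(n : ℝ) / b⌉₊ := ⟨_, rfl⟩
  rw [← hk] at hbig ⊢
  have hbR : (0 : ℝ) < b := by exact_mod_cast hb0
  have hkd : ∀ x, n ≤ b * dg G x → k ≤ dg G x := by
    intro x hx
    rw [hk]
    apply Nat.ceil_le.mpr
    rw [div_le_iff₀ hbR]
    have : (n : ℝ) ≤ b * dg G x := by exact_mod_cast hx
    linarith
  have hsub : ∀ i : {x : V // n ≤ b * dg G x}, ∃ N : Finset V, N ⊆ nb G i.1 ∧ N.card = k := by
    intro i
    exact Finset.exists_subset_card_eq (hkd i.1 i.2)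
  choose N hN1 hN2 using hsub
  let C : Finset V := univ.filter (fun x => b * dg G x < n)
  have hNC : ∀ i, N i ⊆ C := by
    intro i y hy
    have h1 := hN1 i hy
    rw [mem_nb] at h1
    simp only [C, Finset.mem_filter, Finset.mem_univ, true_and]
    rcases hi i.1 y h1 with h2 | h2
    · exact h2.2
    · exact absurd i.2 (by omega)
  have hCn : C.card ≤ n := by rw [← hV]; exact Finset.card_le_univ C
  have hιn : Fintype.card {x : V // n ≤ b * dg G x} ≤ n := by
    rw [← hV]; exact Fintype.card_subtype_le _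
  obtain ⟨S1, hS1C, hS1card, hS1⟩ := exists_hitting hη hp (by linarith) hbig C hCn N hNC hN2 hιn
  -- there are enough vertices of small degree
  have hCbig : n ≤ 2 * C.card := by
    have hbip : ∀ x y, G.Adj x y → ((n ≤ b * dg G x) ∧ ¬ (n ≤ b * dg G y)) ∨
        (¬ (n ≤ b * dg G x) ∧ (n ≤ b * dg G y)) := by
      intro x y hxy
      rcases hi x y hxy with h | h
      · left; exact ⟨h.1, by omega⟩
      · right; exact ⟨by omega, h.2⟩
    have h1 := bip_one (H := G) (P := fun x => n ≤ b * dg G x) hbip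
    have hCe : univ.filter (fun x => ¬ n ≤ b * dg G x) = C := by
      ext x; simp [C]
    have h2 : (univ.filter (fun x => n ≤ b * dg G x)).card * n
        ≤ b * ∑ x ∈ univ.filter (fun x => n ≤ b * dg G x), dg G x := by
      rw [Finset.mul_sum, ← smul_eq_mul, ← Finset.sum_const]
      exact Finset.sum_le_sum (fun x hx => (Finset.mem_filter.mp hx).2)
    have h3 : b * ∑ x ∈ C, dg G x ≤ C.card * n := by
      rw [Finset.mul_sum, ← smul_eq_mul, ← Finset.sum_const]
      refine Finset.sum_le_sum (fun x hx => ?_)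
      have := (Finset.mem_filter.mp hx).2
      exact this.le
    have h4 : (univ.filter (fun x => n ≤ b * dg G x)).card * n ≤ C.card * n := by
      refine h2.trans (le_trans (le_of_eq ?_) h3)
      congr 1
      rw [← hCe]
      refine Eq.trans ?_ (h1.symm.trans ?_)
      · refine Finset.sum_congr ?_ (fun _ _ => rfl)
        ext x; simp
      · refine Finset.sum_congr ?_ (fun _ _ => rfl)
        ext x; simp
    have h5 := Nat.le_of_mul_le_mul_right h4 hn
    have h6 := Finset.card_filter_add_card_filter_not (s := (univ : Finset V))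
      (fun x => n ≤ b * dg G x)
    rw [Finset.card_univ, hV] at h6
    have h7 : (univ.filter (fun x => ¬ n ≤ b * dg G x)).card = C.card := by
      congr 1
    omega
  have hs1 : S1.card ≤ ⌊p * n⌋₊ := Nat.le_floor hS1card
  have hs2 : ⌊p * n⌋₊ ≤ C.card := by
    have h1 : (⌊p * n⌋₊ : ℝ) ≤ p * n := Nat.floor_le (by
      have : (0 : ℝ) ≤ n := by positivity
      have : 0 ≤ p := by linarith
      positivity)
    have h2 : (n : ℝ) ≤ 2 * C.card := by exact_mod_cast hCbig
    have h3 : p * n ≤ 1 / 2 * n := mul_le_mul_of_nonneg_right hp1 (by positivity)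
    have h4 : (⌊p * n⌋₊ : ℝ) ≤ C.card := by linarith
    exact_mod_cast h4
  obtain ⟨S, hS1S, hSC, hScard⟩ := Finset.exists_subsuperset_card_eq hS1C hs1 hs2
  refine ⟨S, hScard, ?_, ?_⟩
  · intro x hx
    exact (Finset.mem_filter.mp (hSC hx)).2
  · -- the Ore-degree
    have key : ∀ x y : {x : V // x ∉ S}, (rest G S).Adj x y → n ≤ b * dg G x.1 →
        dg (rest G S) x + dg (rest G S) y ≤ a - ⌈(p - η) * (k : ℕ)⌉₊ := by
      intro x y hxy hx
      have h1 := ha x.1 y.1 (rest_adj.mp hxy)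
      have h2 := dg_rest_le (G := G) y
      have h3 : dg (rest G S) x + (S ∩ nb G x.1).card = dg G x.1 := by
        rw [dg_rest, Finset.inter_comm]
        exact Finset.card_sdiff_add_card_inter _ _
      have h4 : ⌈(p - η) * (k : ℕ)⌉₊ ≤ (S ∩ nb G x.1).card := by
        apply Nat.ceil_le.mpr
        refine (hS1 ⟨x.1, hx⟩).trans ?_
        have : (S1 ∩ N ⟨x.1, hx⟩).card ≤ (S ∩ nb G x.1).card :=
          Finset.card_le_card (Finset.inter_subset_inter hS1S (hN1 ⟨x.1, hx⟩))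
        exact_mod_cast this
      omega
    intro x y hxy
    rcases hi x.1 y.1 (rest_adj.mp hxy) with h | h
    · exact key x y hxy h.1
    · have := key y x hxy.symm h.2
      omega

lemma dg_rest_comap (σ : Equiv.Perm V) (hST : ∀ z, σ z ∈ T ↔ z ∈ S) (x : {x : V // x ∉ S})
    (hx : σ x.1 ∉ T) : dg (rest (L.comap σ) S) x = dg (rest L T) ⟨σ x.1, hx⟩ := by
  rw [dg_rest, dg_rest]
  refine Finset.card_bij (fun y _ => σ y) ?_ ?_ ?_
  · intro y hy
    simp only [Finset.mem_sdiff, mem_nb, SimpleGraph.comap_adj] at hy ⊢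
    exact ⟨hy.1, fun h => hy.2 ((hST y).mp h)⟩
  · intro y _ z _ h; exact σ.injective h
  · intro z hz
    simp only [Finset.mem_sdiff, mem_nb] at hz
    refine ⟨σ.symm z, ?_, by simp⟩
    simp only [Finset.mem_sdiff, mem_nb, SimpleGraph.comap_adj, Equiv.apply_symm_apply]
    refine ⟨hz.1, fun h => hz.2 ?_⟩
    have := (hST (σ.symm z)).mpr h
    simpa using this

/-- one round of the reduction -/
theorem macro_step {a b n : ℕ} (hn : 0 < n) {p η : ℝ} (hη : 0 < η) (hp : η ≤ p)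
    (hp1 : p ≤ 1 / 2) (hab : (a : ℝ) * b ≤ 2 * (1 - p) * n) (hnab : n ≤ a * b)
    (hk1 : ((⌈(n : ℝ) / b⌉₊ : ℕ) : ℝ) * Real.exp (-(η ^ 2 / 8) * ((⌈(n : ℝ) / b⌉₊ : ℕ) : ℝ))
      ≤ η / 2)
    (hk2 : ((⌈(n : ℝ) / a⌉₊ : ℕ) : ℝ) * Real.exp (-(η ^ 2 / 8) * ((⌈(n : ℝ) / a⌉₊ : ℕ) : ℝ))
      ≤ η / 2)
    (hPP : PP (a - ⌈(p - η) * (⌈(n : ℝ) / b⌉₊ : ℕ)⌉₊) (b - ⌈(p - η) * (⌈(n : ℝ) / a⌉₊ : ℕ)⌉₊)
      (n - ⌊p * n⌋₊)) : PP a b n := by
  intro V _ G H hV haG hbH
  by_contra hcon
  push Not at hcon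
  have hno : NoPack G H := by
    rintro K ⟨σ, rfl⟩
    obtain ⟨x, y, h1, h2⟩ := hcon σ
    exact ⟨x, y, h1, h2⟩
  obtain ⟨K, L, hcr, hK, hL⟩ := exists_crit hno haG hbH
  have hnR : (0 : ℝ) < n := by exact_mod_cast hn
  have hp0 : 0 < p := by linarith
  have hab0 : 0 < a * b := by omega
  have ha0 : 0 < a := Nat.pos_of_mul_pos_right hab0 |> fun h => by
    rcases Nat.eq_zero_or_pos a with h' | h'
    · rw [h'] at hab0; simp at hab0
    · exact h'
  have hb0 : 0 < b := by
    rcases Nat.eq_zero_or_pos b with h' | h'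
    · rw [h'] at hab0; simp at hab0
    · exact h'
  have hablt : a * b < 2 * Fintype.card V := by
    rw [hV]
    have h1 : (a : ℝ) * b < 2 * n := by nlinarith
    exact_mod_cast h1
  obtain ⟨S, hS1, hS2, hS3⟩ := side (G := K) (a := a) (b := b) hV hn
    (fun x y hxy => by rw [← hV]; exact hcr.hi1 hK hL hablt hxy) hK hη hp hp1 hk1 hb0
  obtain ⟨T, hT1, hT2, hT3⟩ := side (G := L) (a := b) (b := a) hV hn
    (fun x y hxy => by rw [← hV]; exact hcr.hi2 hK hL hablt (IsCopy.refl L) hxy)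
    hL hη hp hp1 hk2 ha0
  -- align the two removed sets
  have hcardST : Fintype.card {x : V // x ∈ S} = Fintype.card {x : V // x ∈ T} := by
    rw [Fintype.card_coe, Fintype.card_coe, hS1, hT1]
  let e : {x : V // x ∈ S} ≃ {x : V // x ∈ T} := Fintype.equivOfCardEq hcardST
  let σ : Equiv.Perm V := e.extendSubtype
  have hST : ∀ z, σ z ∈ T ↔ z ∈ S := by
    intro z
    constructor
    · intro h
      by_contra hz
      exact e.extendSubtype_not_mem z hz h
    · intro h
      exact e.extendSubtype_mem z h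
  have hOre2 : OreLe (rest (L.comap σ) S) (b - ⌈(p - η) * (⌈(n : ℝ) / a⌉₊ : ℕ)⌉₊) := by
    intro x y hxy
    have hx : σ x.1 ∉ T := fun h => x.2 ((hST _).mp h)
    have hy : σ y.1 ∉ T := fun h => y.2 ((hST _).mp h)
    rw [dg_rest_comap σ hST x hx, dg_rest_comap σ hST y hy]
    apply hT3
    rw [rest_adj] at hxy ⊢
    simpa using hxy
  -- pack what remains
  have hcardW : Fintype.card {x : V // x ∉ S} = n - ⌊p * n⌋₊ := by
    rw [card_rest, hV, hS1]
  obtain ⟨τ, hτ⟩ := hPP {x : V // x ∉ S} (rest K S) (rest (L.comap σ) S) hcardW hS3 hOre2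
  have hpk := packOn_of_rest τ hτ
  -- put the removed vertices back
  have hfloor : (⌊p * n⌋₊ : ℝ) ≤ p * n := Nat.floor_le (by positivity)
  have hsn : ⌊p * n⌋₊ ≤ n := by
    have : (⌊p * n⌋₊ : ℝ) ≤ n := hfloor.trans (by nlinarith)
    exact_mod_cast this
  have hsub : ((n - ⌊p * n⌋₊ : ℕ) : ℝ) = n - (⌊p * n⌋₊ : ℝ) := Nat.cast_sub hsn
  have hm : a * b < 2 * (n - ⌊p * n⌋₊ + 1) := by
    have h1 : (a : ℝ) * b < 2 * ((n - ⌊p * n⌋₊ : ℕ) + 1) := by
      rw [hsub]; nlinarith
    exact_mod_cast h1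
  have hlowgen : ∀ d e : ℕ, d + n ≤ e → e = a * b → d < n - ⌊p * n⌋₊ + 1 := by
    intro d e hde he
    subst he
    have h1 : (d : ℝ) + n ≤ a * b := by exact_mod_cast hde
    have h2 : (d : ℝ) < (n - ⌊p * n⌋₊ : ℕ) + 1 := by
      rw [hsub]; nlinarith
    exact_mod_cast h2
  have hLσ : OreLe (L.comap σ) b := hL.copy ⟨σ, rfl⟩
  obtain ⟨ρ, -, hρ⟩ := packOn_all hK hLσ hm S
    (by rw [hS1, hV]; omega)
    (by
      intro z hz
      constructor
      · have h1 := low1' hcr hK hL hablt (by rw [hV]; exact hnab) (by rw [hV]; exact hS2 z hz)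
        rw [hV] at h1
        exact hlowgen _ _ h1 rfl
      · rw [dg_comap]
        have h0 := hT2 (σ z) ((hST z).mpr hz)
        have h1 := low2' hcr hK hL hablt (by rw [hV]; exact hnab) (IsCopy.refl L)
          (x := σ z) (by rw [hV]; exact h0)
        rw [hV] at h1
        exact hlowgen _ _ h1 rfl) hpk
  obtain ⟨x, y, h1, h2⟩ := hcr.no ((L.comap σ).comap ρ)
    (by
      refine ⟨ρ.trans σ, ?_⟩
      ext x y; simp)
  exact hρ x y (by simp) (by simp) h1 (by simpa using h2)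

end

end Pool.Agent.MP_7c6760_co
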