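import Pool.Agent.Lib.MP_7c6760_co.Count

/-! The main argument. -/

namespace Pool.Agent.MP_7c6760_co

open Finset

noncomputable section

open Classical

set_option linter.unusedSectionVars false

variable {V : Type*} [Fintype V]

variable {G G' G2 H : SimpleGraph V} {u v w x y : V} {a b : ℕ}

/-- small degree in the first graph is at most half the Ore bound -/
lemma low1 (hcr : Crit G G2) (ha : OreLe G a) (hb : OreLe G2 b)
    (hn : a * b < 2 * Fintype.card V) (hx : b * dg G x < Fintype.card V) :
    2 * dg G x ≤ a - 1 := by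
  by_cases h0 : dg G x = 0
  · omega
  · obtain ⟨y, hy⟩ := Finset.card_pos.mp (Nat.pos_of_ne_zero h0)
    rw [mem_nb] at hy
    have h1 := ha x y hy
    rcases hcr.hi1 ha hb hn hy with h | h
    · omega
    · have : dg G x < dg G y := by
        by_contra hcon
        push Not at hcon
        have := Nat.mul_le_mul_left b hcon
        omega
      omega

lemma low2 (hcr : Crit G G2) (ha : OreLe G a) (hb : OreLe G2 b)
    (hn : a * b < 2 * Fintype.card V) (hc : IsCopy G2 H) (hx : a * dg H x < Fintype.card V) :
    2 * dg H x ≤ b - 1 := by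
  by_cases h0 : dg H x = 0
  · omega
  · obtain ⟨y, hy⟩ := Finset.card_pos.mp (Nat.pos_of_ne_zero h0)
    rw [mem_nb] at hy
    have h1 := hb.copy hc x y hy
    rcases hcr.hi2 ha hb hn hc hy with h | h
    · omega
    · have : dg H x < dg H y := by
        by_contra hcon
        push Not at hcon
        have := Nat.mul_le_mul_left a hcon
        omega
      omega

lemma low2' (hcr : Crit G G2) (ha : OreLe G a) (hb : OreLe G2 b)
    (hn : a * b < 2 * Fintype.card V) (hab : Fintype.card V ≤ a * b)
    (hc : IsCopy G2 H) (hx : a * dg H x < Fintype.card V) :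
    a * dg H x + Fintype.card V ≤ a * b := by
  by_cases h0 : dg H x = 0
  · rw [h0]; omega
  · obtain ⟨y, hy⟩ := Finset.card_pos.mp (Nat.pos_of_ne_zero h0)
    rw [mem_nb] at hy
    have h1 := hb.copy hc x y hy
    rcases hcr.hi2 ha hb hn hc hy with h | h
    · omega
    · have := Nat.mul_le_mul_left a h1
      rw [mul_add] at this
      omega

/-- bound at an end which has large degree in `G` -/
lemma endbound (hcr : Crit G G2) (ha : OreLe G a) (hb : OreLe G2 b)
    (hn : a * b < 2 * Fintype.card V) (hc : IsCopy G2 H) (h : One G H w y)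
    (hy : Fintype.card V ≤ b * dg G y) :
    2 * Fintype.card V ≤ ∑ x ∈ nb G y, (if Fintype.card V ≤ a * dg H x then 2 else 1) * dg H x
      + dg H y * (a - 1) := by
  have hd := dich hcr.no ha hb hn hc h
  have hd' : b * dg G w < Fintype.card V ∧ Fintype.card V ≤ a * dg H w ∧
      a * dg H y < Fintype.card V := by omega
  have h1 := master_full hcr.no hc h.symm (fun x => Fintype.card V ≤ a * dg H x)
    (fun x => b * dg G x < Fintype.card V) hd'.2.1 hd'.1 ?_ ?_
  · refine h1.trans ?_
    have h2 := sum_ite_le (s := nb H y) (t := fun x => b * dg G x < Fintype.card V)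
      (f := fun x => dg G x) (M := a - 1)
      (fun x _ ht => low1 hcr ha hb hn ht) (fun x _ _ => ha.dg_le x)
    refine Nat.add_le_add (le_of_eq ?_) h2
    refine Finset.sum_congr rfl (fun x _ => ?_)
    congr
  · intro z hzy hzw x hx1 hx2 hone
    have h3 := dich hcr.no ha hb hn (hc.sw y z) hone
    have h4 : dg (sw H y z) x = dg H x := dg_sw_of_ne hx1.ne' hx2.ne'
    rw [h4] at h3
    show Fintype.card V ≤ a * dg H x
    omega
  · intro z hzy hzw x hx1 hx2 hone
    have h3 := dich hcr.no ha hb hn (hc.sw y z) hone
    have h4 : dg (sw H y z) z = dg H y := dg_sw_right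
    rw [h4] at h3
    show b * dg G x < Fintype.card V
    omega

/-- the main argument: the combinatorial part -/
theorem main_count (hcr : Crit G G2) (ha : OreLe G a) (hb : OreLe G2 b)
    (hn : a * b < 2 * Fintype.card V) :
    ∃ (H : SimpleGraph V) (α π ρ D M : ℕ) (c : V → ℕ),
      IsCopy G2 H ∧ 1 ≤ α ∧ α + D ≤ a ∧ 1 ≤ ρ ∧ π + ρ ≤ b ∧ 1 ≤ M ∧ M ≤ π ∧
      Fintype.card V ≤ b * D ∧ Fintype.card V ≤ a * π ∧
      ∑ x, c x ≤ M * D ∧
      2 * Fintype.card V ≤ 2 * (univ.filter (fun x => 1 ≤ c x)).card + (α - 1) * (b - 1)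
        + 2 * ρ + (π - M) * D ∧
      2 * M * Fintype.card V ≤
        ∑ x, (if Fintype.card V ≤ a * dg H x then 2 else 1) * dg H x * c x
          + 2 * (M - 1) * π + M * ((b - π) * (a - 1)) := by
  -- the vertex of maximum degree
  obtain ⟨p, q, hpq, -⟩ := hcr.no G2 (IsCopy.refl G2)
  obtain ⟨v, -, hvmax⟩ := Finset.exists_max_image univ (dg G) ⟨p, Finset.mem_univ _⟩
  have hv1 : 1 ≤ dg G v := (dg_pos_of_adj hpq).trans (hvmax p (Finset.mem_univ _))
  obtain ⟨u, hu⟩ := Finset.card_pos.mp hv1
  rw [mem_nb] at hu
  obtain ⟨H, hc, h⟩ := hcr.left u v hu.symm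
  have hd := dich hcr.no ha hb hn hc h
  have huv : dg G u ≤ dg G v := hvmax u (Finset.mem_univ _)
  have hmul := Nat.mul_le_mul_left b huv
  have hlu : b * dg G u < Fintype.card V := by omega
  have hhv : Fintype.card V ≤ b * dg G v := by omega
  have hhu2 : Fintype.card V ≤ a * dg H u := by omega
  have hlv2 : a * dg H v < Fintype.card V := by omega
  have hbH : OreLe H b := hb.copy hc
  -- the set of single ends
  let B1 : Finset V := (nb H u).filter (fun y => y ≠ v ∧
    ∃ w, w ≠ u ∧ w ≠ v ∧ G.Adj w y ∧ One G (sw H u w) w y)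
  let Bv : Finset V := insert v B1
  have hvB1 : v ∉ B1 := by
    intro hmem
    simp only [B1, Finset.mem_filter] at hmem
    exact hmem.2.1 rfl
  have hBvsub : Bv ⊆ nb H u := by
    intro z hz
    rcases Finset.mem_insert.mp hz with rfl | hz
    · simpa using h.2.1
    · exact (Finset.mem_filter.mp hz).1
  have hhiB : ∀ y ∈ Bv, Fintype.card V ≤ b * dg G y := by
    intro y hy
    rcases Finset.mem_insert.mp hy with rfl | hy
    · exact hhv
    · obtain ⟨-, -, w, hwu, hwv, -, hone⟩ := Finset.mem_filter.mp hy
      have h1 := dich hcr.no ha hb hn (hc.sw u w) hone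
      have h2 : dg (sw H u w) w = dg H u := dg_sw_right
      rw [h2] at h1
      omega
  let c : V → ℕ := fun x => (nb G x ∩ Bv).card
  have hcu : 1 ≤ c u := Finset.card_pos.mpr ⟨v, by
    simp only [Finset.mem_inter, mem_nb]
    exact ⟨h.1, Finset.mem_insert_self _ _⟩⟩
  have hcv : c v = 0 := by
    simp only [c, Finset.card_eq_zero]
    rw [Finset.eq_empty_iff_forall_notMem]
    intro z hz
    simp only [Finset.mem_inter, mem_nb] at hz
    have h1 := hhiB z hz.2
    rcases hcr.hi1 ha hb hn hz.1 with h2 | h2 <;> omega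
  let W : Finset V := ((univ.filter (fun x => ¬ 1 ≤ c x))).erase v
  have hWu : u ∉ W := by
    intro hmem
    have := (Finset.mem_filter.mp (Finset.mem_of_mem_erase hmem)).2
    exact this hcu
  have hWv : v ∉ W := Finset.notMem_erase _ _
  have hWcard : W.card + 1 + (univ.filter (fun x => 1 ≤ c x)).card = Fintype.card V := by
    have h1 : W.card + 1 = (univ.filter (fun x => ¬ 1 ≤ c x)).card := by
      apply Finset.card_erase_add_one
      simp [hcv]
    rw [h1, add_comm, ← Finset.card_univ]
    exact Finset.card_filter_add_card_filter_not (fun x => 1 ≤ c x)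
  have hm := master hcr.no hc h W hWu hWv (fun x => a * dg H x < Fintype.card V)
    (fun x => x ∈ Bv) (by
      intro w hw x hx1 hx2 hone
      have h3 := dich hcr.no ha hb hn (hc.sw u w) hone
      have h4 : dg (sw H u w) x = dg H x := dg_sw_of_ne hx1.ne' hx2.ne'
      rw [h4] at h3
      show a * dg H x < Fintype.card V
      omega) (by
      intro w hw x hx1 hx2 hone
      show x ∈ Bv
      by_cases hxv : x = v
      · subst hxv; exact Finset.mem_insert_self _ _
      · apply Finset.mem_insert_of_mem
        simp only [B1, Finset.mem_filter, mem_nb]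
        exact ⟨hx1, hxv, w, fun e => hWu (e ▸ hw), fun e => hWv (e ▸ hw), hx2, hone⟩)
  have hvG : v ∈ nb G u := by simpa using h.1
  have hvH : v ∈ nb H u := by simpa using h.2.1
  have huH : u ∈ nb H v := by simpa using h.2.1.symm
  have hρ1 : 1 ≤ dg H v := dg_pos_of_adj h.2.1.symm
  -- first part
  have hm1 : ∑ x ∈ nb G u, (if a * dg H x < Fintype.card V then 2 else 1) * (nb H x ∩ W).card
      ≤ 2 * (dg H v - 1) + (dg G u - 1) * (b - 1) := by
    rw [← Finset.add_sum_erase _ _ hvG]
    refine Nat.add_le_add ?_ ?_
    · have h5 : (nb H v ∩ W).card ≤ dg H v - 1 := by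
        have h6 : nb H v ∩ W ⊆ (nb H v).erase u := by
          intro z hz
          simp only [Finset.mem_inter] at hz
          exact Finset.mem_erase.mpr ⟨fun e => hWu (e ▸ hz.2), hz.1⟩
        have h7 := Finset.card_le_card h6
        rw [Finset.card_erase_of_mem huH] at h7
        exact h7
      have h10 : (if a * dg H v < Fintype.card V then 2 else 1) ≤ 2 := by split_ifs <;> omega
      exact Nat.mul_le_mul h10 h5
    · have h8 : ((nb G u).erase v).card = dg G u - 1 := Finset.card_erase_of_mem hvG
      rw [← h8]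
      have h11 := sum_ite_le (s := (nb G u).erase v) (t := fun x => a * dg H x < Fintype.card V)
        (f := fun x => (nb H x ∩ W).card) (M := b - 1) ?_ ?_
      · refine le_trans (le_of_eq ?_) h11
        refine Finset.sum_congr rfl (fun x _ => ?_)
        congr
      · intro x _ ht
        have h9 := low2 hcr ha hb hn hc ht
        have : (nb H x ∩ W).card ≤ dg H x := Finset.card_le_card Finset.inter_subset_left
        show 2 * (nb H x ∩ W).card ≤ b - 1
        omega
      · intro x _ _
        have h9 := hbH.dg_le x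
        have : (nb H x ∩ W).card ≤ dg H x := Finset.card_le_card Finset.inter_subset_left
        show (nb H x ∩ W).card ≤ b - 1
        omega
  -- second part
  have hm2 : ∑ x ∈ nb H u, (if x ∈ Bv then 2 else 1) * (nb G x ∩ W).card
      ≤ (dg H u - Bv.card) * dg G v := by
    rw [← Finset.sum_sdiff hBvsub]
    have h5 : ∑ x ∈ Bv, (if x ∈ Bv then 2 else 1) * (nb G x ∩ W).card = 0 := by
      apply Finset.sum_eq_zero
      intro x hx
      have : nb G x ∩ W = ∅ := by
        rw [Finset.eq_empty_iff_forall_notMem]
        intro z hz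
        simp only [Finset.mem_inter] at hz
        have h6 := (Finset.mem_filter.mp (Finset.mem_of_mem_erase hz.2)).2
        apply h6
        exact Finset.card_pos.mpr ⟨x, Finset.mem_inter.mpr ⟨nb_symm.mp hz.1, hx⟩⟩
      rw [this]; simp
    rw [h5, add_zero]
    have h6 : (nb H u \ Bv).card = dg H u - Bv.card := by
      rw [Finset.card_sdiff_of_subset hBvsub]; rfl
    rw [← h6, ← smul_eq_mul, ← Finset.sum_const]
    refine Finset.sum_le_sum (fun x hx => ?_)
    have hx' := (Finset.mem_sdiff.mp hx).2
    simp only [hx', if_false, one_mul]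
    exact (Finset.card_le_card Finset.inter_subset_left).trans (hvmax x (Finset.mem_univ _))
  have hm' : 2 * W.card ≤ 2 * (dg H v - 1) + (dg G u - 1) * (b - 1)
      + (dg H u - Bv.card) * dg G v := by
    refine hm.trans (Nat.add_le_add ?_ ?_)
    · refine le_trans (le_of_eq ?_) hm1
      refine Finset.sum_congr rfl (fun x _ => ?_)
      congr
    · refine le_trans (le_of_eq ?_) hm2
      refine Finset.sum_congr rfl (fun x _ => ?_)
      congr
  -- the bounds at the members of `Bv`
  have hend : ∀ y ∈ Bv, 2 * Fintype.card V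
      ≤ ∑ x ∈ nb G y, (if Fintype.card V ≤ a * dg H x then 2 else 1) * dg H x
        + (if y = v then 0 else 2 * dg H u) + (b - dg H u) * (a - 1) := by
    intro y hy
    rcases Finset.mem_insert.mp hy with rfl | hy
    · have h5 := endbound hcr ha hb hn hc h hhv
      have h6 : dg H y * (a - 1) ≤ (b - dg H u) * (a - 1) := by
        apply Nat.mul_le_mul_right
        have := hbH u y h.2.1
        omega
      simp only [if_true]
      omega
    · obtain ⟨hyH, hyv, w, hwu, hwv, hwy, hone⟩ := Finset.mem_filter.mp hy
      rw [mem_nb] at hyH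
      have h5 := endbound hcr ha hb hn (hc.sw u w) hone (hhiB y (Finset.mem_insert_of_mem hy))
      have hdw : dg (sw H u w) w = dg H u := dg_sw_right
      have h6 : dg (sw H u w) y * (a - 1) ≤ (b - dg H u) * (a - 1) := by
        apply Nat.mul_le_mul_right
        have := (hb.copy (hc.sw u w)) w y hone.2.1
        rw [hdw] at this
        omega
      simp only [hyv, if_false]
      have huy : ¬ G.Adj u y := by
        intro hadj
        rcases h.2.2 u y hadj hyH with h7 | h7
        · exact hyv h7.2
        · exact h.1.ne h7.1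
      have hwmem : w ∈ nb G y := by simpa using hwy.symm
      have h7 : ∑ x ∈ nb G y,
          (if Fintype.card V ≤ a * dg (sw H u w) x then 2 else 1) * dg (sw H u w) x
          ≤ ∑ x ∈ nb G y, (if Fintype.card V ≤ a * dg H x then 2 else 1) * dg H x
            + 2 * dg H u := by
        rw [← Finset.add_sum_erase _ _ hwmem, ← Finset.add_sum_erase (nb G y)
          (fun x => (if Fintype.card V ≤ a * dg H x then 2 else 1) * dg H x) hwmem]
        have h8 : ∑ x ∈ (nb G y).erase w,
            (if Fintype.card V ≤ a * dg (sw H u w) x then 2 else 1) * dg (sw H u w) x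
            = ∑ x ∈ (nb G y).erase w,
            (if Fintype.card V ≤ a * dg H x then 2 else 1) * dg H x := by
          refine Finset.sum_congr rfl (fun x hx => ?_)
          have hxw : x ≠ w := Finset.ne_of_mem_erase hx
          have hxu : x ≠ u := by
            rintro rfl
            have := Finset.mem_of_mem_erase hx
            rw [mem_nb] at this
            exact huy this.symm
          rw [dg_sw_of_ne hxu hxw]
        rw [h8, hdw]
        have h9 : (if Fintype.card V ≤ a * dg H u then 2 else 1) * dg H u ≤ 2 * dg H u := by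
          apply Nat.mul_le_mul_right
          split_ifs <;> omega
        omega
      omega
  have hMpos : 1 ≤ Bv.card := Finset.card_pos.mpr ⟨v, Finset.mem_insert_self _ _⟩
  refine ⟨H, dg G u, dg H u, dg H v, dg G v, Bv.card, c, hc, dg_pos_of_adj h.1, ha u v h.1, hρ1,
    hbH u v h.2.1, hMpos, Finset.card_le_card hBvsub, hhv, hhu2, ?_, ?_, ?_⟩
  · have h1 := double_count G Bv (fun _ => 1)
    simp only [Finset.sum_const, smul_eq_mul, mul_one, one_mul] at h1
    show ∑ x, (nb G x ∩ Bv).card ≤ Bv.card * dg G v
    rw [← h1, ← smul_eq_mul, ← Finset.sum_const]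
    exact Finset.sum_le_sum (fun y _ => hvmax y (Finset.mem_univ _))
  · omega
  · have h1 : ∑ y ∈ Bv, (2 * Fintype.card V) ≤ ∑ y ∈ Bv,
        (∑ x ∈ nb G y, (if Fintype.card V ≤ a * dg H x then 2 else 1) * dg H x
        + (if y = v then 0 else 2 * dg H u) + (b - dg H u) * (a - 1)) :=
      Finset.sum_le_sum hend
    rw [Finset.sum_add_distrib, Finset.sum_add_distrib, double_count, Finset.sum_const,
      Finset.sum_const, smul_eq_mul, smul_eq_mul] at h1
    have h2 : ∑ y ∈ Bv, (if y = v then 0 else 2 * dg H u) = 2 * (Bv.card - 1) * dg H u := by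
      rw [← Finset.add_sum_erase _ _ (Finset.mem_insert_self v B1)]
      simp only [if_true, zero_add]
      have h3 : ∑ y ∈ (insert v B1).erase v, (if y = v then 0 else 2 * dg H u)
          = ∑ y ∈ (insert v B1).erase v, 2 * dg H u := by
        refine Finset.sum_congr rfl (fun y hy => ?_)
        simp only [Finset.ne_of_mem_erase hy, if_false]
      rw [h3, Finset.sum_const, smul_eq_mul, Finset.card_erase_of_mem (Finset.mem_insert_self v B1)]
      show (Bv.card - 1) * (2 * dg H u) = _
      ring
    rw [h2] at h1
    calc 2 * Bv.card * Fintype.card V = Bv.card * (2 * Fintype.card V) := by ring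
      _ ≤ _ := h1

end

end Pool.Agent.MP_7c6760_co
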