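import Pool.Agent.Lib.MP_7c6760_co.Cross

/-! Placements all of whose conflicts are at one vertex. -/

namespace Pool.Agent.MP_7c6760_co

open Finset

noncomputable section

open Classical

set_option linter.unusedSectionVars false

variable {V : Type*} [Fintype V]

variable {G G2 H : SimpleGraph V} {q u v w x y : V} {a b : ℕ}

/-- every common edge of `G` and `H` is at `q` -/
def AtQ (G H : SimpleGraph V) (q : V) : Prop := ∀ x y, G.Adj x y → H.Adj x y → x = q ∨ y = q

lemma conf_near (h : AtQ G H q) (hwq : w ≠ q) (hw : ¬ (G.Adj q w ∧ H.Adj q w))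
    (hG : G.Adj x y) (hH : (sw H q w).Adj x y) :
    (x = q ∧ H.Adj w y) ∨ (y = q ∧ H.Adj w x) ∨ (x = w ∧ H.Adj q y) ∨ (y = w ∧ H.Adj q x) := by
  rw [sw_adj] at hH
  have hxy : x ≠ y := hG.ne
  by_cases hxu : x = q
  · subst hxu
    by_cases hyw : y = w
    · subst hyw
      simp at hH
      exact absurd ⟨hG, hH.symm⟩ hw
    · left
      rw [Equiv.swap_apply_left, Equiv.swap_apply_of_ne_of_ne hxy.symm hyw] at hH
      exact ⟨rfl, hH⟩
  · by_cases hxw : x = w
    · subst hxw
      by_cases hyu : y = q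
      · subst hyu
        simp at hH
        exact absurd ⟨hG.symm, hH⟩ hw
      · right; right; left
        rw [Equiv.swap_apply_right, Equiv.swap_apply_of_ne_of_ne hyu hxy.symm] at hH
        exact ⟨rfl, hH⟩
    · rw [Equiv.swap_apply_of_ne_of_ne hxu hxw] at hH
      by_cases hyu : y = q
      · subst hyu
        rw [Equiv.swap_apply_left] at hH
        right; left
        exact ⟨rfl, hH.symm⟩
      · by_cases hyw : y = w
        · subst hyw
          rw [Equiv.swap_apply_right] at hH
          right; right; right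
          exact ⟨rfl, hH.symm⟩
        · rw [Equiv.swap_apply_of_ne_of_ne hyu hyw] at hH
          rcases h x y hG hH with h' | h'
          · exact absurd h' hxu
          · exact absurd h' hyu

lemma atQ_of_noB (h : AtQ G H q) (hwq : w ≠ q) (hw : ¬ (G.Adj q w ∧ H.Adj q w))
    (hB : ∀ z, H.Adj q z → ¬ G.Adj w z) : AtQ G (sw H q w) q := by
  intro x y hG hH
  rcases conf_near h hwq hw hG hH with h' | h' | h' | h'
  · exact Or.inl h'.1
  · exact Or.inr h'.1
  · exact absurd (h'.1 ▸ hG) (hB y h'.2)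
  · exact absurd (h'.1 ▸ hG.symm) (hB x h'.2)

lemma atQ_of_noA (h : AtQ G H q) (hwq : w ≠ q) (hw : ¬ (G.Adj q w ∧ H.Adj q w))
    (hA : ∀ z, G.Adj q z → ¬ H.Adj w z) : AtQ G (sw H q w) w := by
  intro x y hG hH
  rcases conf_near h hwq hw hG hH with h' | h' | h' | h'
  · exact absurd h'.2 (hA y (h'.1 ▸ hG))
  · exact absurd h'.2 (hA x (h'.1 ▸ hG.symm))
  · exact Or.inl h'.1
  · exact Or.inr h'.1

lemma weight_near (hno : NoPack G G2) (hc : IsCopy G2 H) (h : AtQ G H q)
    (hwq : w ≠ q) (hw : ¬ (G.Adj q w ∧ H.Adj q w)) (tA tB : V → Prop)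
    (hA : ∀ x, G.Adj q x → H.Adj w x → AtQ G (sw H q w) q → tA x)
    (hB : ∀ x, H.Adj q x → G.Adj w x → AtQ G (sw H q w) w → tB x) :
    2 ≤ ∑ x ∈ nb G q ∩ nb H w, (if tA x then 2 else 1)
      + ∑ x ∈ nb H q ∩ nb G w, (if tB x then 2 else 1) := by
  have one_le : ∀ (s : Finset V) (t : V → Prop), s.Nonempty →
      1 ≤ ∑ x ∈ s, (if t x then 2 else 1) := by
    intro s t hs
    have h1 : s.card ≤ ∑ x ∈ s, (if t x then 2 else 1) := by
      rw [Finset.card_eq_sum_ones]
      exact Finset.sum_le_sum (fun x _ => by split_ifs <;> omega)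
    exact le_trans (Finset.card_pos.mpr hs) h1
  have two_le : ∀ (s : Finset V) (t : V → Prop), s.Nonempty → (∀ x ∈ s, t x) →
      2 ≤ ∑ x ∈ s, (if t x then 2 else 1) := by
    intro s t hs ht
    have h1 : ∑ x ∈ s, (if t x then 2 else 1) = ∑ x ∈ s, 2 :=
      Finset.sum_congr rfl (fun x hx => by simp only [ht x hx, if_true])
    rw [h1, Finset.sum_const, smul_eq_mul]
    have := Finset.card_pos.mpr hs
    omega
  by_cases hAe : (nb G q ∩ nb H w).Nonempty
  · by_cases hBe : (nb H q ∩ nb G w).Nonempty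
    · have h1 := one_le _ tA hAe
      have h2 := one_le _ tB hBe
      omega
    · have hB0 : ∀ z, H.Adj q z → ¬ G.Adj w z := by
        intro z h1 h2
        exact hBe ⟨z, by simp [h1, h2]⟩
      have hat := atQ_of_noB h hwq hw hB0
      have h1 := two_le _ tA hAe (fun x hx => by
        simp only [Finset.mem_inter, mem_nb] at hx
        exact hA x hx.1 hx.2 hat)
      omega
  · have hA0 : ∀ z, G.Adj q z → ¬ H.Adj w z := by
      intro z h1 h2
      exact hAe ⟨z, by simp [h1, h2]⟩
    have hat := atQ_of_noA h hwq hw hA0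
    by_cases hBe : (nb H q ∩ nb G w).Nonempty
    · have h1 := two_le _ tB hBe (fun x hx => by
        simp only [Finset.mem_inter, mem_nb] at hx
        exact hB x hx.1 hx.2 hat)
      omega
    · exfalso
      obtain ⟨x, y, hG, hH⟩ := hno _ (hc.sw q w)
      rcases conf_near h hwq hw hG hH with h' | h' | h' | h'
      · exact hA0 y (h'.1 ▸ hG) h'.2
      · exact hA0 x (h'.1 ▸ hG.symm) h'.2
      · exact hBe ⟨y, by
          simp only [Finset.mem_inter, mem_nb]; exact ⟨h'.2, h'.1 ▸ hG⟩⟩
      · exact hBe ⟨x, by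
          simp only [Finset.mem_inter, mem_nb]; exact ⟨h'.2, h'.1 ▸ hG.symm⟩⟩

/-- weighted count of the exchanges of `q` with all vertices -/
lemma master_near (hno : NoPack G G2) (hc : IsCopy G2 H) (h : AtQ G H q) (tA tB : V → Prop)
    (hAX : ∀ x, G.Adj q x → H.Adj q x → tA x) (hBX : ∀ x, G.Adj q x → H.Adj q x → tB x)
    (hA : ∀ w, w ≠ q → ∀ x, G.Adj q x → H.Adj w x → AtQ G (sw H q w) q → tA x)
    (hB : ∀ w, w ≠ q → ∀ x, H.Adj q x → G.Adj w x → AtQ G (sw H q w) w → tB x) :
    2 * Fintype.card V ≤ ∑ x ∈ nb G q, (if tA x then 2 else 1) * dg H x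
      + ∑ x ∈ nb H q, (if tB x then 2 else 1) * dg G x := by
  set X := nb G q ∩ nb H q with hX
  have hXpos : 1 ≤ X.card := by
    obtain ⟨x, y, hG, hH⟩ := hno H hc
    rcases h x y hG hH with h' | h'
    · exact Finset.card_pos.mpr ⟨y, by rw [hX]; simp [← h', hG, hH]⟩
    · exact Finset.card_pos.mpr ⟨x, by rw [hX]; simp [← h', hG.symm, hH.symm]⟩
  have hqX : q ∉ X := by rw [hX]; simp
  set W : Finset V := univ \ insert q X with hW
  have hWcard : W.card + (X.card + 1) = Fintype.card V := by
    rw [← Finset.card_insert_of_notMem hqX, hW, ← Finset.card_univ]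
    exact Finset.card_sdiff_add_card_eq_card (Finset.subset_univ _)
  have hWq : ∀ w ∈ W, w ≠ q := by
    intro w hw e
    rw [hW] at hw
    exact (Finset.mem_sdiff.mp hw).2 (by rw [e]; exact Finset.mem_insert_self _ _)
  have hWX : ∀ w ∈ W, ¬ (G.Adj q w ∧ H.Adj q w) := by
    intro w hw e
    rw [hW] at hw
    exact (Finset.mem_sdiff.mp hw).2 (Finset.mem_insert_of_mem (by rw [hX]; simp [e.1, e.2]))
  have key : ∀ w ∈ W, 2 ≤ ∑ x ∈ nb G q ∩ nb H w, (if tA x then 2 else 1)
      + ∑ x ∈ nb H q ∩ nb G w, (if tB x then 2 else 1) := by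
    intro w hw
    exact weight_near hno hc h (hWq w hw) (hWX w hw) tA tB (hA w (hWq w hw)) (hB w (hWq w hw))
  have h1 : 2 * W.card ≤ ∑ w ∈ W, (∑ x ∈ nb G q ∩ nb H w, (if tA x then 2 else 1)
      + ∑ x ∈ nb H q ∩ nb G w, (if tB x then 2 else 1)) := by
    calc 2 * W.card = ∑ w ∈ W, 2 := by simp [mul_comm]
      _ ≤ _ := Finset.sum_le_sum key
  rw [Finset.sum_add_distrib] at h1
  have flip : ∀ (K L : SimpleGraph V) (t : V → Prop),
      ∑ w ∈ W, ∑ x ∈ nb K q ∩ nb L w, (if t x then 2 else 1)
        = ∑ x ∈ nb K q, (if t x then 2 else 1) * (nb L x ∩ W).card := by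
    intro K L t
    have e1 : ∀ w ∈ W, ∑ x ∈ nb K q ∩ nb L w, (if t x then 2 else 1)
        = ∑ x ∈ nb K q, if L.Adj x w then (if t x then 2 else 1) else 0 := by
      intro w _
      rw [← Finset.sum_filter]
      congr 1
      ext x; simp [SimpleGraph.adj_comm]
    rw [Finset.sum_congr rfl e1, Finset.sum_comm]
    refine Finset.sum_congr rfl (fun x _ => ?_)
    rw [← Finset.sum_filter, Finset.sum_const, smul_eq_mul, mul_comm]
    congr 2
    ext z; simp [and_comm]
  rw [flip G H tA, flip H G tB] at h1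
  have bound : ∀ (K L : SimpleGraph V) (t : V → Prop), (∀ x ∈ X, L.Adj x q) → X ⊆ nb K q →
      (∀ x ∈ X, t x) →
      ∑ x ∈ nb K q, (if t x then 2 else 1) * (nb L x ∩ W).card + 2 * X.card
        ≤ ∑ x ∈ nb K q, (if t x then 2 else 1) * dg L x := by
    intro K L t hL hXK ht
    rw [← Finset.sum_sdiff hXK, ← Finset.sum_sdiff hXK (f := fun x => (if t x then 2 else 1) * dg L x),
      add_assoc]
    refine Nat.add_le_add ?_ ?_
    · refine Finset.sum_le_sum (fun x _ => Nat.mul_le_mul_left _ ?_)
      exact Finset.card_le_card Finset.inter_subset_left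
    · have h2 : 2 * X.card = ∑ x ∈ X, 2 := by simp [mul_comm]
      rw [h2, ← Finset.sum_add_distrib]
      refine Finset.sum_le_sum (fun x hx => ?_)
      simp only [ht x hx, if_true]
      have h3 : (nb L x ∩ W).card + 1 ≤ dg L x := by
        have h4 : nb L x ∩ W ⊆ (nb L x).erase q := by
          intro z hz
          simp only [Finset.mem_inter] at hz
          exact Finset.mem_erase.mpr ⟨hWq z hz.2, hz.1⟩
        have h5 := Finset.card_le_card h4
        have h6 : q ∈ nb L x := by simpa using hL x hx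
        rw [Finset.card_erase_of_mem h6] at h5
        have h7 : 1 ≤ (nb L x).card := Finset.card_pos.mpr ⟨q, h6⟩
        unfold dg
        omega
      omega
  have b1 := bound G H tA
    (fun x hx => by rw [hX] at hx; simp only [Finset.mem_inter, mem_nb] at hx; exact hx.2.symm)
    (by rw [hX]; exact Finset.inter_subset_left)
    (fun x hx => by rw [hX] at hx; simp only [Finset.mem_inter, mem_nb] at hx; exact hAX x hx.1 hx.2)
  have b2 := bound H G tB
    (fun x hx => by rw [hX] at hx; simp only [Finset.mem_inter, mem_nb] at hx; exact hx.1.symm)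
    (by rw [hX]; exact Finset.inter_subset_right)
    (fun x hx => by rw [hX] at hx; simp only [Finset.mem_inter, mem_nb] at hx; exact hBX x hx.1 hx.2)
  omega

lemma arith_cross {α π n : ℕ} (hn : a * b < 2 * n) (hα : α ≤ a) (hπ : π ≤ b)
    (hα0 : 0 < α) (hπ0 : 0 < π)
    (hc1 : b * α < n) (hc2 : a * π < n)
    (h : 2 * n ≤ α * max (2 * (b - π)) (b - 1) + π * max (2 * (a - α)) (a - 1)) : False := by
  obtain ⟨q, hq⟩ := Nat.exists_eq_add_of_le hα
  obtain ⟨p, hp⟩ := Nat.exists_eq_add_of_le hπ
  have e1 : b - π = p := by omega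
  have e2 : a - α = q := by omega
  rw [e1, e2] at h
  by_cases h1 : α ≤ q
  · have m2 : max (2 * q) (a - 1) = 2 * q := max_eq_left (by omega)
    rw [m2] at h
    by_cases h2 : π ≤ p
    · have m1 : max (2 * p) (b - 1) = 2 * p := max_eq_left (by omega)
      rw [m1] at h
      rw [hq, hp] at hn
      obtain ⟨c, rfl⟩ := Nat.exists_eq_add_of_le h1
      obtain ⟨d, rfl⟩ := Nat.exists_eq_add_of_le h2
      nlinarith [Nat.zero_le (c * d)]
    · have m1 : max (2 * p) (b - 1) = b - 1 := max_eq_right (by omega)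
      rw [m1] at h
      obtain ⟨c, hc⟩ : ∃ c, b = c + 1 := ⟨b - 1, by omega⟩
      have h3 : b - 1 = c := by omega
      rw [h3] at h
      have h5 : α * c ≤ α * (2 * π) := Nat.mul_le_mul_left α (by omega)
      have h6 : α * c ≤ α * b := Nat.mul_le_mul_left α (by omega)
      rw [hq] at hc2
      nlinarith
  · by_cases h2 : π ≤ p
    · have m1 : max (2 * p) (b - 1) = 2 * p := max_eq_left (by omega)
      have m2 : max (2 * q) (a - 1) = a - 1 := max_eq_right (by omega)
      rw [m1, m2] at h
      obtain ⟨c, hc⟩ : ∃ c, a = c + 1 := ⟨a - 1, by omega⟩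
      have h3 : a - 1 = c := by omega
      rw [h3] at h
      have h5 : π * c ≤ π * (2 * α) := Nat.mul_le_mul_left π (by omega)
      rw [hp] at hc1
      nlinarith
    · have m1 : max (2 * p) (b - 1) = b - 1 := max_eq_right (by omega)
      have m2 : max (2 * q) (a - 1) = a - 1 := max_eq_right (by omega)
      rw [m1, m2] at h
      have h5 : π * (a - 1) ≤ π * a := Nat.mul_le_mul_left π (by omega)
      have h6 : α * (b - 1) ≤ α * b := Nat.mul_le_mul_left α (by omega)
      have e3 : π * a = a * π := mul_comm _ _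
      have e4 : α * b = b * α := mul_comm _ _
      omega

/-- the crossing lemma for placements with all conflicts at one vertex -/
lemma crossing_near (hno : NoPack G G2) (ha : OreLe G a) (hb : OreLe G2 b)
    (hn : a * b < 2 * Fintype.card V) :
    ∀ (k : ℕ) (H : SimpleGraph V) (q : V), IsCopy G2 H → AtQ G H q →
      dg G q + dg H q = k →
      Fintype.card V ≤ b * dg G q ∨ Fintype.card V ≤ a * dg H q := by
  intro k
  induction k using Nat.strong_induction_on with
  | _ k ih =>
  intro H q hc h hk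
  by_contra hcon
  push Not at hcon
  obtain ⟨hc1, hc2⟩ := hcon
  have hbH : OreLe H b := hb.copy hc
  obtain ⟨α, hαd⟩ : ∃ α, α = dg G q := ⟨_, rfl⟩
  obtain ⟨π, hπd⟩ : ∃ π, π = dg H q := ⟨_, rfl⟩
  -- a conflict at q
  obtain ⟨v, hv1, hv2⟩ : ∃ v, G.Adj q v ∧ H.Adj q v := by
    obtain ⟨x, y, hG, hH⟩ := hno H hc
    rcases h x y hG hH with h' | h'
    · subst h'; exact ⟨y, hG, hH⟩
    · subst h'; exact ⟨x, hG.symm, hH.symm⟩
  have hα0 : 1 ≤ α := by rw [hαd]; exact dg_pos_of_adj hv1
  have hπ0 : 1 ≤ π := by rw [hπd]; exact dg_pos_of_adj hv2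
  have hαa : α ≤ a := by
    have := ha q v hv1
    omega
  have hπb : π ≤ b := by
    have := hbH q v hv2
    omega
  have hmain := by
    refine master_near hno hc h (fun x => dg H x + π ≤ b) (fun x => dg G x + α ≤ a)
      ?_ ?_ ?_ ?_
    · intro x _ hx2
      show dg H x + π ≤ b
      have := hbH q x hx2
      omega
    · intro x hx1 _
      show dg G x + α ≤ a
      have := ha q x hx1
      omega
    · intro w hwq x hx1 hx2 hat
      by_contra hlt
      replace hlt : ¬ (dg H x + π ≤ b) := hlt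
      push Not at hlt
      have h1 := hbH w x hx2
      have hd : dg (sw H q w) q = dg H w := dg_sw_left
      have := ih (dg G q + dg H w) (by omega) (sw H q w) q (hc.sw q w) hat (by rw [hd])
      rw [hd] at this
      rcases this with h' | h'
      · omega
      · have : a * dg H w ≤ a * π := Nat.mul_le_mul_left a (by omega)
        rw [hπd] at this; omega
    · intro w hwq x hx1 hx2 hat
      by_contra hlt
      replace hlt : ¬ (dg G x + α ≤ a) := hlt
      push Not at hlt
      have h1 := ha w x hx2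
      have hd : dg (sw H q w) w = dg H q := dg_sw_right
      have := ih (dg G w + dg H q) (by omega) (sw H q w) w (hc.sw q w) hat (by rw [hd])
      rw [hd] at this
      rcases this with h' | h'
      · have : b * dg G w ≤ b * α := Nat.mul_le_mul_left b (by omega)
        rw [hαd] at this; omega
      · omega
  have hle1 := sum_ite_le (s := nb G q) (t := fun x => dg H x + π ≤ b) (f := fun x => dg H x)
    (M := max (2 * (b - π)) (b - 1))
    (fun x _ ht => le_max_of_le_left (by have ht' : dg H x + π ≤ b := ht; omega))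
    (fun x _ _ => le_max_of_le_right (hbH.dg_le x))
  have hle2 := sum_ite_le (s := nb H q) (t := fun x => dg G x + α ≤ a) (f := fun x => dg G x)
    (M := max (2 * (a - α)) (a - 1))
    (fun x _ ht => le_max_of_le_left (by have ht' : dg G x + α ≤ a := ht; omega))
    (fun x _ _ => le_max_of_le_right (ha.dg_le x))
  have htot : 2 * Fintype.card V ≤ α * max (2 * (b - π)) (b - 1)
      + π * max (2 * (a - α)) (a - 1) := by
    rw [hαd, hπd] at *
    exact hmain.trans (Nat.add_le_add hle1 hle2)
  rw [← hαd] at hc1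
  rw [← hπd] at hc2
  exact arith_cross hn hαa hπb hα0 hπ0 hc1 hc2 htot

/-- a pair of vertices of small degree can be added to a packing -/
lemma pack_of_near (ha : OreLe G a) (hb : OreLe H b)
    (hn : a * b < 2 * Fintype.card V) (h : AtQ G H q)
    (h1 : b * dg G q < Fintype.card V) (h2 : a * dg H q < Fintype.card V) :
    ∃ σ : Equiv.Perm V, ∀ x y, G.Adj x y → ¬ H.Adj (σ x) (σ y) := by
  by_contra hcon
  push Not at hcon
  have hno : NoPack G H := by
    rintro K ⟨σ, rfl⟩
    obtain ⟨x, y, h1, h2⟩ := hcon σ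
    exact ⟨x, y, h1, h2⟩
  rcases crossing_near hno ha hb hn _ H q (IsCopy.refl H) h rfl with h' | h' <;> omega

end

end Pool.Agent.MP_7c6760_co
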