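import Pool.Agent.Lib.MP_7c6760_co.OreMin

/-! Counting in the graphs of a critical pair. -/

namespace Pool.Agent.MP_7c6760_co

open Finset

noncomputable section

open Classical

set_option linter.unusedSectionVars false

variable {V : Type*} [Fintype V]

variable {G G2 H : SimpleGraph V} {q u v w x y z : V} {a b D : ℕ}

/-- vertices of large degree -/
def hiF (G : SimpleGraph V) (b : ℕ) : Finset V :=
  univ.filter (fun x => Fintype.card V ≤ b * dg G x)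

lemma mem_hiF : x ∈ hiF G b ↔ Fintype.card V ≤ b * dg G x := by simp [hiF]

/-- number of edges at vertices of large degree -/
def eF (G : SimpleGraph V) (b : ℕ) : ℕ := ∑ x ∈ hiF G b, dg G x

lemma bip_sum (S : Finset V) (hS : ∀ x y, G.Adj x y → (x ∈ S ↔ y ∉ S)) (f : V → ℝ) :
    ∑ x ∈ S, ∑ y ∈ nb G x, f y = ∑ y ∈ Sᶜ, (dg G y : ℝ) * f y := by
  have e1 : ∀ x ∈ S, ∑ y ∈ nb G x, f y = ∑ y ∈ Sᶜ, if G.Adj x y then f y else 0 := by
    intro x hx
    rw [← Finset.sum_filter]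
    refine Finset.sum_congr ?_ (fun _ _ => rfl)
    ext y
    simp only [mem_nb, mem_filter, mem_compl]
    exact ⟨fun h => ⟨(hS x y h).mp hx, h⟩, fun h => h.2⟩
  have e2 : ∀ y ∈ Sᶜ, (dg G y : ℝ) * f y = ∑ x ∈ S, if G.Adj x y then f y else 0 := by
    intro y hy
    rw [← Finset.sum_filter, Finset.sum_const, nsmul_eq_mul]
    congr 2
    unfold dg
    congr 1
    ext x
    simp only [mem_nb, mem_filter]
    constructor
    · intro h
      refine ⟨?_, h.symm⟩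
      by_contra hx
      have h1 := (hS y x h)
      have h2 : y ∉ S := by simpa using hy
      exact h2 (h1.mpr hx)
    · intro h; exact h.2.symm
  rw [Finset.sum_congr rfl e1, Finset.sum_congr rfl e2, Finset.sum_comm]

lemma Crit.bip1 (hcr : Crit G G2) (ha : OreLe G a) (hb : OreLe G2 b)
    (hn : a * b < 2 * Fintype.card V) : ∀ x y, G.Adj x y → (x ∈ hiF G b ↔ y ∉ hiF G b) := by
  intro x y hxy
  rw [mem_hiF, mem_hiF]
  rcases hcr.hi1 ha hb hn hxy with h | h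
  · constructor
    · intro _; omega
    · intro _; exact h.1
  · constructor
    · intro h'; omega
    · intro h'; exact absurd h.2 h'

lemma Crit.bip2 (hcr : Crit G G2) (ha : OreLe G a) (hb : OreLe G2 b)
    (hn : a * b < 2 * Fintype.card V) (hc : IsCopy G2 H) :
    ∀ x y, H.Adj x y → (x ∈ hiF H a ↔ y ∉ hiF H a) := by
  intro x y hxy
  rw [mem_hiF, mem_hiF]
  rcases hcr.hi2 ha hb hn hc hxy with h | h
  · constructor
    · intro _; omega
    · intro _; exact h.1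
  · constructor
    · intro h'; omega
    · intro h'; exact absurd h.2 h'

lemma sum_compl_eq (S : Finset V) (hS : ∀ x y, G.Adj x y → (x ∈ S ↔ y ∉ S)) :
    ∑ y ∈ Sᶜ, (dg G y : ℝ) = ∑ x ∈ S, (dg G x : ℝ) := by
  have := bip_sum S hS (fun _ => 1)
  simp only [mul_one, Finset.sum_const, nsmul_eq_mul] at this
  rw [← this]
  rfl

lemma IsCopy.hiF_card (hc : IsCopy G2 H) : (hiF H a).card = (hiF G2 a).card := by
  obtain ⟨σ, rfl⟩ := hc
  refine Finset.card_bij (fun x _ => σ x) ?_ ?_ ?_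
  · intro x hx
    rw [mem_hiF] at hx ⊢
    rwa [dg_comap] at hx
  · intro x _ y _ h; exact σ.injective h
  · intro y hy
    refine ⟨σ.symm y, ?_, by simp⟩
    rw [mem_hiF] at hy ⊢
    rw [dg_comap]; simpa using hy

lemma IsCopy.eF_eq (hc : IsCopy G2 H) : eF H a = eF G2 a := by
  obtain ⟨σ, rfl⟩ := hc
  unfold eF
  refine Finset.sum_bij (fun x _ => σ x) ?_ ?_ ?_ ?_
  · intro x hx
    rw [mem_hiF] at hx ⊢
    rwa [dg_comap] at hx
  · intro x _ y _ h; exact σ.injective h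
  · intro y hy
    refine ⟨σ.symm y, ?_, by simp⟩
    rw [mem_hiF] at hy ⊢
    rw [dg_comap]; simpa using hy
  · intro x _; rw [dg_comap]

/-- the inequalities between the numbers of vertices and edges -/
lemma count_ineqs (hcr : Crit G G2) (ha : OreLe G a) (hb : OreLe G2 b)
    (hn : a * b < 2 * Fintype.card V) (hD : ∀ x, dg G x ≤ D) (ha1 : 1 ≤ a) :
    ((a : ℝ) + 1) * (hiF G b).card ≤ 2 * eF G b ∧
    (eF G b : ℝ) ≤ D * (hiF G b).card ∧
    2 * (eF G b : ℝ) ≤ (a - 1) * (Fintype.card V - (hiF G b).card) ∧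
    (Fintype.card V : ℝ) * eF G b
      ≤ a * ((hiF G b).card * ((Fintype.card V : ℝ) - (hiF G b).card)) := by
  have hS := hcr.bip1 ha hb hn
  set S := hiF G b with hSdef
  have hcardc : ((Sᶜ).card : ℝ) = Fintype.card V - S.card := by
    rw [Finset.card_compl, Nat.cast_sub (Finset.card_le_univ _)]
  have he : (eF G b : ℝ) = ∑ x ∈ S, (dg G x : ℝ) := by unfold eF; push_cast; rfl
  have hec : ∑ y ∈ Sᶜ, (dg G y : ℝ) = eF G b := by rw [sum_compl_eq S hS, he]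
  have h1 : ((a : ℝ) + 1) * S.card ≤ 2 * eF G b := by
    rw [he, Finset.mul_sum, mul_comm, ← nsmul_eq_mul, ← Finset.sum_const]
    refine Finset.sum_le_sum (fun x hx => ?_)
    have := hi1_deg (G := G) hn (mem_hiF.mp hx)
    exact_mod_cast this
  have h2 : (eF G b : ℝ) ≤ D * S.card := by
    rw [he, mul_comm, ← nsmul_eq_mul, ← Finset.sum_const]
    refine Finset.sum_le_sum (fun x _ => ?_)
    exact_mod_cast hD x
  have h3 : 2 * (eF G b : ℝ) ≤ (a - 1) * (Fintype.card V - S.card) := by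
    rw [← hec, ← hcardc, Finset.mul_sum, mul_comm, ← nsmul_eq_mul, ← Finset.sum_const]
    refine Finset.sum_le_sum (fun x hx => ?_)
    have hx' : ¬ Fintype.card V ≤ b * dg G x := by
      have : x ∉ S := by simpa using hx
      rwa [hSdef, mem_hiF] at this
    have := hcr.lo1 ha hb hn (x := x) (by omega)
    have h4 : ((2 * dg G x : ℕ) : ℝ) ≤ ((a - 1 : ℕ) : ℝ) := by exact_mod_cast this
    rw [Nat.cast_sub ha1] at h4
    push_cast at h4
    exact h4
  refine ⟨h1, h2, h3, ?_⟩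
  -- the last one
  have q1 : (eF G b : ℝ) ^ 2 ≤ S.card * ∑ x ∈ S, (dg G x : ℝ) ^ 2 := by
    rw [he]; exact sq_sum_le_card_mul_sum_sq
  have q2 : (eF G b : ℝ) ^ 2 ≤ (Fintype.card V - S.card) * ∑ x ∈ Sᶜ, (dg G x : ℝ) ^ 2 := by
    rw [← hcardc]
    calc (eF G b : ℝ) ^ 2 = (∑ y ∈ Sᶜ, (dg G y : ℝ)) ^ 2 := by rw [hec]
      _ ≤ _ := sq_sum_le_card_mul_sum_sq
  have q3 : ∑ x ∈ S, (dg G x : ℝ) ^ 2 + ∑ x ∈ Sᶜ, (dg G x : ℝ) ^ 2 ≤ a * eF G b := by
    have e1 : ∑ x ∈ S, ∑ y ∈ nb G x, ((dg G x : ℝ) + dg G y)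
        = ∑ x ∈ S, (dg G x : ℝ) ^ 2 + ∑ x ∈ Sᶜ, (dg G x : ℝ) ^ 2 := by
      have e2 : ∑ x ∈ Sᶜ, (dg G x : ℝ) ^ 2 = ∑ x ∈ Sᶜ, (dg G x : ℝ) * dg G x :=
        Finset.sum_congr rfl (fun x _ => sq _)
      rw [e2, ← bip_sum S hS (fun y => (dg G y : ℝ)), ← Finset.sum_add_distrib]
      refine Finset.sum_congr rfl (fun x _ => ?_)
      rw [Finset.sum_add_distrib, Finset.sum_const, nsmul_eq_mul, sq]
      rfl
    rw [← e1, he, Finset.mul_sum]
    refine Finset.sum_le_sum (fun x _ => ?_)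
    have e3 : (a : ℝ) * dg G x = ∑ y ∈ nb G x, (a : ℝ) := by
      rw [Finset.sum_const, nsmul_eq_mul, mul_comm]; rfl
    rw [e3]
    refine Finset.sum_le_sum (fun y hy => ?_)
    have := ha x y (by simpa using hy)
    exact_mod_cast this
  obtain ⟨A, hA⟩ : ∃ A, A = ∑ x ∈ S, (dg G x : ℝ) ^ 2 := ⟨_, rfl⟩
  obtain ⟨B, hB⟩ : ∃ B, B = ∑ x ∈ Sᶜ, (dg G x : ℝ) ^ 2 := ⟨_, rfl⟩
  obtain ⟨X, hX⟩ : ∃ X : ℝ, X = S.card := ⟨_, rfl⟩
  obtain ⟨Y, hY⟩ : ∃ Y : ℝ, Y = Fintype.card V - S.card := ⟨_, rfl⟩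
  obtain ⟨e, hee⟩ : ∃ e : ℝ, e = eF G b := ⟨_, rfl⟩
  have hY0 : 0 ≤ Y := by rw [hY, ← hcardc]; positivity
  have hX0 : 0 ≤ X := by rw [hX]; positivity
  have he0 : 0 ≤ e := by rw [hee]; positivity
  have hn' : (Fintype.card V : ℝ) = X + Y := by rw [hX, hY]; ring
  rw [← hA, ← hX, ← hee] at q1
  rw [← hB, ← hY, ← hee] at q2
  rw [← hA, ← hB, ← hee] at q3
  rw [← hY, ← hX, ← hee, hn']
  rcases eq_or_lt_of_le he0 with h0 | h0
  · rw [← h0]
    have := mul_nonneg (Nat.cast_nonneg (α := ℝ) a) (mul_nonneg hX0 hY0)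
    linarith
  · have r1 : (X + Y) * e * e ≤ a * (X * Y) * e := by
      have s1 : Y * e ^ 2 ≤ Y * (X * A) := mul_le_mul_of_nonneg_left q1 hY0
      have s2 : X * e ^ 2 ≤ X * (Y * B) := mul_le_mul_of_nonneg_left q2 hX0
      have s3 : X * Y * (A + B) ≤ X * Y * (a * e) :=
        mul_le_mul_of_nonneg_left q3 (mul_nonneg hX0 hY0)
      nlinarith
    exact le_of_mul_le_mul_right r1 h0

end

end Pool.Agent.MP_7c6760_co
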