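import Mathlib

/-! Integer certificates for the boxes of the parameter space. Coordinates are in units `1/128`. -/

namespace Pool.Agent.MP_7c6760_co.Ore

/-- parameters of one side -/
structure Pm (α : Type) where
  L : α
  B : α
  P0 : α
  P1 : α
  W : α
  M : α
  A : α

/-- multipliers of the constraints on the high vertices and edges -/
structure Mu (α : Type) where
  y1 : α
  y3 : α
  y4 : α
  a : α
  g : α
  z : α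

/-- data of one side in a leaf -/
structure Sd (α : Type) where
  P : Pm α
  Y0 : Mu α
  Y1 : Mu α
  Y2 : Mu α

/-- box `[s0,s1] × [t0,t1] × [h0,h1] × [g0,g1]` -/
structure Bx where
  s0 : ℤ
  s1 : ℤ
  t0 : ℤ
  t1 : ℤ
  h0 : ℤ
  h1 : ℤ
  g0 : ℤ
  g1 : ℤ

/-- exchange of the two sides -/
def Bx.sw (b : Bx) : Bx := ⟨b.t0, b.t1, b.s0, b.s1, b.g0, b.g1, b.h0, b.h1⟩

/-- cut a box with `s + h ≤ 64`, `t + g ≤ 64` -/
def Bx.clip (b : Bx) : Bx :=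
  ⟨b.s0, min b.s1 (64 - b.h0), b.t0, min b.t1 (64 - b.g0), b.h0, min b.h1 (64 - b.s0),
    b.g0, min b.g1 (64 - b.t0)⟩

/-- nonnegativity -/
def Pm.nn (P : Pm ℤ) : Bool :=
  decide (0 ≤ P.L) && decide (0 ≤ P.B) && decide (0 ≤ P.P0) && decide (0 ≤ P.P1) &&
    decide (0 ≤ P.W) && decide (0 ≤ P.M) && decide (0 ≤ P.A)

/-- nonnegativity and the quadratic condition -/
def Mu.ok (Y : Mu ℤ) : Bool :=
  decide (0 ≤ Y.y1) && decide (0 ≤ Y.y3) && decide (0 ≤ Y.y4) && decide (0 ≤ Y.a) &&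
    decide (0 ≤ Y.g) && decide (0 ≤ Y.z) && decide (Y.z * Y.z ≤ 4 * Y.a * Y.g)

/-- side conditions for the parameters -/
def sideZ (P : Pm ℤ) (b : Bx) : Bool :=
  decide (P.B ≤ P.L) && decide (P.W * (128 - b.s0) ≤ 128 * P.L) && decide (P.L ≤ P.M) &&
    decide (128 * P.P0 + (128 - b.s0) * P.P1 ≤ 128 * P.M) &&
    decide (2 * 128 * P.L + P.W * (128 - 2 * b.s0 - 2 * b.h0) ≤ 2 * 128 * P.M) &&
    decide (P.M ≤ P.A) &&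
    decide (0 ≤ 2 * (128 - b.t1) * (128 - b.t1) * P.A - 2 * 128 * (128 - b.t1) * P.M
      + 128 * P.B * (128 + 2 * b.g0)) &&
    decide (0 ≤ 2 * (128 - b.t1) * (128 - b.t1) * P.A + 2 * (128 - b.t1) * P.L * b.g0
      - 2 * 128 * (128 - b.t1) * P.M + P.B * (128 * 128 - 4 * b.g0 * b.g0)) &&
    decide (0 ≤ 2 * (128 - b.t1) * (128 - b.t1) * P.A + 2 * (128 - b.t1) * P.L * b.g1
      - 2 * 128 * (128 - b.t1) * P.M + P.B * (128 * 128 - 4 * b.g1 * b.g1))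

/-- coefficient of the number of high vertices; `n = 1` for the third type, else `0` -/
def k1Z (P : Pm ℤ) (Y : Mu ℤ) (n w s h : ℤ) : ℤ :=
  4 * P.W * (s + h) + 512 * (P.P0 - P.L - Y.y1) - n * P.B * w + 2 * (128 + 2 * h) * Y.y3
    + 256 * Y.y4 - 4 * (128 + h) * (Y.a - Y.g)

/-- coefficient of the number of edges -/
def k2Z (P : Pm ℤ) (Y : Mu ℤ) (B' s : ℤ) : ℤ :=
  2 * (128 - s) * (P.W + P.P1 + Y.y4 - Y.y3 + Y.a + Y.g + Y.z) + 256 * Y.y1 - 384 * B'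

/-- coefficient of the excess -/
def k5Z (P : Pm ℤ) (Y : Mu ℤ) (n w s h : ℤ) : ℤ :=
  512 * P.L - 4 * P.W * (s + h) + n * P.B * w - 256 * Y.y4 - 4 * (128 + h) * Y.g

/-- the tangent point -/
def tanZ (c1 c2 w0 : ℤ) : ℤ := max (min ((-c1 * 128) / (2 * c2)) (128 * 128)) (128 * w0)

/-- six values -/
def minZ (w0 C0 C10 C1s C2s C1n C2n T0 T1 T2 p : ℤ) : ℤ :=
  min (min (min (16384 * (C0 + C10 * w0 - T0)) (16384 * (C0 + C10 * 128 - T0)))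
    (min (16384 * (C0 + C1s * w0 - T0) + C2s * (2 * p * 128 * w0 - p * p))
      (16384 * (C0 + C1s * 128 - T0) + C2s * (2 * p * 128 * 128 - p * p))))
    (min (16384 * (C0 + C1n * w0 + C2n * (2 * 128 * w0 - 128 * 128) - T1))
      (16384 * (C0 + C1n * 128 + C2n * (128 * 128) - T2)))

/-- constant coefficient -/
def c0Z (P : Pm ℤ) (E N0 s h g : ℤ) : ℤ :=
  16384 * P.L * (524288 + 4096 * (h + g) + 28 * (h * g)) - 512 * P.W * (s + h) * N0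
    - 524288 * P.A * (s * E) + 524288 * h * (P.B * (128 + 2 * g) - 2 * P.M * (128 + g))

/-- linear coefficient, common part -/
def c1Z (P : Pm ℤ) (E h g : ℤ) : ℤ :=
  8192 * P.M * (h * E) + P.B * (8192 * (h * g) - h * E * (32 * (128 + 2 * g) + 512))

/-- multiplier part -/
def ytZ (Y : Mu ℤ) (N0 h : ℤ) : ℤ := 256 * N0 * (128 * Y.y4 + 2 * (128 + h) * Y.g)

/-- the least value of one side at a corner -/
def m1Z (S : Sd ℤ) (w0 D E N0 s h g C1 : ℤ) : ℤ :=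
  minZ w0 (c0Z S.P E N0 s h g) (C1 - E * (262144 * S.P.P0 + 1024 * (128 + 2 * h) * S.P.P1))
    (C1 - 8192 * (D * E) * S.P.L + 512 * S.P.B * h * (1024 + 15 * g))
    (32 * S.P.B * E * (128 - 2 * h))
    (C1 - 4096 * (D * E) * S.P.L + 128 * S.P.B * (N0 - 16 * (h * g) - 2048 * D))
    (16 * S.P.B * (D * E)) (ytZ S.Y0 N0 h) (ytZ S.Y1 N0 h) (ytZ S.Y2 N0 h)
    (tanZ (C1 - 8192 * (D * E) * S.P.L + 512 * S.P.B * h * (1024 + 15 * g))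
      (32 * S.P.B * E * (128 - 2 * h)) w0)

/-- the least value of one side at a corner -/
def m0Z (S : Sd ℤ) (w0 s t h g : ℤ) : ℤ :=
  m1Z S w0 (128 - s) (128 - t) (131072 + 1024 * (h + g) + 15 * (h * g)) s h g
    (c1Z S.P (128 - t) h g)

/-- conditions for the coefficients of one side, `B'` from the other side -/
def kZ (S : Sd ℤ) (B' w0 : ℤ) (b : Bx) : Bool :=
  S.Y0.ok && S.Y1.ok && S.Y2.ok &&
  (decide (0 ≤ k2Z S.P S.Y0 B' b.s0) && decide (0 ≤ k2Z S.P S.Y0 B' b.s1) &&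
   decide (0 ≤ k2Z S.P S.Y1 B' b.s0) && decide (0 ≤ k2Z S.P S.Y1 B' b.s1) &&
   decide (0 ≤ k2Z S.P S.Y2 B' b.s0) && decide (0 ≤ k2Z S.P S.Y2 B' b.s1)) &&
  (decide (0 ≤ k1Z S.P S.Y0 0 w0 b.s0 b.h0) && decide (0 ≤ k1Z S.P S.Y0 0 w0 b.s0 b.h1) &&
   decide (0 ≤ k1Z S.P S.Y0 0 w0 b.s1 b.h0) && decide (0 ≤ k1Z S.P S.Y0 0 w0 b.s1 b.h1)) &&
  (decide (0 ≤ k1Z S.P S.Y1 1 w0 b.s0 b.h0) && decide (0 ≤ k1Z S.P S.Y1 1 w0 b.s0 b.h1) &&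
   decide (0 ≤ k1Z S.P S.Y1 1 w0 b.s1 b.h0) && decide (0 ≤ k1Z S.P S.Y1 1 w0 b.s1 b.h1)) &&
  (decide (0 ≤ k1Z S.P S.Y2 1 128 b.s0 b.h0) && decide (0 ≤ k1Z S.P S.Y2 1 128 b.s0 b.h1) &&
   decide (0 ≤ k1Z S.P S.Y2 1 128 b.s1 b.h0) && decide (0 ≤ k1Z S.P S.Y2 1 128 b.s1 b.h1))

/-- least coefficient of the excess -/
def m5Z (S : Sd ℤ) (w0 : ℤ) (b : Bx) : ℤ :=
  min (min (min (min (k5Z S.P S.Y0 0 w0 b.s0 b.h0) (k5Z S.P S.Y0 0 w0 b.s0 b.h1))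
        (min (k5Z S.P S.Y0 0 w0 b.s1 b.h0) (k5Z S.P S.Y0 0 w0 b.s1 b.h1)))
      (min (min (k5Z S.P S.Y1 1 w0 b.s0 b.h0) (k5Z S.P S.Y1 1 w0 b.s0 b.h1))
        (min (k5Z S.P S.Y1 1 w0 b.s1 b.h0) (k5Z S.P S.Y1 1 w0 b.s1 b.h1))))
    (min (min (k5Z S.P S.Y2 1 128 b.s0 b.h0) (k5Z S.P S.Y2 1 128 b.s0 b.h1))
      (min (k5Z S.P S.Y2 1 128 b.s1 b.h0) (k5Z S.P S.Y2 1 128 b.s1 b.h1)))

/-- value of both sides at a corner -/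
def cornZ (U U' : Sd ℤ) (w w' s t h g : ℤ) : Bool :=
  decide (0 ≤ m0Z U w s t h g + m0Z U' w' t s g h)

/-- the check of a leaf -/
def leafZ (U U' : Sd ℤ) (b : Bx) : Bool :=
  (decide (0 ≤ b.s0) && decide (0 ≤ b.t0) && decide (0 ≤ b.h0) && decide (0 ≤ b.g0)) &&
  U.P.nn && U'.P.nn && sideZ U.P b && sideZ U'.P b.sw &&
  kZ U U'.P.B (64 + b.g0) b && kZ U' U.P.B (64 + b.h0) b.sw &&
  decide (0 < m5Z U (64 + b.g0) b + m5Z U' (64 + b.h0) b.sw) &&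
  (cornZ U U' (64 + b.g0) (64 + b.h0) b.s0 b.t0 b.h0 b.g0 &&
   cornZ U U' (64 + b.g0) (64 + b.h0) b.s0 b.t0 b.h0 b.g1 &&
   cornZ U U' (64 + b.g0) (64 + b.h0) b.s0 b.t0 b.h1 b.g0 &&
   cornZ U U' (64 + b.g0) (64 + b.h0) b.s0 b.t0 b.h1 b.g1) &&
  (cornZ U U' (64 + b.g0) (64 + b.h0) b.s0 b.t1 b.h0 b.g0 &&
   cornZ U U' (64 + b.g0) (64 + b.h0) b.s0 b.t1 b.h0 b.g1 &&
   cornZ U U' (64 + b.g0) (64 + b.h0) b.s0 b.t1 b.h1 b.g0 &&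
   cornZ U U' (64 + b.g0) (64 + b.h0) b.s0 b.t1 b.h1 b.g1) &&
  (cornZ U U' (64 + b.g0) (64 + b.h0) b.s1 b.t0 b.h0 b.g0 &&
   cornZ U U' (64 + b.g0) (64 + b.h0) b.s1 b.t0 b.h0 b.g1 &&
   cornZ U U' (64 + b.g0) (64 + b.h0) b.s1 b.t0 b.h1 b.g0 &&
   cornZ U U' (64 + b.g0) (64 + b.h0) b.s1 b.t0 b.h1 b.g1) &&
  (cornZ U U' (64 + b.g0) (64 + b.h0) b.s1 b.t1 b.h0 b.g0 &&
   cornZ U U' (64 + b.g0) (64 + b.h0) b.s1 b.t1 b.h0 b.g1 &&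
   cornZ U U' (64 + b.g0) (64 + b.h0) b.s1 b.t1 b.h1 b.g0 &&
   cornZ U U' (64 + b.g0) (64 + b.h0) b.s1 b.t1 b.h1 b.g1)

/-- trees of boxes -/
inductive Tr where
  | skip : Tr
  | empty : Tr
  | leaf : Sd ℤ → Sd ℤ → Tr
  | ss : ℤ → Tr → Tr → Tr
  | st : ℤ → Tr → Tr → Tr
  | sh : ℤ → Tr → Tr → Tr
  | sg : ℤ → Tr → Tr → Tr

/-- the check of a tree -/
def chk : Tr → Bx → Bool
  | .skip, b => decide (b.s1 ≤ b.t0) && decide (0 < b.t0)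
  | .empty, b => decide (64 < b.s0 + b.h0) || decide (64 < b.t0 + b.g0)
  | .leaf U U', b => leafZ U U' b.clip
  | .ss m l r, b => decide (0 ≤ m) && chk l ⟨b.s0, m, b.t0, b.t1, b.h0, b.h1, b.g0, b.g1⟩ &&
      chk r ⟨m, b.s1, b.t0, b.t1, b.h0, b.h1, b.g0, b.g1⟩
  | .st m l r, b => decide (0 ≤ m) && chk l ⟨b.s0, b.s1, b.t0, m, b.h0, b.h1, b.g0, b.g1⟩ &&
      chk r ⟨b.s0, b.s1, m, b.t1, b.h0, b.h1, b.g0, b.g1⟩
  | .sh m l r, b => decide (0 ≤ m) && chk l ⟨b.s0, b.s1, b.t0, b.t1, b.h0, m, b.g0, b.g1⟩ &&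
      chk r ⟨b.s0, b.s1, b.t0, b.t1, m, b.h1, b.g0, b.g1⟩
  | .sg m l r, b => decide (0 ≤ m) && chk l ⟨b.s0, b.s1, b.t0, b.t1, b.h0, b.h1, b.g0, m⟩ &&
      chk r ⟨b.s0, b.s1, b.t0, b.t1, b.h0, b.h1, m, b.g1⟩

end Pool.Agent.MP_7c6760_co.Ore
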