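import Pool.Agent.Lib.MP_7c6760_co.OreSound

/-! Soundness of the check of a leaf and of a tree. -/

namespace Pool.Agent.MP_7c6760_co.Ore

lemma cast_k1 (P : Pm ℤ) (Y : Mu ℤ) (n w s h : ℤ) :
    512 * K1 P.r Y.r n (w / 128) (s / 128) (h / 128) = (k1Z P Y n w s h : ℝ) := by
  simp only [K1, k1Z, Pm.r, Mu.r]; push_cast; ring

lemma cast_k2 (P : Pm ℤ) (Y : Mu ℤ) (B' s : ℤ) :
    256 * K2 P.r Y.r B' (s / 128) = (k2Z P Y B' s : ℝ) := by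
  simp only [K2, k2Z, Pm.r, Mu.r]; push_cast; ring

lemma cast_k5 (P : Pm ℤ) (Y : Mu ℤ) (n w s h : ℤ) :
    512 * K5 P.r Y.r n (w / 128) (s / 128) (h / 128) = (k5Z P Y n w s h : ℝ) := by
  simp only [K5, k5Z, Pm.r, Mu.r]; push_cast; ring

/-- two variables -/
lemma box2 (f : ℝ → ℝ → ℝ) {s0 s1 h0 h1 s h : ℝ} (hs : ∀ h, Cv (fun s => f s h))
    (hh : ∀ s, Cv (fun h => f s h)) (s0l : s0 ≤ s) (s1l : s ≤ s1) (h0l : h0 ≤ h) (h1l : h ≤ h1)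
    (c00 : 0 ≤ f s0 h0) (c01 : 0 ≤ f s0 h1) (c10 : 0 ≤ f s1 h0) (c11 : 0 ≤ f s1 h1) :
    0 ≤ f s h :=
  (hh s).nonneg h0l h1l ((hs h0).nonneg s0l s1l c00 c10) ((hs h1).nonneg s0l s1l c01 c11)

lemma K1_s (P : Pm ℝ) (Y : Mu ℝ) (n w h : ℝ) : Cv (fun s => K1 P Y n w s h) := by
  refine ⟨K1 P Y n w 0 h, P.W, 0, le_refl _, fun x => ?_⟩
  simp only [K1]; ring

lemma K1_h (P : Pm ℝ) (Y : Mu ℝ) (n w s : ℝ) : Cv (fun h => K1 P Y n w s h) := by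
  refine ⟨K1 P Y n w s 0, P.W + Y.y3 - (Y.a - Y.g), 0, le_refl _, fun x => ?_⟩
  simp only [K1]; ring

lemma K2_s (P : Pm ℝ) (Y : Mu ℝ) (B' : ℝ) : Cv (fun s => K2 P Y B' s) := by
  refine ⟨K2 P Y B' 0, K2 P Y B' 1 - K2 P Y B' 0, 0, le_refl _, fun x => ?_⟩
  simp only [K2]; ring

lemma K5_s (P : Pm ℝ) (Y : Mu ℝ) (n w h m : ℝ) : Cv (fun s => K5 P Y n w s h - m) := by
  refine ⟨K5 P Y n w 0 h - m, -P.W, 0, le_refl _, fun x => ?_⟩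
  simp only [K5]; ring

lemma K5_h (P : Pm ℝ) (Y : Mu ℝ) (n w s m : ℝ) : Cv (fun h => K5 P Y n w s h - m) := by
  refine ⟨K5 P Y n w s 0 - m, -P.W - Y.g, 0, le_refl _, fun x => ?_⟩
  simp only [K5]; ring

lemma K1_zero (P : Pm ℝ) (Y : Mu ℝ) (w w' s h : ℝ) : K1 P Y 0 w s h = K1 P Y 0 w' s h := by
  simp only [K1]; ring

lemma K5_zero (P : Pm ℝ) (Y : Mu ℝ) (w w' s h : ℝ) : K5 P Y 0 w s h = K5 P Y 0 w' s h := by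
  simp only [K5]; ring

/-- admissible parameters at a point -/
structure Adm (P : Pm ℝ) (s t h g : ℝ) : Prop where
  L0 : 0 ≤ P.L
  B0 : 0 ≤ P.B
  P00 : 0 ≤ P.P0
  P10 : 0 ≤ P.P1
  W0 : 0 ≤ P.W
  M0 : 0 ≤ P.M
  A0 : 0 ≤ P.A
  BL : P.B ≤ P.L
  WL : P.W * (1 - s) ≤ P.L
  LM : P.L ≤ P.M
  PM : P.P0 + (1 - s) * P.P1 ≤ P.M
  fM : P.L + P.W * (1 / 2 - s - h) ≤ P.M
  MA : P.M ≤ P.A
  A1 : 0 ≤ (1 - t) ^ 2 * P.A - (1 - t) * P.M + P.B * (1 / 2 + g)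
  A2 : 0 ≤ (1 - t) ^ 2 * P.A + (1 - t) * P.L * g - (1 - t) * P.M + P.B * (1 / 2 - 2 * g ^ 2)

/-- a point of a box -/
structure InBx (b : Bx) (s t h g : ℝ) : Prop where
  s0 : (b.s0 : ℝ) / 128 ≤ s
  s1 : s ≤ (b.s1 : ℝ) / 128
  t0 : (b.t0 : ℝ) / 128 ≤ t
  t1 : t ≤ (b.t1 : ℝ) / 128
  h0 : (b.h0 : ℝ) / 128 ≤ h
  h1 : h ≤ (b.h1 : ℝ) / 128
  g0 : (b.g0 : ℝ) / 128 ≤ g
  g1 : g ≤ (b.g1 : ℝ) / 128

lemma InBx.sw {b : Bx} {s t h g : ℝ} (hb : InBx b s t h g) : InBx b.sw t s g h :=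
  ⟨hb.t0, hb.t1, hb.s0, hb.s1, hb.g0, hb.g1, hb.h0, hb.h1⟩

lemma Pm.nn_nonneg {P : Pm ℤ} (h : P.nn = true) :
    0 ≤ P.L ∧ 0 ≤ P.B ∧ 0 ≤ P.P0 ∧ 0 ≤ P.P1 ∧ 0 ≤ P.W ∧ 0 ≤ P.M ∧ 0 ≤ P.A := by
  simp only [Pm.nn, Bool.and_eq_true, decide_eq_true_eq] at h
  tauto

/-- side conditions at a point from those of a box -/
lemma adm_of {P : Pm ℤ} {b : Bx} {s t h g : ℝ} (hnn : P.nn = true) (hs : sideZ P b = true)
    (hb : InBx b s t h g) (hg0 : 0 ≤ b.g0) (ht : b.t1 ≤ 64) :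
    Adm P.r s t h g := by
  obtain ⟨L0, B0, P00, P10, W0, M0, A0⟩ := Pm.nn_nonneg hnn
  simp only [sideZ, Bool.and_eq_true, decide_eq_true_eq] at hs
  obtain ⟨⟨⟨⟨⟨⟨⟨⟨c1, c2⟩, c3⟩, c4⟩, c5⟩, c6⟩, c7⟩, c8⟩, c9⟩ := hs
  have L0' : (0 : ℝ) ≤ P.L := by exact_mod_cast L0
  have B0' : (0 : ℝ) ≤ P.B := by exact_mod_cast B0
  have P00' : (0 : ℝ) ≤ P.P0 := by exact_mod_cast P00
  have P10' : (0 : ℝ) ≤ P.P1 := by exact_mod_cast P10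
  have W0' : (0 : ℝ) ≤ P.W := by exact_mod_cast W0
  have M0' : (0 : ℝ) ≤ P.M := by exact_mod_cast M0
  have A0' : (0 : ℝ) ≤ P.A := by exact_mod_cast A0
  have c1' : (P.B : ℝ) ≤ P.L := by exact_mod_cast c1
  have c2' : (P.W : ℝ) * (128 - b.s0) ≤ 128 * P.L := by exact_mod_cast c2
  have c3' : (P.L : ℝ) ≤ P.M := by exact_mod_cast c3
  have c4' : 128 * (P.P0 : ℝ) + (128 - b.s0) * P.P1 ≤ 128 * P.M := by exact_mod_cast c4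
  have c5' : 2 * 128 * (P.L : ℝ) + P.W * (128 - 2 * b.s0 - 2 * b.h0) ≤ 2 * 128 * P.M := by
    exact_mod_cast c5
  have c6' : (P.M : ℝ) ≤ P.A := by exact_mod_cast c6
  have c7' : (0 : ℝ) ≤ 2 * (128 - b.t1) * (128 - b.t1) * P.A - 2 * 128 * (128 - b.t1) * P.M
      + 128 * P.B * (128 + 2 * b.g0) := by exact_mod_cast c7
  have c8' : (0 : ℝ) ≤ 2 * (128 - b.t1) * (128 - b.t1) * P.A + 2 * (128 - b.t1) * P.L * b.g0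
      - 2 * 128 * (128 - b.t1) * P.M + P.B * (128 * 128 - 4 * b.g0 * b.g0) := by exact_mod_cast c8
  have c9' : (0 : ℝ) ≤ 2 * (128 - b.t1) * (128 - b.t1) * P.A + 2 * (128 - b.t1) * P.L * b.g1
      - 2 * 128 * (128 - b.t1) * P.M + P.B * (128 * 128 - 4 * b.g1 * b.g1) := by exact_mod_cast c9
  have g0' : (0 : ℝ) ≤ b.g0 := by exact_mod_cast hg0
  have t1' : (b.t1 : ℝ) ≤ 64 := by exact_mod_cast ht
  have hs0 := hb.s0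
  have ht1 := hb.t1
  have hh0 := hb.h0
  have hg0' := hb.g0
  have hg1' := hb.g1
  have hg00 : 0 ≤ g := le_trans (by positivity) hg0'
  obtain ⟨T, hT⟩ : ∃ T : ℝ, T = 1 - (b.t1 : ℝ) / 128 := ⟨_, rfl⟩
  have hT1 : T ≤ 1 - t := by linarith
  have hT2 : 1 / 2 ≤ T := by linarith
  have hA2 : ∀ g' : ℝ, 0 ≤ g' → (1 - t) ^ 2 * P.A - (1 - t) * P.M + (1 - t) * P.L * g' ≥
      T ^ 2 * P.A - T * P.M + T * P.L * g' := by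
    intro g' hg'
    have h1 : (1 - t) ^ 2 * P.A - (1 - t) * P.M + (1 - t) * P.L * g'
        - (T ^ 2 * P.A - T * P.M + T * P.L * g')
        = ((1 - t) - T) * (((1 - t) + T - 1) * P.A + (P.A - P.M) + P.L * g') := by ring
    have h2 : 0 ≤ ((1 - t) - T) * (((1 - t) + T - 1) * P.A + (P.A - P.M) + P.L * g') := by
      refine mul_nonneg (by linarith) ?_
      have := mul_nonneg (show 0 ≤ (1 - t) + T - 1 by linarith) A0'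
      have := mul_nonneg L0' hg'
      linarith
    linarith
  refine ⟨L0', B0', P00', P10', W0', M0', A0', c1', ?_, c3', ?_, ?_, c6', ?_, ?_⟩
  · show (P.W : ℝ) * (1 - s) ≤ P.L
    have := mul_le_mul_of_nonneg_left hs0 W0'
    linarith
  · show (P.P0 : ℝ) + (1 - s) * P.P1 ≤ P.M
    have := mul_le_mul_of_nonneg_right hs0 P10'
    linarith
  · show (P.L : ℝ) + P.W * (1 / 2 - s - h) ≤ P.M
    have h1 := mul_le_mul_of_nonneg_left hs0 W0'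
    have h2 := mul_le_mul_of_nonneg_left hh0 W0'
    linarith
  · show (0 : ℝ) ≤ (1 - t) ^ 2 * P.A - (1 - t) * P.M + P.B * (1 / 2 + g)
    have h1 := hA2 0 (le_refl _)
    have h2 := mul_le_mul_of_nonneg_left hg0' B0'
    have h3 : 0 ≤ T ^ 2 * P.A - T * P.M + P.B * (1 / 2 + b.g0 / 128) := by
      have e : 2 * 128 ^ 2 * (T ^ 2 * P.A - T * P.M + P.B * (1 / 2 + (b.g0 : ℝ) / 128))
        = 2 * (128 - b.t1) * (128 - b.t1) * P.A - 2 * 128 * (128 - b.t1) * P.M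
      + 128 * P.B * (128 + 2 * b.g0) := by rw [hT]; ring
      linarith
    linarith
  · show (0 : ℝ) ≤ (1 - t) ^ 2 * P.A + (1 - t) * P.L * g - (1 - t) * P.M
      + P.B * (1 / 2 - 2 * g ^ 2)
    have h1 := hA2 g hg00
    have h3 : 0 ≤ T ^ 2 * P.A + T * P.L * (b.g0 / 128) - T * P.M
        + P.B * (1 / 2 - 2 * (b.g0 / 128) ^ 2) := by
      have e : 2 * 128 ^ 2 * (T ^ 2 * P.A + T * P.L * (b.g0 / 128) - T * P.M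
        + P.B * (1 / 2 - 2 * ((b.g0 : ℝ) / 128) ^ 2))
        = 2 * (128 - b.t1) * (128 - b.t1) * P.A + 2 * (128 - b.t1) * P.L * b.g0
      - 2 * 128 * (128 - b.t1) * P.M + P.B * (128 * 128 - 4 * b.g0 * b.g0) := by rw [hT]; ring
      linarith
    have h4 : 0 ≤ T ^ 2 * P.A + T * P.L * (b.g1 / 128) - T * P.M
        + P.B * (1 / 2 - 2 * (b.g1 / 128) ^ 2) := by
      have e : 2 * 128 ^ 2 * (T ^ 2 * P.A + T * P.L * (b.g1 / 128) - T * P.M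
        + P.B * (1 / 2 - 2 * ((b.g1 : ℝ) / 128) ^ 2))
        = 2 * (128 - b.t1) * (128 - b.t1) * P.A + 2 * (128 - b.t1) * P.L * b.g1
      - 2 * 128 * (128 - b.t1) * P.M + P.B * (128 * 128 - 4 * b.g1 * b.g1) := by rw [hT]; ring
      linarith
    have h5 : Cv (fun x : ℝ => T ^ 2 * P.A + T * P.L * x - T * P.M + P.B * (1 / 2 - 2 * x ^ 2)) :=
      ⟨T ^ 2 * P.A - T * P.M + P.B * (1 / 2), T * P.L, 2 * P.B, by linarith, fun x => by ring⟩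
    have h6 := h5.nonneg hg0' hg1' h3 h4
    linarith

lemma K1_node {S : Sd ℤ} {B' w0 : ℤ} {b : Bx} {s h : ℝ} (hk : kZ S B' w0 b = true)
    (s0 : (b.s0 : ℝ) / 128 ≤ s) (s1 : s ≤ (b.s1 : ℝ) / 128) (h0 : (b.h0 : ℝ) / 128 ≤ h)
    (h1 : h ≤ (b.h1 : ℝ) / 128) {ty : Ty} {w w2 : ℝ} {Y : Mu ℝ} (hn : Node S w0 ty w w2 Y) :
    Y.Ok ∧ 0 ≤ K1 S.P.r Y ty.n w s h ∧ 0 ≤ K2 S.P.r Y B' s := by
  simp only [kZ, Bool.and_eq_true, decide_eq_true_eq] at hk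
  obtain ⟨⟨⟨⟨⟨⟨Y0, Y1⟩, Y2⟩, ⟨⟨⟨⟨e1, e2⟩, e3⟩, e4⟩, e5⟩, e6⟩, ⟨⟨a1, a2⟩, a3⟩, a4⟩,
    ⟨⟨b1, b2⟩, b3⟩, b4⟩, ⟨⟨c1, c2⟩, c3⟩, c4⟩ := hk
  have okc : ∀ Y : Mu ℤ, Y.ok = true → Y.r.Ok := by
    intro Y hY
    simp only [Mu.ok, Bool.and_eq_true, decide_eq_true_eq] at hY
    obtain ⟨⟨⟨⟨⟨⟨y1, y2⟩, y3⟩, y4⟩, y5⟩, y6⟩, y7⟩ := hY
    refine ⟨?_, ?_, ?_, ?_, ?_, ?_, ?_⟩
    · show (0 : ℝ) ≤ Y.y1; exact_mod_cast y1
    · show (0 : ℝ) ≤ Y.y3; exact_mod_cast y2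
    · show (0 : ℝ) ≤ Y.y4; exact_mod_cast y3
    · show (0 : ℝ) ≤ Y.a; exact_mod_cast y4
    · show (0 : ℝ) ≤ Y.g; exact_mod_cast y5
    · show (0 : ℝ) ≤ Y.z; exact_mod_cast y6
    · show (Y.z : ℝ) * Y.z ≤ 4 * Y.a * Y.g; exact_mod_cast y7
  have k2c : ∀ Y : Mu ℤ, 0 ≤ k2Z S.P Y B' b.s0 → 0 ≤ k2Z S.P Y B' b.s1 →
      0 ≤ K2 S.P.r Y.r B' s := by
    intro Y x1 x2
    refine (K2_s S.P.r Y.r B').nonneg s0 s1 ?_ ?_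
    · have e := cast_k2 S.P Y B' b.s0
      have x1' : (0 : ℝ) ≤ k2Z S.P Y B' b.s0 := by exact_mod_cast x1
      linarith
    · have e := cast_k2 S.P Y B' b.s1
      have x1' : (0 : ℝ) ≤ k2Z S.P Y B' b.s1 := by exact_mod_cast x2
      linarith
  have k1c : ∀ (Y : Mu ℤ) (n w : ℤ), 0 ≤ k1Z S.P Y n w b.s0 b.h0 → 0 ≤ k1Z S.P Y n w b.s0 b.h1 →
      0 ≤ k1Z S.P Y n w b.s1 b.h0 → 0 ≤ k1Z S.P Y n w b.s1 b.h1 →
      0 ≤ K1 S.P.r Y.r n (w / 128) s h := by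
    intro Y n w x1 x2 x3 x4
    have tr : ∀ s' h' : ℤ, 0 ≤ k1Z S.P Y n w s' h' →
        0 ≤ K1 S.P.r Y.r n (w / 128) (s' / 128) (h' / 128) := by
      intro s' h' hx
      have e := cast_k1 S.P Y n w s' h'
      have hx' : (0 : ℝ) ≤ k1Z S.P Y n w s' h' := by exact_mod_cast hx
      linarith
    exact box2 (fun s h => K1 S.P.r Y.r n (w / 128) s h) (fun h => K1_s _ _ _ _ _)
      (fun s => K1_h _ _ _ _ _) s0 s1 h0 h1 (tr _ _ x1) (tr _ _ x2) (tr _ _ x3) (tr _ _ x4)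
  cases hn with
  | a _ _ =>
    refine ⟨okc _ Y0, ?_, k2c _ e1 e2⟩
    have := k1c S.Y0 0 w0 a1 a2 a3 a4
    rw [show ((Ty.a).n : ℝ) = 0 from rfl, K1_zero _ _ w ((w0 : ℝ) / 128)]
    simpa using this
  | b _ _ =>
    refine ⟨okc _ Y0, ?_, k2c _ e1 e2⟩
    have := k1c S.Y0 0 w0 a1 a2 a3 a4
    rw [show ((Ty.b).n : ℝ) = 0 from rfl, K1_zero _ _ w ((w0 : ℝ) / 128)]
    simpa using this
  | c =>
    refine ⟨okc _ Y1, ?_, k2c _ e3 e4⟩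
    have := k1c S.Y1 1 w0 b1 b2 b3 b4
    rw [show ((Ty.c).n : ℝ) = 1 from rfl]
    simpa using this
  | d =>
    refine ⟨okc _ Y2, ?_, k2c _ e5 e6⟩
    have := k1c S.Y2 1 128 c1 c2 c3 c4
    rw [show ((Ty.c).n : ℝ) = 1 from rfl]
    norm_num at this
    exact this

lemma K5_node {S : Sd ℤ} {w0 : ℤ} {b : Bx} {s h : ℝ}
    (s0 : (b.s0 : ℝ) / 128 ≤ s) (s1 : s ≤ (b.s1 : ℝ) / 128) (h0 : (b.h0 : ℝ) / 128 ≤ h)
    (h1 : h ≤ (b.h1 : ℝ) / 128) {ty : Ty} {w w2 : ℝ} {Y : Mu ℝ} (hn : Node S w0 ty w w2 Y) :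
    (m5Z S w0 b : ℝ) / 512 ≤ K5 S.P.r Y ty.n w s h := by
  obtain ⟨m, hm⟩ : ∃ m, m = m5Z S w0 b := ⟨_, rfl⟩
  rw [← hm]
  unfold m5Z at hm
  have k5c : ∀ (Y : Mu ℤ) (n w : ℤ), m ≤ k5Z S.P Y n w b.s0 b.h0 → m ≤ k5Z S.P Y n w b.s0 b.h1 →
      m ≤ k5Z S.P Y n w b.s1 b.h0 → m ≤ k5Z S.P Y n w b.s1 b.h1 →
      (m : ℝ) / 512 ≤ K5 S.P.r Y.r n (w / 128) s h := by
    intro Y n w x1 x2 x3 x4
    have tr : ∀ s' h' : ℤ, m ≤ k5Z S.P Y n w s' h' →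
        0 ≤ K5 S.P.r Y.r n (w / 128) (s' / 128) (h' / 128) - (m : ℝ) / 512 := by
      intro s' h' hx
      have e := cast_k5 S.P Y n w s' h'
      have hx' : (m : ℝ) ≤ k5Z S.P Y n w s' h' := by exact_mod_cast hx
      linarith
    have := box2 (fun s h => K5 S.P.r Y.r n (w / 128) s h - (m : ℝ) / 512)
      (fun h => K5_s _ _ _ _ _ _)
      (fun s => K5_h _ _ _ _ _ _) s0 s1 h0 h1 (tr _ _ x1) (tr _ _ x2) (tr _ _ x3) (tr _ _ x4)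
    linarith
  have q1 := min_le_left (min (min (min (k5Z S.P S.Y0 0 w0 b.s0 b.h0) (k5Z S.P S.Y0 0 w0 b.s0 b.h1))
        (min (k5Z S.P S.Y0 0 w0 b.s1 b.h0) (k5Z S.P S.Y0 0 w0 b.s1 b.h1)))
      (min (min (k5Z S.P S.Y1 1 w0 b.s0 b.h0) (k5Z S.P S.Y1 1 w0 b.s0 b.h1))
        (min (k5Z S.P S.Y1 1 w0 b.s1 b.h0) (k5Z S.P S.Y1 1 w0 b.s1 b.h1))))
    (min (min (k5Z S.P S.Y2 1 128 b.s0 b.h0) (k5Z S.P S.Y2 1 128 b.s0 b.h1))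
      (min (k5Z S.P S.Y2 1 128 b.s1 b.h0) (k5Z S.P S.Y2 1 128 b.s1 b.h1)))
  rw [← hm] at q1
  have q2 := min_le_right (min (min (min (k5Z S.P S.Y0 0 w0 b.s0 b.h0) (k5Z S.P S.Y0 0 w0 b.s0 b.h1))
        (min (k5Z S.P S.Y0 0 w0 b.s1 b.h0) (k5Z S.P S.Y0 0 w0 b.s1 b.h1)))
      (min (min (k5Z S.P S.Y1 1 w0 b.s0 b.h0) (k5Z S.P S.Y1 1 w0 b.s0 b.h1))
        (min (k5Z S.P S.Y1 1 w0 b.s1 b.h0) (k5Z S.P S.Y1 1 w0 b.s1 b.h1))))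
    (min (min (k5Z S.P S.Y2 1 128 b.s0 b.h0) (k5Z S.P S.Y2 1 128 b.s0 b.h1))
      (min (k5Z S.P S.Y2 1 128 b.s1 b.h0) (k5Z S.P S.Y2 1 128 b.s1 b.h1)))
  rw [← hm] at q2
  have q3 := q1.trans (min_le_left _ _)
  have q4 := q1.trans (min_le_right _ _)
  have fin : ∀ {x y z u : ℤ}, m ≤ min (min x y) (min z u) → m ≤ x ∧ m ≤ y ∧ m ≤ z ∧ m ≤ u := by
    intro x y z u hx
    exact ⟨hx.trans ((min_le_left _ _).trans (min_le_left _ _)),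
      hx.trans ((min_le_left _ _).trans (min_le_right _ _)),
      hx.trans ((min_le_right _ _).trans (min_le_left _ _)),
      hx.trans ((min_le_right _ _).trans (min_le_right _ _))⟩
  obtain ⟨a1, a2, a3, a4⟩ := fin q3
  obtain ⟨b1, b2, b3, b4⟩ := fin q4
  obtain ⟨c1, c2, c3, c4⟩ := fin q2
  cases hn with
  | a _ _ =>
    have := k5c S.Y0 0 w0 a1 a2 a3 a4
    rw [show ((Ty.a).n : ℝ) = 0 from rfl, K5_zero _ _ w ((w0 : ℝ) / 128)]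
    simpa using this
  | b _ _ =>
    have := k5c S.Y0 0 w0 a1 a2 a3 a4
    rw [show ((Ty.b).n : ℝ) = 0 from rfl, K5_zero _ _ w ((w0 : ℝ) / 128)]
    simpa using this
  | c =>
    have := k5c S.Y1 1 w0 b1 b2 b3 b4
    rw [show ((Ty.c).n : ℝ) = 1 from rfl]
    simpa using this
  | d =>
    have := k5c S.Y2 1 128 c1 c2 c3 c4
    rw [show ((Ty.c).n : ℝ) = 1 from rfl]
    norm_num at this
    exact this

end Pool.Agent.MP_7c6760_co.Ore
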