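import Pool.Agent.Lib.MP_7c6760_co.OreCert1
import Pool.Agent.Lib.MP_7c6760_co.OreCert2
import Pool.Agent.Lib.MP_7c6760_co.OreCert3
import Pool.Agent.Lib.MP_7c6760_co.OreCert4
import Pool.Agent.Lib.MP_7c6760_co.OreCert5
import Pool.Agent.Lib.MP_7c6760_co.OreCert6
import Pool.Agent.Lib.MP_7c6760_co.OreCert7
import Pool.Agent.Lib.MP_7c6760_co.OreCert8

/-! All boxes together. -/

namespace Pool.Agent.MP_7c6760_co.Ore

theorem c1 : Good ⟨24, 32, 16, 32, 0, 32, 0, 32⟩ :=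
  good_st (m := 24) g3 g4

theorem c2 : Good ⟨16, 32, 16, 32, 0, 32, 0, 32⟩ :=
  good_ss (m := 24) g2 c1

theorem c3 : Good ⟨16, 32, 0, 32, 0, 32, 0, 32⟩ :=
  good_st (m := 16) g1 c2

theorem c4 : Good ⟨0, 32, 0, 32, 0, 32, 0, 32⟩ :=
  good_ss (m := 16) g0 c3

theorem c5 : Good ⟨32, 40, 16, 32, 0, 32, 0, 32⟩ :=
  good_st (m := 24) g6 g7

theorem c6 : Good ⟨32, 48, 16, 32, 0, 32, 0, 32⟩ :=
  good_ss (m := 40) c5 g8

theorem c7 : Good ⟨32, 48, 0, 32, 0, 32, 0, 32⟩ :=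
  good_st (m := 16) g5 c6

theorem c8 : Good ⟨32, 64, 0, 32, 0, 32, 0, 32⟩ :=
  good_ss (m := 48) c7 g9

theorem c9 : Good ⟨0, 64, 0, 32, 0, 32, 0, 32⟩ :=
  good_ss (m := 32) c4 c8

theorem c10 : Good ⟨0, 64, 0, 32, 0, 64, 0, 32⟩ :=
  good_sh (m := 32) c9 g10

theorem c11 : Good ⟨0, 32, 0, 32, 0, 64, 32, 64⟩ :=
  good_sh (m := 32) g11 g12

theorem c12 : Good ⟨32, 40, 0, 16, 0, 16, 32, 64⟩ :=
  good_sg (m := 48) g13 g14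

theorem c13 : Good ⟨40, 48, 0, 16, 0, 16, 32, 64⟩ :=
  good_sg (m := 48) g15 g16

theorem c14 : Good ⟨32, 48, 0, 16, 0, 16, 32, 64⟩ :=
  good_ss (m := 40) c12 c13

theorem c15 : Good ⟨32, 48, 0, 16, 0, 32, 32, 64⟩ :=
  good_sh (m := 16) c14 g17

theorem c16 : Good ⟨32, 48, 0, 32, 0, 32, 32, 64⟩ :=
  good_st (m := 16) c15 g18

theorem c17 : Good ⟨32, 64, 0, 32, 0, 32, 32, 64⟩ :=
  good_ss (m := 48) c16 g19

theorem c18 : Good ⟨32, 64, 0, 32, 0, 64, 32, 64⟩ :=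
  good_sh (m := 32) c17 g20

theorem c19 : Good ⟨0, 64, 0, 32, 0, 64, 32, 64⟩ :=
  good_ss (m := 32) c11 c18

theorem c20 : Good ⟨0, 64, 0, 32, 0, 64, 0, 64⟩ :=
  good_sg (m := 32) c10 c19

theorem c21 : Good ⟨0, 64, 0, 64, 0, 64, 0, 64⟩ :=
  good_st (m := 32) c20 g21

/-- the conclusion holds at all points of the domain -/
theorem concl_all {s t h g : ℝ} (hs : 0 ≤ s) (ht : 0 ≤ t) (hh : 0 ≤ h) (hg : 0 ≤ g)
    (h1 : s + h ≤ 1 / 2) (h2 : t + g ≤ 1 / 2) (hts : t ≤ s) : Concl s t h g := by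
  refine c21 s t h g ⟨?_, ?_, ?_, ?_, ?_, ?_, ?_, ?_⟩ (Or.inl rfl) h1 h2 hts <;> norm_num <;> linarith

end Pool.Agent.MP_7c6760_co.Ore
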