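import Pool.Agent.Lib.MP_7c6760_co.OreReal

/-! The inequality of one side in normalised form. -/

namespace Pool.Agent.MP_7c6760_co.Ore

/-- the left side of the inequality of one side -/
noncomputable def raw (P : Pm ℝ) (ah bh D E π n x1 e1 e2 K : ℝ) : ℝ :=
  2 * (P.L * (n - x1) + P.W / ah * (e1 - (ah + 1 - D) * (n - x1)) + P.P0 * x1 + P.P1 / ah * e1
    - 3 / 2 * (P.B / E) * e2) - P.L + 2 * (P.B / E) * π - ((ah + 1 - D) - 1) * (P.A * E)
    - (2 * ((bh + 1) - π - 1) * (P.M - P.B / E * (bh + 1 + 1) / 2) + 2 * P.M) - π * K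
    - P.B / E * π ^ 2 / 8

/-- the loss of the three kinds -/
noncomputable def kty (P : Pm ℝ) (ah bh D E π n x1 : ℝ) : Ty → ℝ
  | .a => ((ah + 1) - 1) / 2 * (P.P0 + P.P1 / ah * (ah + 1 + 1) / 2)
  | .b => 2 * (D * P.L) - P.B / E * (2 * n - 2 * π - ((bh + 1) - π) * ((ah + 1) - 1))
  | .c => D * P.L - P.B / E / 2 * (n - x1 - 1 - ((bh + 1) - π - 1) * D)

/-- extra term -/
noncomputable def xty : Ty → ℝ
  | .a => 0
  | .b => 1
  | .c => 0

lemma raw_eq (P : Pm ℝ) {ah bh D E : ℝ} (π n x1 e1 e2 : ℝ) (hah : 0 < ah) (hbh : 0 < bh)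
    (hD : 0 < D) (hE : 0 < E) (ty : Ty) :
    raw P ah bh D E π n x1 e1 e2 (kty P ah bh D E π n x1 ty)
      - ah * bh * (GU P 0 ty (π / E) ((π / E) ^ 2) (1 - D / ah) (1 - E / bh) (1 / ah) (1 / bh)
          (2 * x1 / (ah * bh)) (2 * e1 / (ah * bh * D)) (2 * n / (ah * bh) - nu0 (1 / ah) (1 / bh))
          - 3 / 2 * P.B * (2 * e2 / (ah * bh * E)))
      = (bh - π) * (bh + 2) * P.B * (1 / E - 1 / bh) + P.B * π / 8 * (1 - π / E)
        + xty ty * (P.B * (π / E)) * (2 * n - ah * bh * nu0 (1 / ah) (1 / bh)) := by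
  cases ty
  · simp only [raw, kty, xty, GU, cst, cty, nu0, Ty.n]
    field_simp
    ring
  · simp only [raw, kty, xty, GU, cst, cty, nu0, Ty.n]
    field_simp
    ring
  · simp only [raw, kty, xty, GU, cst, cty, nu0, Ty.n]
    field_simp
    ring

end Pool.Agent.MP_7c6760_co.Ore
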