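import Pool.Agent.Lib.MP_7c6760_co.OreUSide
import Pool.Agent.Lib.MP_7c6760_co.OreRaw
import Pool.Agent.Lib.MP_7c6760_co.OreNum

/-! No critical pair satisfies the degree condition. -/

namespace Pool.Agent.MP_7c6760_co

open Finset Ore

noncomputable section

open Classical

set_option linter.unusedSectionVars false

lemma nu0_comm (h g : ℝ) : nu0 h g = nu0 g h := by unfold nu0; ring

lemma exists_max_ty (f : Ty → ℝ) : ∃ ty, ∀ ty', f ty' ≤ f ty := by
  rcases le_total (f .a) (f .b) with h1 | h1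
  · rcases le_total (f .b) (f .c) with h2 | h2
    · exact ⟨.c, fun ty' => by cases ty' <;> linarith⟩
    · exact ⟨.b, fun ty' => by cases ty' <;> linarith⟩
  · rcases le_total (f .a) (f .c) with h2 | h2
    · exact ⟨.c, fun ty' => by cases ty' <;> linarith⟩
    · exact ⟨.a, fun ty' => by cases ty' <;> linarith⟩

lemma str_of {ah bh D n x1 e1 : ℝ} (hah : 0 < ah) (hbh : 0 < bh) (hD : 0 < D) (hn : 0 < n)
    (hx : 0 ≤ x1) (hxn : x1 ≤ n) (he : 0 ≤ e1)
    (c1 : e1 ≤ D * x1) (c3 : (ah + 1 + 1) * x1 ≤ 2 * e1) (c4 : 2 * e1 ≤ ah * (n - x1))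
    (c2 : n * e1 ≤ (ah + 1) * (x1 * (n - x1))) :
    Str (1 - D / ah) (1 / ah) (1 / bh) (2 * x1 / (ah * bh)) (2 * e1 / (ah * bh * D))
      (2 * n / (ah * bh) - nu0 (1 / ah) (1 / bh)) := by
  have hN : 0 < ah * bh := mul_pos hah hbh
  have eq1 : (1 - (1 - D / ah)) * (2 * e1 / (ah * bh * D)) = 2 * e1 / (ah * bh * ah) := by
    field_simp
    ring
  have eq2 : nu0 (1 / ah) (1 / bh) + (2 * n / (ah * bh) - nu0 (1 / ah) (1 / bh))
      = 2 * n / (ah * bh) := by ring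
  refine ⟨by positivity, by positivity, ?_, ?_, ?_, ?_, ?_, ?_⟩
  · rw [div_le_div_iff₀ (mul_pos hN hD) hN]
    have := mul_le_mul_of_nonneg_left c1 (show (0 : ℝ) ≤ 2 * (ah * bh) by positivity)
    linarith
  · rw [eq1]
    have e : (1 / 2 + 1 / ah) * (2 * x1 / (ah * bh)) = (ah + 1 + 1) * x1 / (ah * bh * ah) := by
      field_simp
      ring
    rw [e]
    exact div_le_div_of_nonneg_right c3 (by positivity)
  · rw [eq1, eq2]
    have e : 1 / 2 * (2 * n / (ah * bh) - 2 * x1 / (ah * bh)) = ah * (n - x1) / (ah * bh * ah) := by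
      field_simp
    rw [e]
    exact div_le_div_of_nonneg_right c4 (by positivity)
  · rw [eq1, eq2]
    have e : (1 + 1 / ah) * (2 * x1 / (ah * bh) * (2 * n / (ah * bh) - 2 * x1 / (ah * bh)))
        = 4 * ((ah + 1) * (x1 * (n - x1))) / (ah * (ah * bh) ^ 2) := by
      field_simp
      ring
    have e' : 2 * e1 / (ah * bh * ah) * (2 * n / (ah * bh)) = 4 * (n * e1) / (ah * (ah * bh) ^ 2) := by
      field_simp
      ring
    rw [e, e']
    exact div_le_div_of_nonneg_right (by linarith) (by positivity)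
  · rw [eq2]
    exact div_le_div_of_nonneg_right (by linarith) hN.le
  · rw [eq2]; positivity

lemma adm_hpos {P : Pm ℝ} {bh E s h π : ℝ} (hE : 0 < E)
    (hπ : bh + 2 ≤ 2 * π) (hπE : π ≤ E) (t g : ℝ) (adm : Adm P s t h g) :
    0 ≤ P.M - P.B / E * (bh + 1 + 1) / 2 := by
  have h1 : P.B / E * (bh + 1 + 1) / 2 ≤ P.B / E * π := by
    have h0 : 0 ≤ P.B / E := div_nonneg adm.B0 hE.le
    have := mul_le_mul_of_nonneg_left hπ h0
    linarith
  have h2 : P.B / E * π ≤ P.B := by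
    have h0 : 0 ≤ P.B / E := div_nonneg adm.B0 hE.le
    have := mul_le_mul_of_nonneg_left hπE h0
    rw [div_mul_cancel₀ _ hE.ne'] at this
    exact this
  linarith [adm.BL, adm.LM]

lemma sp_of {a b D E : ℕ} {P : Pm ℝ} {ah bh h : ℝ} (ha' : (a : ℝ) = ah + 1)
    (hb' : (b : ℝ) = bh + 1) (hah : 0 < ah) (hbh : 0 < bh) (hh : h = 1 / ah)
    (hE : (0 : ℝ) < E)
    (adm : Adm P (1 - D / ah) (1 - E / bh) h (1 / bh)) :
    SP a b D E P.L (P.B / E) (P.W / ah) P.P0 (P.P1 / ah) P.M (P.A * E) := by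
  have hE0 := hE.ne'
  refine ⟨adm.L0, div_nonneg adm.B0 hE.le, div_nonneg adm.W0 hah.le, adm.P00,
    div_nonneg adm.P10 hah.le, mul_nonneg adm.A0 hE.le, ?_, ?_, adm.LM, ?_, ?_, ?_, ?_⟩
  · rw [div_mul_cancel₀ _ hE0]; exact adm.BL
  · have h1 := adm.WL
    have e : P.W / ah * D = P.W * (1 - (1 - D / ah)) := by field_simp; ring
    rw [e]; exact h1
  · have h1 := adm.PM
    have e : P.P1 / ah * D = (1 - (1 - D / ah)) * P.P1 := by field_simp; ring
    rw [e]; exact h1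
  · have h1 := adm.fM
    have e : P.W / ah * (((a : ℝ) - 1) / 2 - (a - D)) = P.W * (1 / 2 - (1 - D / ah) - h) := by
      rw [ha', hh]; field_simp; ring
    rw [e]; exact h1
  · have := mul_le_mul_of_nonneg_left adm.MA hE.le
    linarith
  · have h1 := adm.A1
    rw [hb']
    have e : P.A * E - (bh + 1 - 1) * (P.M - P.B / E * (bh + 1 + 1) / 2)
        = bh ^ 2 / E * ((1 - (1 - E / bh)) ^ 2 * P.A - (1 - (1 - E / bh)) * P.M
          + P.B * (1 / 2 + 1 / bh)) := by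
      field_simp; ring
    have h2 : 0 ≤ bh ^ 2 / E := by positivity
    have h3 := mul_nonneg h2 h1
    linarith

lemma vv_le {P : Pm ℝ} {bh E s h π : ℝ} (hbh : 0 < bh) (hE : 0 < E) (hπ : bh + 2 ≤ 2 * π)
    (hπE : π ≤ E) (adm : Adm P s (1 - E / bh) h (1 / bh)) :
    2 * ((bh + 1) - π - 1) * (P.M - P.B / E * (bh + 1 + 1) / 2) + 2 * P.M ≤ P.A * E + P.L := by
  have hpos := adm_hpos hE hπ hπE _ _ adm
  have h1 : 2 * ((bh + 1) - π - 1) * (P.M - P.B / E * (bh + 1 + 1) / 2)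
      ≤ (bh - 2) * (P.M - P.B / E * (bh + 1 + 1) / 2) :=
    mul_le_mul_of_nonneg_right (by linarith) hpos
  have h2 := adm.A2
  have e : P.A * E + P.L - ((bh - 2) * (P.M - P.B / E * (bh + 1 + 1) / 2) + 2 * P.M)
      = bh ^ 2 / E * ((1 - (1 - E / bh)) ^ 2 * P.A + (1 - (1 - E / bh)) * P.L * (1 / bh)
        - (1 - (1 - E / bh)) * P.M + P.B * (1 / 2 - 2 * (1 / bh) ^ 2)) := by
    field_simp; ring
  have h3 : 0 ≤ bh ^ 2 / E := by positivity
  have h4 := mul_nonneg h3 h2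
  linarith

variable {V : Type*} [Fintype V]

variable {G G2 H : SimpleGraph V} {a b D E : ℕ}

/-- one side, normalised -/
lemma side_norm (hcr : Crit G G2) (ha : OreLe G a) (hb : OreLe G2 b)
    (hn : a * b < 2 * Fintype.card V) (hD : ∀ x, dg G x ≤ D) (hDex : ∃ v, dg G v = D)
    (hE : ∀ x, dg G2 x ≤ E) {ah bh : ℝ} (ha' : (a : ℝ) = ah + 1) (hb' : (b : ℝ) = bh + 1)
    (hah : 0 < ah) (hbh : 0 < bh) (hD0 : (0 : ℝ) < D) (hE0 : (0 : ℝ) < E) (hEb : (E : ℝ) ≤ bh) :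
    ∃ w : ℝ, 1 / 2 + 1 / bh ≤ w ∧ w ≤ 1 ∧ ∀ P : Pm ℝ,
      Adm P (1 - D / ah) (1 - E / bh) (1 / ah) (1 / bh) → ∃ ty : Ty,
      GU P 0 ty w (w ^ 2) (1 - D / ah) (1 - E / bh) (1 / ah) (1 / bh)
        (2 * (hiF G b).card / (ah * bh)) (2 * eF G b / (ah * bh * D))
        (2 * Fintype.card V / (ah * bh) - nu0 (1 / ah) (1 / bh))
        - 3 / 2 * P.B * (2 * eF G2 a / (ah * bh * E)) ≤ 0 := by
  obtain ⟨π, hπ1, hπ2, hU⟩ := sideU hcr ha hb hn hD hDex hE
  have hπ1' : bh + 2 ≤ 2 * (π : ℝ) := by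
    have : ((b + 1 : ℕ) : ℝ) ≤ ((2 * π : ℕ) : ℝ) := by exact_mod_cast hπ1
    push_cast at this
    linarith
  have hπ2' : (π : ℝ) ≤ E := by exact_mod_cast hπ2
  have hπ0 : (0 : ℝ) < π := by linarith
  refine ⟨π / E, ?_, ?_, ?_⟩
  · have e : 1 / 2 + 1 / bh = (bh + 2) / 2 / bh := by field_simp
    rw [e, div_le_div_iff₀ hbh hE0]
    nlinarith
  · rw [div_le_one hE0]; exact hπ2'
  · intro P adm
    obtain ⟨ty, hty⟩ := exists_max_ty (kty P ah bh D E π (Fintype.card V) (hiF G b).card)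
    refine ⟨ty, ?_⟩
    have sp := sp_of (D := D) ha' hb' hah hbh rfl hE0 adm
    have hvv := vv_le hbh hE0 hπ1' hπ2' adm
    have ka := hty .a
    have kb := hty .b
    have kc := hty .c
    have key := hU P.L (P.B / E) (P.W / ah) P.P0 (P.P1 / ah) P.M (P.A * E)
      (2 * ((b : ℝ) - π - 1) * (P.M - P.B / E * (b + 1) / 2) + 2 * P.M)
      (kty P ah bh D E π (Fintype.card V) (hiF G b).card ty) sp (le_refl _)
      (by rw [hb']; exact hvv)
      (by rw [ha']; exact ka)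
      (by rw [ha', hb']; exact kb)
      (by rw [hb']; exact kc)
    have key2 : raw P ah bh D E π (Fintype.card V) (hiF G b).card (eF G b) (eF G2 a)
        (kty P ah bh D E π (Fintype.card V) (hiF G b).card ty) ≤ 0 := by
      rw [ha', hb'] at key
      unfold raw
      linarith
    have req := raw_eq P (π : ℝ) (Fintype.card V : ℝ) ((hiF G b).card : ℝ) (eF G b : ℝ)
      (eF G2 a : ℝ) hah hbh hD0 hE0 ty
    have hνpos : 0 ≤ 2 * (Fintype.card V : ℝ) - ah * bh * nu0 (1 / ah) (1 / bh) := by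
      have h1 : ((a * b + 1 : ℕ) : ℝ) ≤ ((2 * Fintype.card V : ℕ) : ℝ) := by exact_mod_cast hn
      push_cast at h1
      rw [ha', hb'] at h1
      have e : ah * bh * nu0 (1 / ah) (1 / bh) = ah * bh + bh + ah + 15 / 8 := by
        unfold nu0; field_simp
      rw [e]; nlinarith
    have t1 : 0 ≤ (bh - π) * (bh + 2) * P.B * (1 / E - 1 / bh) := by
      have h1 : 0 ≤ 1 / (E : ℝ) - 1 / bh := sub_nonneg.mpr (one_div_le_one_div_of_le hE0 hEb)
      have h2 : 0 ≤ bh - π := by linarith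
      exact mul_nonneg (mul_nonneg (mul_nonneg h2 (by linarith)) adm.B0) h1
    have t2 : 0 ≤ P.B * π / 8 * (1 - π / E) := by
      have h1 : 0 ≤ 1 - (π : ℝ) / E := sub_nonneg.mpr ((div_le_one hE0).mpr hπ2')
      have := adm.B0
      positivity
    have t3 : 0 ≤ xty ty * (P.B * (π / E))
        * (2 * (Fintype.card V : ℝ) - ah * bh * nu0 (1 / ah) (1 / bh)) := by
      have h1 : 0 ≤ xty ty := by cases ty <;> simp [xty]
      have := adm.B0
      exact mul_nonneg (by positivity) hνpos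
    by_contra hcon
    push Not at hcon
    have h5 := mul_pos (mul_pos hah hbh) hcon
    linarith

theorem ore_core (hcr : Crit G G2) (ha : OreLe G a) (hb : OreLe G2 b)
    (hn : a * b < 2 * Fintype.card V) (hD : ∀ x, dg G x ≤ D) (hDex : ∃ v, dg G v = D)
    (hE : ∀ x, dg G2 x ≤ E) (hEex : ∃ v, dg G2 v = E)
    (hst : 1 - (E : ℝ) / ((b : ℝ) - 1) ≤ 1 - (D : ℝ) / ((a : ℝ) - 1)) : False := by
  obtain ⟨ah, ha'⟩ : ∃ ah : ℝ, ah = (a : ℝ) - 1 := ⟨_, rfl⟩
  obtain ⟨bh, hb'⟩ : ∃ bh : ℝ, bh = (b : ℝ) - 1 := ⟨_, rfl⟩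
  rw [← ha', ← hb'] at hst
  have hn' : b * a < 2 * Fintype.card V := by rw [mul_comm]; exact hn
  -- sizes
  have hDa : a + 1 ≤ 2 * D ∧ D + 1 ≤ a := by
    obtain ⟨x, y, hx, _⟩ := hcr.no G2 (IsCopy.refl G2)
    obtain ⟨v, hv⟩ := hDex
    have h1 := ha x y hx
    have h2 := dg_pos_of_adj hx
    have h3 := ha.dg_le v
    rcases hcr.hi1 ha hb hn hx with h | h
    · have := hi1_deg (G := G) hn h.1
      have := hD x
      omega
    · have := hi1_deg (G := G) hn h.2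
      have := hD y
      omega
  have hEb : b + 1 ≤ 2 * E ∧ E + 1 ≤ b := by
    obtain ⟨x, y, _, hy⟩ := hcr.no G2 (IsCopy.refl G2)
    obtain ⟨v, hv⟩ := hEex
    have h1 := hb x y hy
    have h2 := dg_pos_of_adj hy
    have h3 := hb.dg_le v
    rcases hcr.symm.hi1 hb ha hn' hy with h | h
    · have := hi1_deg (G := G2) hn' h.1
      have := hE x
      omega
    · have := hi1_deg (G := G2) hn' h.2
      have := hE y
      omega
  have rD1 : (a : ℝ) + 1 ≤ 2 * D := by exact_mod_cast hDa.1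
  have rD2 : (D : ℝ) + 1 ≤ a := by exact_mod_cast hDa.2
  have rE1 : (b : ℝ) + 1 ≤ 2 * E := by exact_mod_cast hEb.1
  have rE2 : (E : ℝ) + 1 ≤ b := by exact_mod_cast hEb.2
  have hah : 0 < ah := by linarith
  have hbh : 0 < bh := by linarith
  have hD0 : (0 : ℝ) < D := by linarith
  have hE0 : (0 : ℝ) < E := by linarith
  have ea : (a : ℝ) = ah + 1 := by linarith
  have eb : (b : ℝ) = bh + 1 := by linarith
  -- counts
  obtain ⟨p1, p2, p3, p4⟩ := count_ineqs hcr ha hb hn hD (by omega)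
  obtain ⟨q1, q2, q3, q4⟩ := count_ineqs hcr.symm hb ha hn' hE (by omega)
  have hVpos : (0 : ℝ) < Fintype.card V := by
    obtain ⟨v, _⟩ := hDex
    exact_mod_cast Fintype.card_pos_iff.mpr ⟨v⟩
  have x1n : ((hiF G b).card : ℝ) ≤ Fintype.card V := by exact_mod_cast Finset.card_le_univ _
  have x2n : ((hiF G2 a).card : ℝ) ≤ Fintype.card V := by exact_mod_cast Finset.card_le_univ _
  rw [ea] at p1 p3 p4
  rw [eb] at q1 q3 q4
  have S1 : Str (1 - D / ah) (1 / ah) (1 / bh) (2 * (hiF G b).card / (ah * bh))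
      (2 * eF G b / (ah * bh * D))
      (2 * Fintype.card V / (ah * bh) - nu0 (1 / ah) (1 / bh)) :=
    str_of hah hbh hD0 hVpos (Nat.cast_nonneg _) x1n (Nat.cast_nonneg _) p2 p1
      (by linarith) p4
  have S2 : Str (1 - E / bh) (1 / bh) (1 / ah) (2 * (hiF G2 a).card / (bh * ah))
      (2 * eF G2 a / (bh * ah * E))
      (2 * Fintype.card V / (bh * ah) - nu0 (1 / bh) (1 / ah)) :=
    str_of hbh hah hE0 hVpos (Nat.cast_nonneg _) x2n (Nat.cast_nonneg _) q2 q1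
      (by linarith) q4
  -- the certificate
  have c1 : 0 ≤ 1 - (D : ℝ) / ah := by
    rw [sub_nonneg, div_le_one hah]; linarith
  have c2 : 0 ≤ 1 - (E : ℝ) / bh := by
    rw [sub_nonneg, div_le_one hbh]; linarith
  have c3 : 1 - (D : ℝ) / ah + 1 / ah ≤ 1 / 2 := by
    have e : 1 - (D : ℝ) / ah + 1 / ah = (ah - D + 1) / ah := by field_simp
    rw [e, div_le_div_iff₀ hah (by norm_num)]; linarith
  have c4 : 1 - (E : ℝ) / bh + 1 / bh ≤ 1 / 2 := by
    have e : 1 - (E : ℝ) / bh + 1 / bh = (bh - E + 1) / bh := by field_simp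
    rw [e, div_le_div_iff₀ hbh (by norm_num)]; linarith
  obtain ⟨P, P', adm, adm', hconcl⟩ := concl_all c1 c2 (by positivity : (0 : ℝ) ≤ 1 / ah)
    (by positivity : (0 : ℝ) ≤ 1 / bh) c3 c4 hst
  obtain ⟨w, w1, w2, hw⟩ := side_norm hcr ha hb hn hD hDex hE ea eb hah hbh hD0 hE0
    (by linarith)
  obtain ⟨w', w1', w2', hw'⟩ := side_norm hcr.symm hb ha hn' hE hEex hD eb ea hbh hah hE0 hD0
    (by linarith)
  obtain ⟨ty, hty⟩ := hw P adm
  obtain ⟨ty', hty'⟩ := hw' P' adm'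
  rw [mul_comm bh ah, nu0_comm (1 / bh) (1 / ah)] at S2 hty'
  have hν : 0 < 2 * (Fintype.card V : ℝ) / (ah * bh) - nu0 (1 / ah) (1 / bh) := by
    have h1 : ((a * b + 1 : ℕ) : ℝ) ≤ ((2 * Fintype.card V : ℕ) : ℝ) := by exact_mod_cast hn
    push_cast at h1
    rw [ea, eb] at h1
    have e : 2 * (Fintype.card V : ℝ) / (ah * bh) - nu0 (1 / ah) (1 / bh)
        = (2 * (Fintype.card V : ℝ) - (ah * bh + bh + ah + 15 / 8)) / (ah * bh) := by
      unfold nu0; field_simp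
    rw [e]
    exact div_pos (by nlinarith) (mul_pos hah hbh)
  have fin := hconcl _ _ _ _ _ hν S1 S2 ty ty' w w' w1 w2 w1' w2'
  have g1 : GU P P'.B ty w (w ^ 2) (1 - D / ah) (1 - E / bh) (1 / ah) (1 / bh)
        (2 * (hiF G b).card / (ah * bh)) (2 * eF G b / (ah * bh * D))
        (2 * Fintype.card V / (ah * bh) - nu0 (1 / ah) (1 / bh))
      = GU P 0 ty w (w ^ 2) (1 - D / ah) (1 - E / bh) (1 / ah) (1 / bh)
        (2 * (hiF G b).card / (ah * bh)) (2 * eF G b / (ah * bh * D))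
        (2 * Fintype.card V / (ah * bh) - nu0 (1 / ah) (1 / bh))
        - 3 / 2 * P'.B * (2 * eF G b / (ah * bh * D)) := by
    unfold GU; ring
  have g2 : GU P' P.B ty' w' (w' ^ 2) (1 - E / bh) (1 - D / ah) (1 / bh) (1 / ah)
        (2 * (hiF G2 a).card / (ah * bh)) (2 * eF G2 a / (ah * bh * E))
        (2 * Fintype.card V / (ah * bh) - nu0 (1 / ah) (1 / bh))
      = GU P' 0 ty' w' (w' ^ 2) (1 - E / bh) (1 - D / ah) (1 / bh) (1 / ah)
        (2 * (hiF G2 a).card / (ah * bh)) (2 * eF G2 a / (ah * bh * E))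
        (2 * Fintype.card V / (ah * bh) - nu0 (1 / ah) (1 / bh))
        - 3 / 2 * P.B * (2 * eF G2 a / (ah * bh * E)) := by
    unfold GU; ring
  rw [g1, g2] at fin
  linarith

theorem ore_main (hcr : Crit G G2) (ha : OreLe G a) (hb : OreLe G2 b)
    (hn : a * b < 2 * Fintype.card V) : False := by
  obtain ⟨x, y, hx, hy⟩ := hcr.no G2 (IsCopy.refl G2)
  obtain ⟨v, _, hv⟩ := Finset.exists_max_image (univ : Finset V) (fun x => dg G x) ⟨x, mem_univ _⟩
  obtain ⟨v', _, hv'⟩ := Finset.exists_max_image (univ : Finset V) (fun x => dg G2 x)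
    ⟨x, mem_univ _⟩
  rcases le_total (1 - (dg G2 v' : ℝ) / ((b : ℝ) - 1)) (1 - (dg G v : ℝ) / ((a : ℝ) - 1)) with h | h
  · exact ore_core hcr ha hb hn (fun x => hv x (mem_univ _)) ⟨v, rfl⟩
      (fun x => hv' x (mem_univ _)) ⟨v', rfl⟩ h
  · exact ore_core hcr.symm hb ha (by rw [mul_comm]; exact hn) (fun x => hv' x (mem_univ _))
      ⟨v', rfl⟩ (fun x => hv x (mem_univ _)) ⟨v, rfl⟩ h

/-- a pair of graphs with `a * b < 2 n` packs -/
theorem ore_pack (ha : OreLe G a) (hb : OreLe G2 b) (hn : a * b < 2 * Fintype.card V) :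
    ¬ NoPack G G2 := by
  intro hno
  obtain ⟨K, L, hcr, hK, hL⟩ := exists_crit hno ha hb
  exact ore_main hcr hK hL hn

end

end Pool.Agent.MP_7c6760_co
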