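import Pool.Agent.Lib.MP_7c6760_co.OreNear

/-! A placement with all conflicts at one vertex, chosen to minimise a potential, and the two
inequalities which it satisfies. -/

namespace Pool.Agent.MP_7c6760_co

open Finset

noncomputable section

open Classical

set_option linter.unusedSectionVars false

variable {V : Type*} [Fintype V]

variable {G G2 H : SimpleGraph V} {q u v w x y z : V} {a b D : ℕ}

/-- the placement -/
structure NM (G G2 H : SimpleGraph V) (a b : ℕ) (u : V) (D : ℕ) : Prop where
  copy : IsCopy G2 H
  atu : AtQ G H u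
  maxD : ∀ x, dg G x ≤ D
  exD : ∃ v, dg G v = D
  du : dg G u + D ≤ a
  lo1 : b * dg G u < Fintype.card V
  hi2 : Fintype.card V ≤ a * dg H u
  mini : ∀ H', IsCopy G2 H' → AtQ G H' u → dg H' u = dg H u →
    ∑ y ∈ nb H u, dg G y ≤ ∑ y ∈ nb H' u, dg G y

lemma exists_NM (hcr : Crit G G2) (ha : OreLe G a) (hb : OreLe G2 b)
    (hn : a * b < 2 * Fintype.card V) : ∃ (D : ℕ) (u : V) (H : SimpleGraph V),
      NM G G2 H a b u D := by
  obtain ⟨x0, y0, hx0, _⟩ := hcr.no G2 (IsCopy.refl G2)
  obtain ⟨v, _, hv⟩ := Finset.exists_max_image (univ : Finset V) (fun x => dg G x) ⟨x0, mem_univ _⟩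
  have hvD : 0 < dg G v := lt_of_lt_of_le (dg_pos_of_adj hx0) (hv x0 (mem_univ _))
  obtain ⟨u, hu⟩ := Finset.card_pos.mp (show 0 < (nb G v).card from hvD)
  have huv : G.Adj u v := by have : G.Adj v u := by simpa using hu
                             exact this.symm
  obtain ⟨H0, hc0, hone⟩ := hcr.left u v huv
  have hdich := dich hcr.no ha hb hn hc0 hone
  have hlo : b * dg G u < Fintype.card V ∧ Fintype.card V ≤ a * dg H0 u := by
    rcases hdich with h | h
    · exfalso
      have h1 : dg G u ≤ dg G v := hv u (mem_univ _)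
      have h2 : b * dg G u ≤ b * dg G v := Nat.mul_le_mul_left b h1
      omega
    · exact ⟨h.1, h.2.2.1⟩
  have hat0 : AtQ G H0 u := by
    intro x y hx hy
    rcases hone.2.2 x y hx hy with h | h
    · exact Or.inl h.1
    · exact Or.inr h.2
  -- minimal potential
  let P : ℕ → Prop := fun k => ∃ H', IsCopy G2 H' ∧ AtQ G H' u ∧ dg H' u = dg H0 u ∧
    ∑ y ∈ nb H' u, dg G y = k
  have hP : ∃ k, P k := ⟨_, H0, hc0, hat0, rfl, rfl⟩
  obtain ⟨H, hc, hat, hd, hk⟩ := Nat.find_spec hP
  refine ⟨dg G v, u, H, hc, hat, fun x => hv x (mem_univ _), ⟨v, rfl⟩, ha u v huv, hlo.1, ?_, ?_⟩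
  · rw [hd]; exact hlo.2
  · intro H' hc' hat' hd'
    rw [hk]
    exact Nat.find_min' hP ⟨H', hc', hat', hd'.trans hd, rfl⟩

/-- exchange argument with the potential -/
lemma NM.pot (h : NM G G2 H a b u D) (hy : H.Adj u y) (hyhi : Fintype.card V ≤ b * dg G y) :
    Fintype.card V ≤ (univ.filter (fun x => Fintype.card V ≤ b * dg G x)).card + 1
      + ((nb H u).filter (fun x => b * dg G x < Fintype.card V)).card
      + (dg H y - 1) * D + ∑ p ∈ (nb G y).erase u, dg H p := by
  set n := Fintype.card V with hn
  set Z : Finset V := (univ.filter (fun x => b * dg G x < n)) \ (insert u (nb H u)) with hZ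
  have hyu : y ≠ u := hy.ne'
  -- conflicts
  have key : ∀ z ∈ Z, z ∈ ((nb H y).erase u).biUnion (fun p => nb G p) ∪
      ((nb G y).erase u).biUnion (fun p => nb H p) := by
    intro z hz
    rw [hZ, mem_sdiff, mem_filter, mem_insert, mem_nb, not_or] at hz
    obtain ⟨⟨_, hzlo⟩, hzu, hzn⟩ := hz
    have hzy : z ≠ y := by
      rintro rfl; omega
    have hnot : ¬ AtQ G (sw H y z) u := by
      intro hat
      have hd : dg (sw H y z) u = dg H u := dg_sw_of_ne hyu.symm (Ne.symm hzu)
      have hmin := h.mini _ (h.copy.sw y z) hat hd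
      have hnb : nb (sw H y z) u = insert z ((nb H u).erase y) := by
        ext x
        simp only [mem_nb, mem_insert, mem_erase, sw_adj]
        rw [Equiv.swap_apply_of_ne_of_ne hyu.symm (Ne.symm hzu)]
        by_cases hxz : x = z
        · subst hxz; simp [hy]
        · by_cases hxy : x = y
          · subst hxy
            rw [Equiv.swap_apply_left]
            simp [hxz, hzn]
          · rw [Equiv.swap_apply_of_ne_of_ne hxy hxz]
            simp [hxz, hxy]
      have hznot : z ∉ (nb H u).erase y := by
        simp only [mem_erase, mem_nb, not_and]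
        exact fun _ => hzn
      rw [hnb, Finset.sum_insert hznot] at hmin
      have hymem : y ∈ nb H u := by simpa using hy
      rw [← Finset.add_sum_erase (nb H u) (fun y => dg G y) hymem] at hmin
      have h1 : dg G y ≤ dg G z := by omega
      have h2 : b * dg G y ≤ b * dg G z := Nat.mul_le_mul_left b h1
      omega
    unfold AtQ at hnot
    push Not at hnot
    obtain ⟨p, r, hG, hH, hpu, hru⟩ := hnot
    rw [sw_adj] at hH
    have noyz : ¬ (G.Adj y z ∧ H.Adj y z) := by
      rintro ⟨h1, h2⟩
      rcases h.atu y z h1 h2 with h' | h'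
      · exact hyu h'
      · exact hzu h'
    rw [mem_union, mem_biUnion, mem_biUnion]
    by_cases hpy : p = y
    · subst hpy
      rw [Equiv.swap_apply_left] at hH
      by_cases hrz : r = z
      · subst hrz
        rw [Equiv.swap_apply_right] at hH
        exact absurd ⟨hG, hH.symm⟩ noyz
      · rw [Equiv.swap_apply_of_ne_of_ne hG.ne' hrz] at hH
        right
        exact ⟨r, by simp [hru, hG], by simpa using hH.symm⟩
    · by_cases hpz : p = z
      · subst hpz
        rw [Equiv.swap_apply_right] at hH
        by_cases hry : r = y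
        · subst hry
          rw [Equiv.swap_apply_left] at hH
          exact absurd ⟨hG.symm, hH⟩ noyz
        · rw [Equiv.swap_apply_of_ne_of_ne hry hG.ne'] at hH
          left
          exact ⟨r, by simp [hru, hH], by simpa using hG.symm⟩
      · rw [Equiv.swap_apply_of_ne_of_ne hpy hpz] at hH
        by_cases hry : r = y
        · subst hry
          rw [Equiv.swap_apply_left] at hH
          right
          exact ⟨p, by simp [hpu, hG.symm], by simpa using hH⟩
        · by_cases hrz : r = z
          · subst hrz
            rw [Equiv.swap_apply_right] at hH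
            left
            exact ⟨p, by simp [hpu, hH.symm], by simpa using hG⟩
          · rw [Equiv.swap_apply_of_ne_of_ne hry hrz] at hH
            rcases h.atu p r hG hH with h' | h'
            · exact absurd h' hpu
            · exact absurd h' hru
  have hcard1 : Z.card ≤ ∑ p ∈ (nb H y).erase u, dg G p + ∑ p ∈ (nb G y).erase u, dg H p := by
    refine (Finset.card_le_card key).trans ((Finset.card_union_le _ _).trans ?_)
    exact Nat.add_le_add Finset.card_biUnion_le Finset.card_biUnion_le
  have hcard2 : ∑ p ∈ (nb H y).erase u, dg G p ≤ (dg H y - 1) * D := by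
    have h1 : ((nb H y).erase u).card = dg H y - 1 := by
      rw [Finset.card_erase_of_mem (by simpa using hy.symm)]; rfl
    rw [← h1, ← smul_eq_mul, ← Finset.sum_const]
    exact Finset.sum_le_sum (fun p _ => h.maxD p)
  -- the size of Z
  have hcard3 : n ≤ (univ.filter (fun x => n ≤ b * dg G x)).card + 1
      + ((nb H u).filter (fun x => b * dg G x < n)).card + Z.card := by
    have hcov : (univ : Finset V) ⊆ (univ.filter (fun x => n ≤ b * dg G x)) ∪ {u}
        ∪ ((nb H u).filter (fun x => b * dg G x < n)) ∪ Z := by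
      intro x _
      simp only [mem_union, mem_filter, mem_univ, true_and, mem_singleton, mem_nb, hZ, mem_sdiff,
        mem_insert, not_or]
      by_cases h1 : n ≤ b * dg G x
      · left; left; left; exact h1
      · push Not at h1
        by_cases h2 : x = u
        · left; left; right; exact h2
        · by_cases h3 : H.Adj u x
          · left; right; exact ⟨h3, h1⟩
          · right; exact ⟨h1, h2, h3⟩
    have h4 := Finset.card_le_card hcov
    rw [Finset.card_univ] at h4
    have h5 := Finset.card_union_le ((univ.filter (fun x => n ≤ b * dg G x)) ∪ {u}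
        ∪ ((nb H u).filter (fun x => b * dg G x < n))) Z
    have h6 := Finset.card_union_le ((univ.filter (fun x => n ≤ b * dg G x)) ∪ {u})
        ((nb H u).filter (fun x => b * dg G x < n))
    have h7 := Finset.card_union_le (univ.filter (fun x => n ≤ b * dg G x)) {u}
    rw [Finset.card_singleton] at h7
    omega
  omega

/-- the inequality for a neighbour which blocks alone -/
lemma single_ineq (hcr : Crit G G2) (ha : OreLe G a) (hb : OreLe G2 b)
    (hn : a * b < 2 * Fintype.card V) (hc : IsCopy G2 H) (hi2 : Fintype.card V ≤ a * dg H u)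
    (hwu : w ≠ u) (hyu : y ≠ u) (hone : One G (sw H u w) w y)
    (t2 : V → Prop) (ht2 : ∀ x, t2 x ↔ Fintype.card V ≤ a * dg H x) :
    2 * Fintype.card V ≤ ∑ x ∈ (nb G y).erase u, (if t2 x then 2 else 1) * dg H x
      + 2 * dg H u + dg H y * (a - 1) := by
  set n := Fintype.card V with hnV
  set H' := sw H u w with hH'
  have hc' : IsCopy G2 H' := hc.sw u w
  have hyw : y ≠ w := hone.1.ne'
  have dw : dg H' w = dg H u := dg_sw_right
  have du : dg H' u = dg H w := dg_sw_left
  have dy : dg H' y = dg H y := dg_sw_of_ne hyu hyw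
  have hd := dich hcr.no ha hb hn hc' hone
  rw [dw, dy] at hd
  have hd' : b * dg G w < n ∧ n ≤ b * dg G y ∧ n ≤ a * dg H u ∧ a * dg H y < n := by
    rcases hd with h | h
    · exfalso; omega
    · exact h
  obtain ⟨tA, htA⟩ : ∃ tA : V → Prop, ∀ x, tA x ↔ n ≤ a * dg H' x := ⟨_, fun _ => Iff.rfl⟩
  obtain ⟨tB, htB⟩ : ∃ tB : V → Prop, ∀ x, tB x ↔ b * dg G x < n := ⟨_, fun _ => Iff.rfl⟩
  have tAw : tA w := by rw [htA, dw]; exact hi2
  have hmain := master_full hcr.no hc' hone.symm tA tB tAw
    (by rw [htB]; exact hd'.1) ?_ ?_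
  · -- first sum
    have hB : ∑ x ∈ nb H' y, (if tB x then 2 else 1) * dg G x ≤ dg H y * (a - 1) := by
      rw [← dy]
      refine sum_ite_le (s := nb H' y) (t := tB) (f := fun x => dg G x)
        (M := a - 1) (fun x _ ht => hcr.lo1 ha hb hn ((htB x).mp ht)) (fun x _ _ => ha.dg_le x)
    have hA : ∑ x ∈ nb G y, (if tA x then 2 else 1) * dg H' x
        ≤ ∑ x ∈ (nb G y).erase u, (if t2 x then 2 else 1) * dg H x + 2 * dg H u := by
      have same : ∀ x, x ≠ u → x ≠ w → (if tA x then 2 else 1) * dg H' x
          = (if t2 x then 2 else 1) * dg H x := by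
        intro x h1 h2
        have h3 : dg H' x = dg H x := dg_sw_of_ne h1 h2
        have h4 : tA x ↔ t2 x := by rw [htA, ht2, h3]
        rw [h3]
        by_cases h5 : tA x
        · rw [if_pos h5, if_pos (h4.mp h5)]
        · rw [if_neg h5, if_neg (fun h6 => h5 (h4.mpr h6))]
      have su : (if tA u then 2 else 1) * dg H' u = (if t2 w then 2 else 1) * dg H w := by
        have h4 : tA u ↔ t2 w := by rw [htA, ht2, du]
        rw [du]
        by_cases h5 : tA u
        · rw [if_pos h5, if_pos (h4.mp h5)]
        · rw [if_neg h5, if_neg (fun h6 => h5 (h4.mpr h6))]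
      have hwmem : w ∈ nb G y := by simpa using hone.1.symm
      rw [← Finset.add_sum_erase (nb G y) _ hwmem, dw, if_pos tAw, add_comm]
      refine Nat.add_le_add ?_ (le_refl _)
      by_cases hu : u ∈ nb G y
      · have hu' : u ∈ (nb G y).erase w := mem_erase.mpr ⟨hwu.symm, hu⟩
        have hw' : w ∈ (nb G y).erase u := mem_erase.mpr ⟨hwu, hwmem⟩
        rw [← Finset.add_sum_erase ((nb G y).erase w) _ hu', su,
          ← Finset.add_sum_erase ((nb G y).erase u) _ hw', Finset.erase_right_comm]
        refine Nat.add_le_add (le_refl _) (le_of_eq (Finset.sum_congr rfl (fun x hx => ?_)))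
        simp only [mem_erase] at hx
        exact same x hx.2.1 hx.1
      · have h1 : (nb G y).erase u = nb G y := Finset.erase_eq_of_notMem hu
        rw [h1]
        calc ∑ x ∈ (nb G y).erase w, (if tA x then 2 else 1) * dg H' x
            = ∑ x ∈ (nb G y).erase w, (if t2 x then 2 else 1) * dg H x := by
              refine Finset.sum_congr rfl (fun x hx => ?_)
              simp only [mem_erase] at hx
              have hxu : x ≠ u := by rintro rfl; exact hu hx.2
              exact same x hxu hx.1
          _ ≤ _ := Finset.sum_le_sum_of_subset (Finset.erase_subset _ _)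
    omega
  · intro w' hw'y hw'w x hx1 hx2 hone'
    rw [htA]
    have h1 := dich hcr.no ha hb hn (hc'.sw y w') hone'
    have h2 : dg (sw H' y w') x = dg H' x := dg_sw_of_ne hx1.ne' hx2.ne'
    rw [h2] at h1
    rcases h1 with h | h
    · exact h.2.2.2
    · exfalso; omega
  · intro w' hw'y hw'w x hx1 hx2 hone'
    rw [htB]
    have h1 := dich hcr.no ha hb hn (hc'.sw y w') hone'
    have h2 : dg (sw H' y w') w' = dg H' y := dg_sw_right
    rw [h2, dy] at h1
    rcases h1 with h | h
    · exact h.2.1
    · exfalso; omega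

end

end Pool.Agent.MP_7c6760_co
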