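import Pool.Agent.Lib.MP_7c6760_co.Near
import Pool.Agent.Lib.MP_7c6760_co.Critical

/-! Placements all of whose conflicts are at one vertex, minimal with respect to a potential. -/

namespace Pool.Agent.MP_7c6760_co

open Finset

noncomputable section

open Classical

set_option linter.unusedSectionVars false

variable {V : Type*} [Fintype V]

variable {G G2 H : SimpleGraph V} {q u v w x y z : V} {a b : ℕ}

lemma oneA (h : AtQ G H q) (hwq : w ≠ q) (hw : ¬ (G.Adj q w ∧ H.Adj q w))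
    (hx1 : G.Adj q x) (hx2 : H.Adj w x)
    (hA : ∀ z, G.Adj q z → H.Adj w z → z = x) (hB : ∀ z, H.Adj q z → ¬ G.Adj w z) :
    One G (sw H q w) q x := by
  refine ⟨hx1, ?_, ?_⟩
  · rw [sw_adj, Equiv.swap_apply_left, Equiv.swap_apply_of_ne_of_ne hx1.ne' hx2.ne']
    exact hx2
  · intro a b hab1 hab2
    rcases conf_near h hwq hw hab1 hab2 with h' | h' | h' | h'
    · obtain ⟨rfl, h3⟩ := h'
      exact Or.inl ⟨rfl, hA _ hab1 h3⟩
    · obtain ⟨rfl, h3⟩ := h'
      exact Or.inr ⟨hA _ hab1.symm h3, rfl⟩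
    · obtain ⟨rfl, h3⟩ := h'
      exact absurd hab1 (hB _ h3)
    · obtain ⟨rfl, h3⟩ := h'
      exact absurd hab1.symm (hB _ h3)

lemma oneB (h : AtQ G H q) (hwq : w ≠ q) (hw : ¬ (G.Adj q w ∧ H.Adj q w))
    (hx1 : H.Adj q x) (hx2 : G.Adj w x)
    (hA : ∀ z, G.Adj q z → ¬ H.Adj w z) (hB : ∀ z, H.Adj q z → G.Adj w z → z = x) :
    One G (sw H q w) w x := by
  refine ⟨hx2, ?_, ?_⟩
  · rw [sw_adj, Equiv.swap_apply_right, Equiv.swap_apply_of_ne_of_ne hx1.ne' hx2.ne']
    exact hx1
  · intro a b hab1 hab2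
    rcases conf_near h hwq hw hab1 hab2 with h' | h' | h' | h'
    · obtain ⟨rfl, h3⟩ := h'
      exact absurd h3 (hA _ hab1)
    · obtain ⟨rfl, h3⟩ := h'
      exact absurd h3 (hA _ hab1.symm)
    · obtain ⟨rfl, h3⟩ := h'
      exact Or.inl ⟨rfl, hB _ h3 hab1⟩
    · obtain ⟨rfl, h3⟩ := h'
      exact Or.inr ⟨hB _ h3 hab1.symm, rfl⟩

/-- every exchange is blocked; a path which blocks alone gives a state with one conflict -/
lemma weight_one (hno : NoPack G G2) (hc : IsCopy G2 H) (h : AtQ G H q)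
    (hwq : w ≠ q) (hw : ¬ (G.Adj q w ∧ H.Adj q w)) (tA tB : V → Prop)
    (hA : ∀ x, G.Adj q x → H.Adj w x → One G (sw H q w) q x → tA x)
    (hB : ∀ x, H.Adj q x → G.Adj w x → One G (sw H q w) w x → tB x) :
    2 ≤ ∑ x ∈ nb G q ∩ nb H w, (if tA x then 2 else 1)
      + ∑ x ∈ nb H q ∩ nb G w, (if tB x then 2 else 1) := by
  have card_le : ∀ (s : Finset V) (t : V → Prop),
      s.card ≤ ∑ x ∈ s, (if t x then 2 else 1) := by
    intro s t
    rw [Finset.card_eq_sum_ones]
    exact Finset.sum_le_sum (fun x _ => by split_ifs <;> omega)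
  have h1 := card_le (nb G q ∩ nb H w) tA
  have h2 := card_le (nb H q ∩ nb G w) tB
  by_contra hlt
  push Not at hlt
  have hcard : (nb G q ∩ nb H w).card + (nb H q ∩ nb G w).card ≤ 1 := by omega
  have hpos : 1 ≤ (nb G q ∩ nb H w).card + (nb H q ∩ nb G w).card := by
    obtain ⟨x, y, hG, hH⟩ := hno _ (hc.sw q w)
    rcases conf_near h hwq hw hG hH with h' | h' | h' | h'
    · have : 1 ≤ (nb G q ∩ nb H w).card := Finset.card_pos.mpr ⟨y, by
        simp only [Finset.mem_inter, mem_nb]; exact ⟨h'.1 ▸ hG, h'.2⟩⟩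
      omega
    · have : 1 ≤ (nb G q ∩ nb H w).card := Finset.card_pos.mpr ⟨x, by
        simp only [Finset.mem_inter, mem_nb]; exact ⟨h'.1 ▸ hG.symm, h'.2⟩⟩
      omega
    · have : 1 ≤ (nb H q ∩ nb G w).card := Finset.card_pos.mpr ⟨y, by
        simp only [Finset.mem_inter, mem_nb]; exact ⟨h'.2, h'.1 ▸ hG⟩⟩
      omega
    · have : 1 ≤ (nb H q ∩ nb G w).card := Finset.card_pos.mpr ⟨x, by
        simp only [Finset.mem_inter, mem_nb]; exact ⟨h'.2, h'.1 ▸ hG.symm⟩⟩
      omega
  by_cases hA1 : (nb G q ∩ nb H w).card = 1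
  · have hB0 : (nb H q ∩ nb G w).card = 0 := by omega
    obtain ⟨x, hx⟩ := Finset.card_eq_one.mp hA1
    have hmem : x ∈ nb G q ∩ nb H w := by rw [hx]; exact Finset.mem_singleton_self x
    simp only [Finset.mem_inter, mem_nb] at hmem
    have hone : One G (sw H q w) q x := by
      refine oneA h hwq hw hmem.1 hmem.2 ?_ ?_
      · intro z hz1 hz2
        have : z ∈ nb G q ∩ nb H w := by simp [hz1, hz2]
        rw [hx] at this; simpa using this
      · intro z hz1 hz2
        have : z ∈ nb H q ∩ nb G w := by simp [hz1, hz2]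
        rw [Finset.card_eq_zero] at hB0
        rw [hB0] at this; simp at this
    have := hA x hmem.1 hmem.2 hone
    rw [hx] at hlt
    simp only [Finset.sum_singleton, this, if_true] at hlt
    omega
  · have hA0 : (nb G q ∩ nb H w).card = 0 := by omega
    have hB1 : (nb H q ∩ nb G w).card = 1 := by omega
    obtain ⟨x, hx⟩ := Finset.card_eq_one.mp hB1
    have hmem : x ∈ nb H q ∩ nb G w := by rw [hx]; exact Finset.mem_singleton_self x
    simp only [Finset.mem_inter, mem_nb] at hmem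
    have hone : One G (sw H q w) w x := by
      refine oneB h hwq hw hmem.1 hmem.2 ?_ ?_
      · intro z hz1 hz2
        have : z ∈ nb G q ∩ nb H w := by simp [hz1, hz2]
        rw [Finset.card_eq_zero] at hA0
        rw [hA0] at this; simp at this
      · intro z hz1 hz2
        have : z ∈ nb H q ∩ nb G w := by simp [hz1, hz2]
        rw [hx] at this; simpa using this
    have := hB x hmem.1 hmem.2 hone
    rw [hx] at hlt
    simp only [Finset.sum_singleton, this, if_true] at hlt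
    omega

/-- sums over pairs, weighted -/
lemma flip_sum (S : Finset V) (K L : SimpleGraph V) (t : V → Prop) (W : V → ℝ) (q : V) :
    ∑ w ∈ S, W w * ∑ x ∈ nb K q ∩ nb L w, (if t x then (2 : ℝ) else 1)
      = ∑ x ∈ nb K q, (if t x then (2 : ℝ) else 1) * ∑ w ∈ nb L x ∩ S, W w := by
  have e1 : ∀ w ∈ S, W w * ∑ x ∈ nb K q ∩ nb L w, (if t x then (2 : ℝ) else 1)
      = ∑ x ∈ nb K q, if L.Adj x w then (if t x then (2 : ℝ) else 1) * W w else 0 := by
    intro w _
    rw [← Finset.sum_filter, Finset.mul_sum]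
    have : nb K q ∩ nb L w = (nb K q).filter (fun x => L.Adj x w) := by
      ext x; simp [SimpleGraph.adj_comm]
    rw [this]
    exact Finset.sum_congr rfl (fun x _ => mul_comm _ _)
  rw [Finset.sum_congr rfl e1, Finset.sum_comm]
  refine Finset.sum_congr rfl (fun x _ => ?_)
  rw [← Finset.sum_filter, Finset.mul_sum]
  have : S.filter (fun w => L.Adj x w) = nb L x ∩ S := by
    ext z; simp [and_comm]
  rw [this]

/-- weighted sum of the exchanges over a set -/
lemma cover_sum (hno : NoPack G G2) (hc : IsCopy G2 H) (h : AtQ G H q) (S : Finset V)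
    (hS1 : ∀ w ∈ S, w ≠ q) (hS2 : ∀ w ∈ S, ¬ (G.Adj q w ∧ H.Adj q w)) (tA tB : V → Prop)
    (hA : ∀ w ∈ S, ∀ x, G.Adj q x → H.Adj w x → One G (sw H q w) q x → tA x)
    (hB : ∀ w ∈ S, ∀ x, H.Adj q x → G.Adj w x → One G (sw H q w) w x → tB x)
    (W : V → ℝ) (hW : ∀ w ∈ S, 0 ≤ W w) :
    2 * ∑ w ∈ S, W w ≤ ∑ x ∈ nb G q, (if tA x then (2 : ℝ) else 1) * ∑ w ∈ nb H x ∩ S, W w
      + ∑ x ∈ nb H q, (if tB x then (2 : ℝ) else 1) * ∑ w ∈ nb G x ∩ S, W w := by
  rw [← flip_sum S G H tA W q, ← flip_sum S H G tB W q, ← Finset.sum_add_distrib, Finset.mul_sum]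
  refine Finset.sum_le_sum (fun w hw => ?_)
  have h1 := weight_one hno hc h (hS1 w hw) (hS2 w hw) tA tB (hA w hw) (hB w hw)
  have h2 : (2 : ℝ) ≤ ∑ x ∈ nb G q ∩ nb H w, (if tA x then (2 : ℝ) else 1)
      + ∑ x ∈ nb H q ∩ nb G w, (if tB x then (2 : ℝ) else 1) := by
    have := (Nat.cast_le (α := ℝ)).mpr h1
    push_cast at this
    exact this
  have h3 := mul_le_mul_of_nonneg_left h2 (hW w hw)
  linarith

/-- a vertex of small degree in a critical pair has degree less than half of the bound -/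
lemma Crit.lo1 (hcr : Crit G G2) (ha : OreLe G a) (hb : OreLe G2 b)
    (hn : a * b < 2 * Fintype.card V) (hx : b * dg G x < Fintype.card V) : 2 * dg G x ≤ a - 1 := by
  by_cases h0 : dg G x = 0
  · omega
  · obtain ⟨y, hy⟩ := Finset.card_pos.mp (show 0 < (nb G x).card from Nat.pos_of_ne_zero h0)
    have hadj : G.Adj x y := by simpa using hy
    rcases hcr.hi1 ha hb hn hadj with h | h
    · omega
    · have h1 := ha x y hadj
      have h2 : b * a < b * (2 * dg G y) := by
        have e1 : b * (2 * dg G y) = 2 * (b * dg G y) := by ring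
        have e2 : b * a = a * b := mul_comm _ _
        omega
      have h3 : a < 2 * dg G y := lt_of_mul_lt_mul_left h2 (Nat.zero_le _)
      omega

lemma hi1_deg (hn : a * b < 2 * Fintype.card V) (hx : Fintype.card V ≤ b * dg G x) :
    a + 1 ≤ 2 * dg G x := by
  have h2 : b * a < b * (2 * dg G x) := by
    have e1 : b * (2 * dg G x) = 2 * (b * dg G x) := by ring
    have e2 : b * a = a * b := mul_comm _ _
    omega
  exact lt_of_mul_lt_mul_left h2 (Nat.zero_le _)

/-- the pair with the two graphs exchanged -/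
lemma Crit.symm (hcr : Crit G G2) : Crit G2 G := by
  refine ⟨?_, ?_, ?_⟩
  · rintro H ⟨σ, rfl⟩
    obtain ⟨x, y, h1, h2⟩ := hcr.no (G2.comap σ.symm) ⟨σ.symm, rfl⟩
    refine ⟨σ.symm x, σ.symm y, h2, ?_⟩
    simpa using h1
  · intro x y hxy
    obtain ⟨σ, h1, h2, h3⟩ := hcr.right x y hxy
    refine ⟨G.comap σ.symm, ⟨σ.symm, rfl⟩, hxy, by simpa using h1, ?_⟩
    intro p r hp hr
    have := h3 (σ.symm p) (σ.symm r) (by simpa using hr) (by simpa using hp)
    rcases this with h | h
    · exact Or.inl ⟨σ.symm.injective h.1, σ.symm.injective h.2⟩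
    · exact Or.inr ⟨σ.symm.injective h.1, σ.symm.injective h.2⟩
  · intro x y hxy
    obtain ⟨H, ⟨τ, rfl⟩, h1, h2, h3⟩ := hcr.left x y hxy
    refine ⟨τ.symm, ?_, ?_, ?_⟩
    · simpa using h2
    · simpa using hxy
    · intro p r hp hr
      have := h3 (τ.symm p) (τ.symm r) (by simpa using hr) (by simpa using hp)
      simp only [Equiv.symm_symm]
      rcases this with h | h
      · exact Or.inl ⟨by rw [← h.1]; simp, by rw [← h.2]; simp⟩
      · exact Or.inr ⟨by rw [← h.1]; simp, by rw [← h.2]; simp⟩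

end

end Pool.Agent.MP_7c6760_co
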