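import Pool.Agent.Lib.MP_7c6760_co.OreDefs

/-! Real forms of the two sides and their relation with the integer checks. -/

namespace Pool.Agent.MP_7c6760_co.Ore

/-- kinds of forms -/
inductive Ty where
  | a : Ty
  | b : Ty
  | c : Ty

/-- cast -/
def Pm.r (P : Pm ℤ) : Pm ℝ := ⟨P.L, P.B, P.P0, P.P1, P.W, P.M, P.A⟩

/-- cast -/
def Mu.r (Y : Mu ℤ) : Mu ℝ := ⟨Y.y1, Y.y3, Y.y4, Y.a, Y.g, Y.z⟩

/-- base value -/
noncomputable def nu0 (h g : ℝ) : ℝ := 1 + h + g + 15 / 8 * h * g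

/-- indicator of the third kind -/
noncomputable def Ty.n : Ty → ℝ
  | .a => 0
  | .b => 0
  | .c => 1

/-- part of the constant which depends on the kind -/
noncomputable def cty (P : Pm ℝ) (w w2 s t h g : ℝ) : Ty → ℝ
  | .a => -(1 / 2) * (1 - t) * w * (P.P0 + P.P1 * (1 / 2 + h))
  | .b => -2 * (1 - s) * (1 - t) * w * P.L + P.B * w * (h + 15 / 8 * h * g)
      + (1 - t) * (1 - 2 * h) * P.B * w2
  | .c => -(1 - s) * (1 - t) * w * P.L + 1 / 2 * P.B * w * (1 / 2 * nu0 h g - h * g - (1 - s))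
      + 1 / 2 * P.B * (1 - t) * (1 - s) * w2

/-- constant part -/
noncomputable def cst (P : Pm ℝ) (ty : Ty) (w w2 s t h g : ℝ) : ℝ :=
  P.L * (nu0 h g - h * g) - P.W * (s + h) * nu0 h g - P.A * s * (1 - t)
    - 2 * h * (1 - (1 - t) * w + g) * P.M + 2 * h * (1 - (1 - t) * w) * (1 / 2 + g) * P.B
    + 2 * h * g * P.B * w - h * (1 - t) * P.B * w / 8 + cty P w w2 s t h g ty

/-- constant part minus multipliers -/
noncomputable def K0 (P : Pm ℝ) (Y : Mu ℝ) (ty : Ty) (w w2 s t h g : ℝ) : ℝ :=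
  cst P ty w w2 s t h g - Y.y4 / 2 * nu0 h g - (1 + h) * Y.g * nu0 h g

/-- coefficient of the vertices -/
noncomputable def K1 (P : Pm ℝ) (Y : Mu ℝ) (n w s h : ℝ) : ℝ :=
  -P.L + P.W * (s + h) + P.P0 - n * (1 / 4) * P.B * w - Y.y1 + (1 / 2 + h) * Y.y3 + Y.y4 / 2
    - (1 + h) * (Y.a - Y.g)

/-- coefficient of the edges -/
noncomputable def K2 (P : Pm ℝ) (Y : Mu ℝ) (B' s : ℝ) : ℝ :=
  (1 - s) * (P.W + P.P1) - 3 / 2 * B' + Y.y1 - (1 - s) * Y.y3 + (1 - s) * Y.y4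
    + (1 - s) * (Y.a + Y.g + Y.z)

/-- coefficient of the excess -/
noncomputable def K5 (P : Pm ℝ) (Y : Mu ℝ) (n w s h : ℝ) : ℝ :=
  P.L - P.W * (s + h) + n * (1 / 4) * P.B * w - Y.y4 / 2 - (1 + h) * Y.g

/-- the form of one side -/
noncomputable def GU (P : Pm ℝ) (B' : ℝ) (ty : Ty) (w w2 s t h g μ e ν' : ℝ) : ℝ :=
  cst P ty w w2 s t h g + (-P.L + P.W * (s + h) + P.P0 - ty.n * (1 / 4) * P.B * w) * μ
    + ((1 - s) * (P.W + P.P1) - 3 / 2 * B') * e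
    + (P.L - P.W * (s + h) + ty.n * (1 / 4) * P.B * w) * ν'

/-- admissible multipliers -/
structure Mu.Ok (Y : Mu ℝ) : Prop where
  y1 : 0 ≤ Y.y1
  y3 : 0 ≤ Y.y3
  y4 : 0 ≤ Y.y4
  a : 0 ≤ Y.a
  g : 0 ≤ Y.g
  z : 0 ≤ Y.z
  q : Y.z * Y.z ≤ 4 * Y.a * Y.g

/-- the constraints on the numbers of high vertices and edges -/
structure Str (s h g μ e ν' : ℝ) : Prop where
  mu0 : 0 ≤ μ
  e0 : 0 ≤ e
  c1 : e ≤ μ
  c3 : (1 / 2 + h) * μ ≤ (1 - s) * e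
  c4 : (1 - s) * e ≤ 1 / 2 * (nu0 h g + ν' - μ)
  c2 : (1 - s) * e * (nu0 h g + ν') ≤ (1 + h) * (μ * (nu0 h g + ν' - μ))
  le : μ ≤ nu0 h g + ν'
  pos : 0 < nu0 h g + ν'

lemma quad_aux {a g z m k : ℝ} (ha : 0 ≤ a) (hg : 0 ≤ g) (hq : z * z ≤ 4 * a * g) :
    z * (m * k) ≤ a * m ^ 2 + g * k ^ 2 := by
  have h1 : (z * (m * k)) ^ 2 ≤ (a * m ^ 2 + g * k ^ 2) ^ 2 := by
    have h2 : (z * z) * (m * k) ^ 2 ≤ (4 * a * g) * (m * k) ^ 2 :=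
      mul_le_mul_of_nonneg_right hq (sq_nonneg _)
    nlinarith [sq_nonneg (a * m ^ 2 - g * k ^ 2)]
  have h3 : 0 ≤ a * m ^ 2 + g * k ^ 2 := by positivity
  exact abs_le_of_sq_le_sq' h1 h3 |>.2

lemma farkas {P : Pm ℝ} {Y : Mu ℝ} {B' : ℝ} {ty : Ty} {w w2 s t h g μ e ν' : ℝ}
    (hY : Y.Ok) (hS : Str s h g μ e ν') (hh : 0 ≤ h)
    (h1 : 0 ≤ K1 P Y ty.n w s h) (h2 : 0 ≤ K2 P Y B' s) :
    K0 P Y ty w w2 s t h g + K5 P Y ty.n w s h * ν' ≤ GU P B' ty w w2 s t h g μ e ν' := by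
  obtain ⟨ν, hν⟩ : ∃ ν, ν = nu0 h g + ν' := ⟨_, rfl⟩
  have e1 := mul_nonneg hY.y1 (sub_nonneg.mpr hS.c1)
  have e3 := mul_nonneg hY.y3 (sub_nonneg.mpr hS.c3)
  have e4 := mul_nonneg hY.y4 (sub_nonneg.mpr hS.c4)
  have e5 := mul_nonneg h1 hS.mu0
  have e6 := mul_nonneg h2 hS.e0
  have c2 := hS.c2
  have pos := hS.pos
  have le := hS.le
  rw [← hν] at c2 pos le e4
  have hk : 0 ≤ ν - μ := by linarith
  have e2 : (Y.a + Y.g + Y.z) * ((1 - s) * e) ≤ (1 + h) * (Y.a * μ + Y.g * (ν - μ)) := by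
    have q1 := quad_aux (m := μ) (k := ν - μ) hY.a hY.g hY.q
    have q2 : (Y.a + Y.g + Y.z) * (μ * (ν - μ)) ≤ (Y.a * μ + Y.g * (ν - μ)) * ν := by
      nlinarith [mul_nonneg hY.a (mul_nonneg hS.mu0 hk)]
    have q3 : (Y.a + Y.g + Y.z) * ((1 - s) * e * ν)
        ≤ (Y.a + Y.g + Y.z) * ((1 + h) * (μ * (ν - μ))) :=
      mul_le_mul_of_nonneg_left c2 (by linarith [hY.a, hY.g, hY.z])
    have q4 : (1 + h) * ((Y.a + Y.g + Y.z) * (μ * (ν - μ)))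
        ≤ (1 + h) * ((Y.a * μ + Y.g * (ν - μ)) * ν) :=
      mul_le_mul_of_nonneg_left q2 (by linarith)
    have q5 : ((Y.a + Y.g + Y.z) * ((1 - s) * e)) * ν
        ≤ ((1 + h) * (Y.a * μ + Y.g * (ν - μ))) * ν := by nlinarith
    exact le_of_mul_le_mul_right q5 pos
  have key : GU P B' ty w w2 s t h g μ e ν' - (K0 P Y ty w w2 s t h g + K5 P Y ty.n w s h * ν')
      = K1 P Y ty.n w s h * μ + K2 P Y B' s * e + Y.y1 * (μ - e)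
        + Y.y3 * ((1 - s) * e - (1 / 2 + h) * μ) + Y.y4 * (1 / 2 * (ν - μ) - (1 - s) * e)
        + ((1 + h) * (Y.a * μ + Y.g * (ν - μ)) - (Y.a + Y.g + Y.z) * ((1 - s) * e)) := by
    rw [hν]; unfold GU K0 K1 K2 K5; ring
  linarith

/-- quadratic and concave -/
def Cv (f : ℝ → ℝ) : Prop := ∃ α β γ : ℝ, 0 ≤ γ ∧ ∀ x, f x = α + β * x - γ * x ^ 2

lemma Cv.add {f f' : ℝ → ℝ} (hf : Cv f) (hf' : Cv f') : Cv (fun x => f x + f' x) := by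
  obtain ⟨α, β, γ, hγ, h⟩ := hf
  obtain ⟨α', β', γ', hγ', h'⟩ := hf'
  refine ⟨α + α', β + β', γ + γ', by linarith, fun x => ?_⟩
  simp only [h, h']; ring

lemma Cv.nonneg {f : ℝ → ℝ} (hf : Cv f) {lo hi x : ℝ} (h1 : lo ≤ x) (h2 : x ≤ hi)
    (hlo : 0 ≤ f lo) (hhi : 0 ≤ f hi) : 0 ≤ f x := by
  obtain ⟨α, β, γ, hγ, h⟩ := hf
  rw [h] at hlo hhi ⊢
  rcases eq_or_lt_of_le (h1.trans h2) with he | hlt
  · have hx : x = lo := by linarith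
    rw [hx]; exact hlo
  · have a1 := mul_nonneg (sub_nonneg.mpr h2) hlo
    have a2 := mul_nonneg (sub_nonneg.mpr h1) hhi
    have a3 := mul_nonneg (mul_nonneg (mul_nonneg hγ (sub_nonneg.mpr hlt.le))
      (sub_nonneg.mpr h1)) (sub_nonneg.mpr h2)
    have key : (hi - lo) * (α + β * x - γ * x ^ 2)
        = (hi - x) * (α + β * lo - γ * lo ^ 2) + (x - lo) * (α + β * hi - γ * hi ^ 2)
          + γ * (hi - lo) * (x - lo) * (hi - x) := by ring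
    have a4 : 0 ≤ (hi - lo) * (α + β * x - γ * x ^ 2) := by rw [key]; linarith
    exact nonneg_of_mul_nonneg_right a4 (by linarith)

/-- a function which is concave in each variable is nonnegative on a box if it is so at the
corners -/
lemma box4 (f : ℝ → ℝ → ℝ → ℝ → ℝ) {s0 s1 t0 t1 h0 h1 g0 g1 : ℝ} (hh0 : 0 ≤ h0) (hg0 : 0 ≤ g0)
    (hg01 : g0 ≤ g1)
    (hs : ∀ t h g, Cv (fun s => f s t h g)) (ht : ∀ s h g, Cv (fun t => f s t h g))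
    (hh : ∀ s t g, 0 ≤ g → Cv (fun h => f s t h g)) (hg : ∀ s t h, 0 ≤ h → Cv (fun g => f s t h g))
    (hc : ∀ s t h g, (s = s0 ∨ s = s1) → (t = t0 ∨ t = t1) → (h = h0 ∨ h = h1) →
      (g = g0 ∨ g = g1) → 0 ≤ f s t h g)
    {s t h g : ℝ} (s0l : s0 ≤ s) (s1l : s ≤ s1) (t0l : t0 ≤ t) (t1l : t ≤ t1)
    (h0l : h0 ≤ h) (h1l : h ≤ h1) (g0l : g0 ≤ g) (g1l : g ≤ g1) : 0 ≤ f s t h g := by
  have a1 : ∀ t' h' g', (t' = t0 ∨ t' = t1) → (h' = h0 ∨ h' = h1) → (g' = g0 ∨ g' = g1) →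
      0 ≤ f s t' h' g' := fun t' h' g' x1 x2 x3 =>
    (hs t' h' g').nonneg s0l s1l (hc _ _ _ _ (Or.inl rfl) x1 x2 x3)
      (hc _ _ _ _ (Or.inr rfl) x1 x2 x3)
  have a2 : ∀ h' g', (h' = h0 ∨ h' = h1) → (g' = g0 ∨ g' = g1) →
      0 ≤ f s t h' g' := fun h' g' x2 x3 =>
    (ht s h' g').nonneg t0l t1l (a1 _ _ _ (Or.inl rfl) x2 x3) (a1 _ _ _ (Or.inr rfl) x2 x3)
  have a3 : ∀ g', (g' = g0 ∨ g' = g1) → 0 ≤ f s t h g' := fun g' x3 =>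
    (hh s t g' (by rcases x3 with rfl | rfl <;> linarith)).nonneg h0l h1l
      (a2 _ _ (Or.inl rfl) x3) (a2 _ _ (Or.inr rfl) x3)
  exact (hg s t h (by linarith)).nonneg g0l g1l (a3 _ (Or.inl rfl)) (a3 _ (Or.inr rfl))

lemma K0_s (P : Pm ℝ) (Y : Mu ℝ) (ty : Ty) (w w2 t h g : ℝ) :
    Cv (fun s => K0 P Y ty w w2 s t h g) := by
  refine ⟨K0 P Y ty w w2 0 t h g, K0 P Y ty w w2 1 t h g - K0 P Y ty w w2 0 t h g, 0, le_refl _,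
    fun x => ?_⟩
  cases ty <;> simp only [K0, cst, cty] <;> ring

lemma K0_t (P : Pm ℝ) (Y : Mu ℝ) (ty : Ty) (w w2 s h g : ℝ) :
    Cv (fun t => K0 P Y ty w w2 s t h g) := by
  refine ⟨K0 P Y ty w w2 s 0 h g, K0 P Y ty w w2 s 1 h g - K0 P Y ty w w2 s 0 h g, 0, le_refl _,
    fun x => ?_⟩
  cases ty <;> simp only [K0, cst, cty] <;> ring

lemma K0_g (P : Pm ℝ) (Y : Mu ℝ) (ty : Ty) (w w2 s t h : ℝ) :
    Cv (fun g => K0 P Y ty w w2 s t h g) := by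
  refine ⟨K0 P Y ty w w2 s t h 0, K0 P Y ty w w2 s t h 1 - K0 P Y ty w w2 s t h 0, 0, le_refl _,
    fun x => ?_⟩
  cases ty <;> simp only [K0, cst, cty, nu0] <;> ring

lemma K0_h (P : Pm ℝ) (Y : Mu ℝ) (ty : Ty) (w w2 s t g : ℝ) (hW : 0 ≤ P.W) (hY : 0 ≤ Y.g)
    (hg : 0 ≤ g) : Cv (fun h => K0 P Y ty w w2 s t h g) := by
  refine ⟨K0 P Y ty w w2 s t 0 g, K0 P Y ty w w2 s t 1 g - K0 P Y ty w w2 s t 0 g
    + (P.W + Y.g) * (1 + 15 / 8 * g), (P.W + Y.g) * (1 + 15 / 8 * g), by positivity, fun x => ?_⟩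
  cases ty <;> simp only [K0, cst, cty, nu0] <;> ring

end Pool.Agent.MP_7c6760_co.Ore
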