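import Pool.Agent.Lib.MP_7c6760_co.OreWeight

/-! The inequality of one side. -/

namespace Pool.Agent.MP_7c6760_co

open Finset

noncomputable section

open Classical

set_option linter.unusedSectionVars false

variable {V : Type*} [Fintype V]

variable {G G2 H : SimpleGraph V} {q u v x y z : V} {a b D E : ℕ}
variable {L β w P0 P1 M A K Vv : ℝ}

/-- weight of a vertex -/
def Wt (G H : SimpleGraph V) (a b D : ℕ) (L β w P0 P1 : ℝ) (x : V) : ℝ :=
  wt (Fintype.card V) a b L β w ((a : ℝ) - D) P0 P1 (dg G x) (dg H x)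

lemma IsCopy.dg_le (hc : IsCopy G2 H) (hE : ∀ x, dg G2 x ≤ E) (x : V) : dg H x ≤ E := by
  obtain ⟨σ, rfl⟩ := hc
  rw [dg_comap]; exact hE _

/-- degrees of the low vertices of the second graph -/
lemma Crit.lo2 (hcr : Crit G G2) (ha : OreLe G a) (hb : OreLe G2 b)
    (hn : a * b < 2 * Fintype.card V) (hc : IsCopy G2 H) (hx : a * dg H x < Fintype.card V) :
    2 * dg H x ≤ b - 1 := by
  obtain ⟨σ, rfl⟩ := hc
  rw [dg_comap] at hx ⊢
  exact hcr.symm.lo1 hb ha (by rw [mul_comm]; exact hn) hx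

lemma hi2_deg (hn : a * b < 2 * Fintype.card V) (hx : Fintype.card V ≤ a * dg H x) :
    b + 1 ≤ 2 * dg H x := hi1_deg (G := H) (a := b) (b := a) (by rw [mul_comm]; exact hn) hx

/-- the total weight -/
lemma tot_ge (hcr : Crit G G2) (ha : OreLe G a) (hb : OreLe G2 b)
    (hn : a * b < 2 * Fintype.card V) (hc : IsCopy G2 H) :
    L * ((Fintype.card V : ℝ) - (hiF G b).card)
      + w * (eF G b - ((a : ℝ) - D) * ((Fintype.card V : ℝ) - (hiF G b).card))
      + P0 * (hiF G b).card + P1 * eF G b - 3 / 2 * β * eF G2 a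
      ≤ ∑ x, Wt G H a b D L β w P0 P1 x := by
  have hS := hcr.bip1 ha hb hn
  have hT := hcr.bip2 ha hb hn hc
  have hcardc : (((hiF G b)ᶜ).card : ℝ) = Fintype.card V - (hiF G b).card := by
    rw [Finset.card_compl, Nat.cast_sub (Finset.card_le_univ _)]
  have he : (eF G b : ℝ) = ∑ x ∈ hiF G b, (dg G x : ℝ) := by unfold eF; push_cast; rfl
  have hec : ∑ y ∈ (hiF G b)ᶜ, (dg G y : ℝ) = eF G b := by rw [sum_compl_eq _ hS, he]
  have he2 : (eF G2 a : ℝ) = ∑ x ∈ hiF H a, (dg H x : ℝ) := by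
    rw [← hc.eF_eq]; unfold eF; push_cast; rfl
  have hec2 : ∑ y ∈ (hiF H a)ᶜ, (dg H y : ℝ) = eF G2 a := by rw [sum_compl_eq _ hT, he2]
  have h1 : ∑ x, ((if Fintype.card V ≤ b * dg G x then P0 + P1 * dg G x
      else L + w * (dg G x - ((a : ℝ) - D))) - cc (Fintype.card V) a (dg H x) * β * dg H x)
      ≤ ∑ x, Wt G H a b D L β w P0 P1 x :=
    Finset.sum_le_sum (fun x _ => wt_ge)
  rw [Finset.sum_sub_distrib] at h1
  have h2 : ∑ x : V, (if Fintype.card V ≤ b * dg G x then P0 + P1 * dg G x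
      else L + w * (dg G x - ((a : ℝ) - D)))
      = P0 * (hiF G b).card + P1 * eF G b + (L * ((Fintype.card V : ℝ) - (hiF G b).card)
      + w * (eF G b - ((a : ℝ) - D) * ((Fintype.card V : ℝ) - (hiF G b).card))) := by
    rw [← Finset.sum_add_sum_compl (hiF G b)]
    congr 1
    · have e1 : ∀ x ∈ hiF G b, (if Fintype.card V ≤ b * dg G x then P0 + P1 * dg G x
          else L + w * (dg G x - ((a : ℝ) - D))) = P0 + P1 * dg G x := by
        intro x hx; rw [if_pos (mem_hiF.mp hx)]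
      rw [Finset.sum_congr rfl e1, Finset.sum_add_distrib, Finset.sum_const, nsmul_eq_mul,
        ← Finset.mul_sum, ← he]
      ring
    · have e1 : ∀ x ∈ (hiF G b)ᶜ, (if Fintype.card V ≤ b * dg G x then P0 + P1 * dg G x
          else L + w * (dg G x - ((a : ℝ) - D))) = (L - w * ((a : ℝ) - D)) + w * dg G x := by
        intro x hx
        have : x ∉ hiF G b := by simpa using hx
        rw [mem_hiF] at this
        rw [if_neg this]; ring
      rw [Finset.sum_congr rfl e1, Finset.sum_add_distrib, Finset.sum_const, nsmul_eq_mul,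
        ← Finset.mul_sum, hec, hcardc]
      ring
  have h3 : ∑ x : V, cc (Fintype.card V) a (dg H x) * β * dg H x = 3 / 2 * β * eF G2 a := by
    rw [← Finset.sum_add_sum_compl (hiF H a)]
    have e1 : ∀ x ∈ hiF H a, cc (Fintype.card V) a (dg H x) * β * dg H x = β * dg H x := by
      intro x hx
      unfold cc; rw [if_pos (mem_hiF.mp hx), one_mul]
    have e2 : ∀ x ∈ (hiF H a)ᶜ, cc (Fintype.card V) a (dg H x) * β * dg H x
        = (1 / 2 * β) * dg H x := by
      intro x hx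
      have : x ∉ hiF H a := by simpa using hx
      rw [mem_hiF] at this
      unfold cc; rw [if_neg this]
    rw [Finset.sum_congr rfl e1, Finset.sum_congr rfl e2, ← Finset.mul_sum, ← Finset.mul_sum,
      hec2, ← he2]
    ring
  rw [h2, h3] at h1
  linarith

/-- weight of the vertex with the conflicts -/
lemma NM.wt_u (h : NM G G2 H a b u D) (hw : 0 ≤ w) :
    Wt G H a b D L β w P0 P1 u = L - β * dg H u := by
  unfold Wt
  rw [wt_lo h.lo1]
  have h1 : ((dg G u : ℝ) - ((a : ℝ) - D)) ≤ 0 := by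
    have : ((dg G u + D : ℕ) : ℝ) ≤ a := by exact_mod_cast h.du
    push_cast at this; linarith
  have h2 : max L (L + w * ((dg G u : ℝ) - ((a : ℝ) - D))) = L :=
    max_eq_left (by nlinarith)
  have h3 : cc (Fintype.card V) a (dg H u) = 1 := by unfold cc; rw [if_pos h.hi2]
  rw [h2, h3]; ring

lemma Wt_nonneg (sp : SP a b D E L β w P0 P1 M A) (hc : IsCopy G2 H) (hE : ∀ x, dg G2 x ≤ E)
    (x : V) : 0 ≤ Wt G H a b D L β w P0 P1 x := wt_nonneg sp (hc.dg_le hE x)

lemma Wt_le_M (hcr : Crit G G2) (ha : OreLe G a) (hb : OreLe G2 b)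
    (hn : a * b < 2 * Fintype.card V) (sp : SP a b D E L β w P0 P1 M A) (ha1 : 1 ≤ a)
    (hD : ∀ x, dg G x ≤ D) (x : V) : Wt G H a b D L β w P0 P1 x ≤ M :=
  wt_le_M sp ha1 (hD x) (fun hx => hcr.lo1 ha hb hn hx)

/-- weight of the high vertices of the second graph -/
lemma Wt_le_hi2 (hcr : Crit G G2) (ha : OreLe G a) (hb : OreLe G2 b)
    (hn : a * b < 2 * Fintype.card V) (sp : SP a b D E L β w P0 P1 M A) (ha1 : 1 ≤ a)
    (hD : ∀ x, dg G x ≤ D) (hc : IsCopy G2 H) (hE : ∀ x, dg G2 x ≤ E) (x : V)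
    (hx : Fintype.card V ≤ a * dg H x) :
    Wt G H a b D L β w P0 P1 x ≤ M - β * (b + 1) / 2 := by
  have h1 : Wt G H a b D L β w P0 P1 x ≤ M - β * dg H x :=
    wt_le_hi2 sp ha1 (hD x) (fun hx => hcr.lo1 ha hb hn hx) (hc.dg_le hE x) hx
  have h2 : ((b + 1 : ℕ) : ℝ) ≤ ((2 * dg H x : ℕ) : ℝ) := by exact_mod_cast hi2_deg hn hx
  push_cast at h2
  have h3 := mul_le_mul_of_nonneg_left h2 sp.β0
  linarith

/-- neighbours of a conflict vertex in the first graph -/
lemma sideX (hcr : Crit G G2) (ha : OreLe G a) (hb : OreLe G2 b)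
    (hn : a * b < 2 * Fintype.card V) (sp : SP a b D E L β w P0 P1 M A) (ha1 : 1 ≤ a)
    (hb1 : 1 ≤ b) (hD : ∀ x, dg G x ≤ D) (hc : IsCopy G2 H) (hE : ∀ x, dg G2 x ≤ E)
    (hpos : 0 ≤ M - β * (b + 1) / 2) (S : Finset V) (t : V → Prop)
    (ht : ∀ x, t x ↔ a * dg H x < Fintype.card V) (x : V) :
    (if t x then (2 : ℝ) else 1) * ∑ z ∈ nb H x ∩ S, Wt G H a b D L β w P0 P1 z ≤ A := by
  by_cases htx : t x
  · rw [if_pos htx]
    have h1 := (ht x).mp htx
    have h2 := hcr.lo2 ha hb hn hc h1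
    have h3 : ((2 * dg H x : ℕ) : ℝ) ≤ ((b - 1 : ℕ) : ℝ) := by exact_mod_cast h2
    rw [Nat.cast_sub hb1] at h3
    push_cast at h3
    have h4 : ∑ z ∈ nb H x ∩ S, Wt G H a b D L β w P0 P1 z
        ≤ (((b : ℝ) - 1) / 2) * (M - β * (b + 1) / 2) := by
      refine sum_le_mul (t := nb H x) Finset.inter_subset_left ?_ hpos ?_
      · intro z hz
        refine Wt_le_hi2 hcr ha hb hn sp ha1 hD hc hE z ?_
        have hadj : H.Adj x z := by simpa using hz
        rcases hcr.hi2 ha hb hn hc hadj with h | h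
        · omega
        · exact h.2
      · show (dg H x : ℝ) ≤ _
        linarith
    have h5 := sp.bM
    linarith
  · rw [if_neg htx, one_mul]
    have h4 : ∑ z ∈ nb H x ∩ S, Wt G H a b D L β w P0 P1 z ≤ E * M := by
      refine sum_le_mul (t := nb H x) Finset.inter_subset_left ?_ (sp.L0.trans sp.LM) ?_
      · intro z _
        exact Wt_le_M hcr ha hb hn sp ha1 hD z
      · have := hc.dg_le hE x
        show (dg H x : ℝ) ≤ _
        exact_mod_cast this
    exact h4.trans sp.EM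

/-- common neighbours of a conflict vertex -/
lemma sideC (hcr : Crit G G2) (ha : OreLe G a) (hb : OreLe G2 b)
    (hn : a * b < 2 * Fintype.card V) (sp : SP a b D E L β w P0 P1 M A) (ha1 : 1 ≤ a)
    (hD : ∀ x, dg G x ≤ D) (hc : IsCopy G2 H) (hE : ∀ x, dg G2 x ≤ E)
    (hpos : 0 ≤ M - β * (b + 1) / 2) (S : Finset V) (hS : u ∉ S) (t : V → Prop)
    (ht : ∀ x, t x ↔ a * dg H x < Fintype.card V)
    (hVv : 2 * ((b : ℝ) - dg H u - 1) * (M - β * (b + 1) / 2) + 2 * M ≤ Vv)
    (x : V) (hx : H.Adj u x) (hu : Fintype.card V ≤ a * dg H u) :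
    (if t x then (2 : ℝ) else 1) * ∑ z ∈ nb H x ∩ S, Wt G H a b D L β w P0 P1 z
      + 2 * Wt G H a b D L β w P0 P1 x ≤ Vv := by
  have hlo : a * dg H x < Fintype.card V := by
    rcases hcr.hi2 ha hb hn hc hx with h | h
    · exact h.2
    · omega
  rw [if_pos ((ht x).mpr hlo)]
  have h1 := Wt_le_M (H := H) hcr ha hb hn sp ha1 hD x
  have h4 : ∑ z ∈ nb H x ∩ S, Wt G H a b D L β w P0 P1 z
      ≤ ((b : ℝ) - dg H u - 1) * (M - β * (b + 1) / 2) := by
    refine sum_le_mul (t := (nb H x).erase u) ?_ ?_ hpos ?_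
    · intro z hz
      simp only [mem_inter] at hz
      exact mem_erase.mpr ⟨fun e => hS (e ▸ hz.2), hz.1⟩
    · intro z hz
      refine Wt_le_hi2 hcr ha hb hn sp ha1 hD hc hE z ?_
      have hadj : H.Adj x z := by simpa using (mem_erase.mp hz).2
      rcases hcr.hi2 ha hb hn hc hadj with h | h
      · omega
      · exact h.2
    · have hmem : u ∈ nb H x := by simpa using hx.symm
      have h5 := (hb.copy hc) u x hx
      have h6 : ((nb H x).erase u).card + 1 = dg H x := Finset.card_erase_add_one hmem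
      have h7 : ((((nb H x).erase u).card + 1 + dg H u : ℕ) : ℝ) ≤ b := by
        exact_mod_cast (by omega : ((nb H x).erase u).card + 1 + dg H u ≤ b)
      push_cast at h7
      linarith
  linarith

/-- neighbours of a conflict vertex in the second graph, low ones -/
lemma sideY_lo (hcr : Crit G G2) (ha : OreLe G a) (hb : OreLe G2 b)
    (hn : a * b < 2 * Fintype.card V) (sp : SP a b D E L β w P0 P1 M A) (ha1 : 1 ≤ a)
    (S : Finset V) (hK : ((a : ℝ) - 1) / 2 * (P0 + P1 * (a + 1) / 2) ≤ K)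
    (y : V) (hy : b * dg G y < Fintype.card V) :
    ∑ z ∈ nb G y ∩ S, Wt G H a b D L β w P0 P1 z ≤ K := by
  have h2 := hcr.lo1 ha hb hn hy
  have h3 : ((2 * dg G y : ℕ) : ℝ) ≤ ((a - 1 : ℕ) : ℝ) := by exact_mod_cast h2
  rw [Nat.cast_sub ha1] at h3
  push_cast at h3
  have hg0 : (0 : ℝ) ≤ dg G y := Nat.cast_nonneg _
  have ha0 : (1 : ℝ) ≤ a := by exact_mod_cast ha1
  have hc0 : 0 ≤ P0 + P1 * (a - dg G y) :=
    add_nonneg sp.P00 (mul_nonneg sp.P10 (by linarith))
  have h4 : ∑ z ∈ nb G y ∩ S, Wt G H a b D L β w P0 P1 z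
      ≤ (dg G y : ℝ) * (P0 + P1 * (a - dg G y)) := by
    refine sum_le_mul (t := nb G y) Finset.inter_subset_left ?_ hc0 (le_refl _)
    intro z hz
    have hadj : G.Adj y z := by simpa using hz
    have hhi : Fintype.card V ≤ b * dg G z := by
      rcases hcr.hi1 ha hb hn hadj with h | h
      · omega
      · exact h.2
    have h5 : Wt G H a b D L β w P0 P1 z ≤ P0 + P1 * dg G z := wt_hi_le sp hhi
    have h6 : ((dg G y + dg G z : ℕ) : ℝ) ≤ a := by exact_mod_cast ha y z hadj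
    push_cast at h6
    have h7 := mul_le_mul_of_nonneg_left (show (dg G z : ℝ) ≤ a - dg G y by linarith) sp.P10
    linarith
  refine h4.trans (le_trans ?_ hK)
  have h8 : (dg G y : ℝ) * P0 ≤ ((a : ℝ) - 1) / 2 * P0 :=
    mul_le_mul_of_nonneg_right (by linarith) sp.P00
  have h9 : (dg G y : ℝ) * (a - dg G y) ≤ ((a : ℝ) - 1) / 2 * ((a + 1) / 2) := by
    nlinarith
  have h10 := mul_le_mul_of_nonneg_right h9 sp.P10
  linarith

/-- sum of `c h` over the neighbours different from `u` -/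
def kap (G H : SimpleGraph V) (a : ℕ) (u y : V) : ℝ :=
  ∑ x ∈ (nb G y).erase u, cc (Fintype.card V) a (dg H x) * dg H x

/-- high neighbours: the basic bound -/
lemma sideY_hi (hcr : Crit G G2) (ha : OreLe G a) (hb : OreLe G2 b)
    (hn : a * b < 2 * Fintype.card V) (sp : SP a b D E L β w P0 P1 M A)
    (hD : ∀ x, dg G x ≤ D) (hc : IsCopy G2 H) (hE : ∀ x, dg G2 x ≤ E)
    (S : Finset V) (hS : u ∉ S) (y : V) (hy : Fintype.card V ≤ b * dg G y) :
    ∑ z ∈ nb G y ∩ S, Wt G H a b D L β w P0 P1 z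
      ≤ D * L - (if u ∈ nb G y then L else 0) - β * kap G H a u y := by
  have hsub : nb G y ∩ S ⊆ (nb G y).erase u := by
    intro z hz
    simp only [mem_inter] at hz
    exact mem_erase.mpr ⟨fun e => hS (e ▸ hz.2), hz.1⟩
  have h1 : ∑ z ∈ nb G y ∩ S, Wt G H a b D L β w P0 P1 z
      ≤ ∑ z ∈ (nb G y).erase u, Wt G H a b D L β w P0 P1 z :=
    Finset.sum_le_sum_of_subset_of_nonneg hsub (fun z _ _ => Wt_nonneg sp hc hE z)
  refine h1.trans ?_
  have hD' : (dg G y : ℝ) ≤ D := by exact_mod_cast hD y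
  obtain ⟨Φ, hΦ⟩ : ∃ Φ, Φ = L + w * (D - dg G y) := ⟨_, rfl⟩
  have hΦL : L ≤ Φ := by rw [hΦ]; linarith [mul_nonneg sp.w0 (sub_nonneg.mpr hD')]
  have h2 : ∀ z ∈ (nb G y).erase u, Wt G H a b D L β w P0 P1 z
      ≤ Φ - β * (cc (Fintype.card V) a (dg H z) * dg H z) := by
    intro z hz
    have hadj : G.Adj y z := by simpa using (mem_erase.mp hz).2
    have hlo : b * dg G z < Fintype.card V := by
      rcases hcr.hi1 ha hb hn hadj with h | h
      · exact h.2
      · omega
    unfold Wt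
    rw [wt_lo hlo]
    have h6 : ((dg G y + dg G z : ℕ) : ℝ) ≤ a := by exact_mod_cast ha y z hadj
    push_cast at h6
    have h7 : max L (L + w * ((dg G z : ℝ) - ((a : ℝ) - D))) ≤ Φ := by
      refine max_le hΦL ?_
      rw [hΦ]
      have := mul_le_mul_of_nonneg_left
        (show (dg G z : ℝ) - ((a : ℝ) - D) ≤ D - dg G y by linarith) sp.w0
      linarith
    linarith
  have h3 := Finset.sum_le_sum h2
  rw [Finset.sum_sub_distrib, Finset.sum_const, nsmul_eq_mul, ← Finset.mul_sum] at h3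
  have h4 : (((nb G y).erase u).card : ℝ) * Φ ≤ D * L - (if u ∈ nb G y then L else 0) := by
    have e1 : (dg G y : ℝ) * Φ ≤ D * L := by
      have q1 : w * dg G y ≤ L := by
        have := mul_le_mul_of_nonneg_left hD' sp.w0
        linarith [sp.wD]
      have q2 := mul_le_mul_of_nonneg_right q1 (sub_nonneg.mpr hD')
      rw [hΦ]; nlinarith
    split_ifs with hu
    · have h5 : ((((nb G y).erase u).card + 1 : ℕ) : ℝ) = dg G y := by
        exact_mod_cast Finset.card_erase_add_one hu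
      push_cast at h5
      have h6 : (((nb G y).erase u).card : ℝ) = dg G y - 1 := by linarith
      rw [h6]; linarith
    · rw [Finset.erase_eq_of_notMem hu]
      show (dg G y : ℝ) * Φ ≤ _
      linarith
  unfold kap
  linarith

/-- lower bound for a neighbour which blocks alone -/
lemma kap_single (hcr : Crit G G2) (ha : OreLe G a) (hb : OreLe G2 b)
    (hn : a * b < 2 * Fintype.card V) (hc : IsCopy G2 H) (hi2 : Fintype.card V ≤ a * dg H u)
    {w' : V} (hwu : w' ≠ u) (hadj : H.Adj u y) (hone : One G (sw H u w') w' y) (ha1 : 1 ≤ a) :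
    2 * (Fintype.card V : ℝ) - 2 * dg H u - ((b : ℝ) - dg H u) * (a - 1)
      ≤ 2 * kap G H a u y := by
  obtain ⟨t2, ht2⟩ : ∃ t2 : V → Prop, ∀ x, t2 x ↔ Fintype.card V ≤ a * dg H x :=
    ⟨_, fun _ => Iff.rfl⟩
  have h1 := single_ineq hcr ha hb hn hc hi2 hwu hadj.ne' hone t2 ht2
  have h2 : ((∑ x ∈ (nb G y).erase u, (if t2 x then 2 else 1) * dg H x : ℕ) : ℝ)
      = 2 * kap G H a u y := by
    unfold kap
    push_cast
    rw [Finset.mul_sum]
    refine Finset.sum_congr rfl (fun x _ => ?_)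
    unfold cc
    by_cases hx : t2 x
    · rw [if_pos hx, if_pos ((ht2 x).mp hx)]; ring
    · rw [if_neg hx, if_neg (fun h => hx ((ht2 x).mpr h))]; ring
  have h3 := (hb.copy hc) u y hadj
  have h4 : ((dg H u + dg H y : ℕ) : ℝ) ≤ b := by exact_mod_cast h3
  push_cast at h4
  have h5 : ((2 * Fintype.card V : ℕ) : ℝ) ≤
      ((∑ x ∈ (nb G y).erase u, (if t2 x then 2 else 1) * dg H x
      + 2 * dg H u + dg H y * (a - 1) : ℕ) : ℝ) := by exact_mod_cast h1
  rw [Nat.cast_add, Nat.cast_add, h2, Nat.cast_mul (dg H y), Nat.cast_sub ha1] at h5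
  push_cast at h5
  have ha1' : (1 : ℝ) ≤ a := by exact_mod_cast ha1
  have h6 := mul_le_mul_of_nonneg_right (show (dg H y : ℝ) ≤ b - dg H u by linarith)
    (show (0 : ℝ) ≤ a - 1 by linarith)
  linarith

/-- lower bound from the potential -/
lemma kap_pot (hb : OreLe G2 b) (h : NM G G2 H a b u D) (hadj : H.Adj u y)
    (hyhi : Fintype.card V ≤ b * dg G y) :
    (Fintype.card V : ℝ) - (hiF G b).card - 1
      - ((nb H u).filter (fun x => b * dg G x < Fintype.card V)).card
      - ((b : ℝ) - dg H u - 1) * D ≤ 2 * kap G H a u y := by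
  have h1 := h.pot hadj hyhi
  have h3 := (hb.copy h.copy) u y hadj
  have h4 : ((dg H u + dg H y : ℕ) : ℝ) ≤ b := by exact_mod_cast h3
  push_cast at h4
  have hpos : 1 ≤ dg H y := dg_pos_of_adj hadj.symm
  have h5 : (Fintype.card V : ℝ) ≤ ((univ.filter (fun x => Fintype.card V ≤ b * dg G x)).card + 1
      + ((nb H u).filter (fun x => b * dg G x < Fintype.card V)).card
      + (dg H y - 1) * D + ∑ p ∈ (nb G y).erase u, dg H p : ℕ) := by exact_mod_cast h1
  rw [Nat.cast_add, Nat.cast_add, Nat.cast_add, Nat.cast_add, Nat.cast_mul, Nat.cast_sub hpos] at h5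
  have h2 : ((∑ x ∈ (nb G y).erase u, dg H x : ℕ) : ℝ) ≤ 2 * kap G H a u y := by
    unfold kap
    push_cast
    rw [Finset.mul_sum]
    refine Finset.sum_le_sum (fun x _ => ?_)
    have := cc_ge (n := Fintype.card V) (a := a) (k := dg H x)
    have h0 : (0 : ℝ) ≤ dg H x := Nat.cast_nonneg _
    nlinarith
  have h6 := mul_le_mul_of_nonneg_right (show (dg H y : ℝ) - 1 ≤ b - dg H u - 1 by linarith)
    (Nat.cast_nonneg (α := ℝ) D)
  have e1 : (hiF G b) = univ.filter (fun x => Fintype.card V ≤ b * dg G x) := rfl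
  rw [e1]
  push_cast at h5 h2
  linarith

end

end Pool.Agent.MP_7c6760_co
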