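import Pool.Agent.Lib.MP_7c6760_co.OreReal

/-! The integer checks imply the real inequalities. -/

namespace Pool.Agent.MP_7c6760_co.Ore

/-- the cases which are checked -/
inductive Node (S : Sd ℤ) (w0 : ℤ) : Ty → ℝ → ℝ → Mu ℝ → Prop
  | a {w w2 : ℝ} : (w0 : ℝ) / 128 ≤ w → w ≤ 1 → Node S w0 .a w w2 S.Y0.r
  | b {w : ℝ} : (w0 : ℝ) / 128 ≤ w → w ≤ 1 → Node S w0 .b w (w ^ 2) S.Y0.r
  | c : Node S w0 .c ((w0 : ℝ) / 128) (2 * ((w0 : ℝ) / 128) - 1) S.Y1.r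
  | d : Node S w0 .c 1 1 S.Y2.r

lemma minZ_le (w0 C0 C10 C1s C2s C1n C2n T0 T1 T2 p : ℤ) :
    minZ w0 C0 C10 C1s C2s C1n C2n T0 T1 T2 p ≤ 16384 * (C0 + C10 * w0 - T0) ∧
    minZ w0 C0 C10 C1s C2s C1n C2n T0 T1 T2 p ≤ 16384 * (C0 + C10 * 128 - T0) ∧
    minZ w0 C0 C10 C1s C2s C1n C2n T0 T1 T2 p ≤
      16384 * (C0 + C1s * w0 - T0) + C2s * (2 * p * 128 * w0 - p * p) ∧
    minZ w0 C0 C10 C1s C2s C1n C2n T0 T1 T2 p ≤
      16384 * (C0 + C1s * 128 - T0) + C2s * (2 * p * 128 * 128 - p * p) ∧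
    minZ w0 C0 C10 C1s C2s C1n C2n T0 T1 T2 p ≤
      16384 * (C0 + C1n * w0 + C2n * (2 * 128 * w0 - 128 * 128) - T1) ∧
    minZ w0 C0 C10 C1s C2s C1n C2n T0 T1 T2 p ≤
      16384 * (C0 + C1n * 128 + C2n * (128 * 128) - T2) := by
  unfold minZ
  refine ⟨?_, ?_, ?_, ?_, ?_, ?_⟩
  · exact (min_le_left _ _).trans ((min_le_left _ _).trans (min_le_left _ _))
  · exact (min_le_left _ _).trans ((min_le_left _ _).trans (min_le_right _ _))
  · exact (min_le_left _ _).trans ((min_le_right _ _).trans (min_le_left _ _))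
  · exact (min_le_left _ _).trans ((min_le_right _ _).trans (min_le_right _ _))
  · exact (min_le_right _ _).trans (min_le_left _ _)
  · exact (min_le_right _ _).trans (min_le_right _ _)

lemma aff_ge {α β lo hi x m : ℝ} (h1 : m ≤ α + β * lo) (h2 : m ≤ α + β * hi) (hl : lo ≤ x)
    (hr : x ≤ hi) : m ≤ α + β * x := by
  rcases le_total 0 β with hb | hb
  · exact h1.trans (by linarith [mul_le_mul_of_nonneg_left hl hb])
  · exact h2.trans (by linarith [mul_le_mul_of_nonpos_left hr hb])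

lemma cast_a (P : Pm ℤ) (Y : Mu ℤ) (s t h g : ℤ) (w w2 : ℝ) :
    32 * 128 ^ 4 * K0 P.r Y.r .a w w2 (s / 128) (t / 128) (h / 128) (g / 128)
      = (c0Z P (128 - t) (131072 + 1024 * (h + g) + 15 * (h * g)) s h g : ℝ)
        + ((c1Z P (128 - t) h g - (128 - t) * (262144 * P.P0 + 1024 * (128 + 2 * h) * P.P1) : ℤ) : ℝ)
          * (128 * w)
        - (ytZ Y (131072 + 1024 * (h + g) + 15 * (h * g)) h : ℝ) := by
  simp only [K0, cst, cty, nu0, c0Z, c1Z, ytZ, Pm.r, Mu.r]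
  push_cast
  ring

lemma cast_b (P : Pm ℤ) (Y : Mu ℤ) (s t h g : ℤ) (w w2 : ℝ) :
    32 * 128 ^ 4 * K0 P.r Y.r .b w w2 (s / 128) (t / 128) (h / 128) (g / 128)
      = (c0Z P (128 - t) (131072 + 1024 * (h + g) + 15 * (h * g)) s h g : ℝ)
        + ((c1Z P (128 - t) h g - 8192 * ((128 - s) * (128 - t)) * P.L
            + 512 * P.B * h * (1024 + 15 * g) : ℤ) : ℝ) * (128 * w)
        + ((32 * P.B * (128 - t) * (128 - 2 * h) : ℤ) : ℝ) * (16384 * w2)
        - (ytZ Y (131072 + 1024 * (h + g) + 15 * (h * g)) h : ℝ) := by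
  simp only [K0, cst, cty, nu0, c0Z, c1Z, ytZ, Pm.r, Mu.r]
  push_cast
  ring

lemma cast_c (P : Pm ℤ) (Y : Mu ℤ) (s t h g : ℤ) (w w2 : ℝ) :
    32 * 128 ^ 4 * K0 P.r Y.r .c w w2 (s / 128) (t / 128) (h / 128) (g / 128)
      = (c0Z P (128 - t) (131072 + 1024 * (h + g) + 15 * (h * g)) s h g : ℝ)
        + ((c1Z P (128 - t) h g - 4096 * ((128 - s) * (128 - t)) * P.L
            + 128 * P.B * ((131072 + 1024 * (h + g) + 15 * (h * g)) - 16 * (h * g)
              - 2048 * (128 - s)) : ℤ) : ℝ) * (128 * w)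
        + ((16 * P.B * ((128 - s) * (128 - t)) : ℤ) : ℝ) * (16384 * w2)
        - (ytZ Y (131072 + 1024 * (h + g) + 15 * (h * g)) h : ℝ) := by
  simp only [K0, cst, cty, nu0, c0Z, c1Z, ytZ, Pm.r, Mu.r]
  push_cast
  ring

lemma m0Z_le {S : Sd ℤ} {w0 s t h g : ℤ} (hB : 0 ≤ S.P.B) (ht : t ≤ 128) (hh : 2 * h ≤ 128)
    {ty : Ty} {w w2 : ℝ} {Y : Mu ℝ} (hn : Node S w0 ty w w2 Y) :
    (m0Z S w0 s t h g : ℝ) ≤
      32 * 128 ^ 6 * K0 S.P.r Y ty w w2 (s / 128) (t / 128) (h / 128) (g / 128) := by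
  unfold m0Z m1Z
  obtain ⟨m, hm⟩ : ∃ m, m = minZ w0 (c0Z S.P (128 - t) (131072 + 1024 * (h + g) + 15 * (h * g)) s h g)
    (c1Z S.P (128 - t) h g - (128 - t) * (262144 * S.P.P0 + 1024 * (128 + 2 * h) * S.P.P1))
    (c1Z S.P (128 - t) h g - 8192 * ((128 - s) * (128 - t)) * S.P.L
      + 512 * S.P.B * h * (1024 + 15 * g))
    (32 * S.P.B * (128 - t) * (128 - 2 * h))
    (c1Z S.P (128 - t) h g - 4096 * ((128 - s) * (128 - t)) * S.P.L
      + 128 * S.P.B * ((131072 + 1024 * (h + g) + 15 * (h * g)) - 16 * (h * g)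
        - 2048 * (128 - s)))
    (16 * S.P.B * ((128 - s) * (128 - t)))
    (ytZ S.Y0 (131072 + 1024 * (h + g) + 15 * (h * g)) h)
    (ytZ S.Y1 (131072 + 1024 * (h + g) + 15 * (h * g)) h)
    (ytZ S.Y2 (131072 + 1024 * (h + g) + 15 * (h * g)) h)
    (tanZ (c1Z S.P (128 - t) h g - 8192 * ((128 - s) * (128 - t)) * S.P.L
      + 512 * S.P.B * h * (1024 + 15 * g)) (32 * S.P.B * (128 - t) * (128 - 2 * h)) w0) := ⟨_, rfl⟩
  rw [← hm]
  obtain ⟨p, hp⟩ : ∃ p, p = (tanZ (c1Z S.P (128 - t) h g - 8192 * ((128 - s) * (128 - t)) * S.P.L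
      + 512 * S.P.B * h * (1024 + 15 * g)) (32 * S.P.B * (128 - t) * (128 - 2 * h)) w0) := ⟨_, rfl⟩
  rw [← hp] at hm
  obtain ⟨v1, v2, v3, v4, v5, v6⟩ := minZ_le w0 (c0Z S.P (128 - t) (131072 + 1024 * (h + g) + 15 * (h * g)) s h g)
    (c1Z S.P (128 - t) h g - (128 - t) * (262144 * S.P.P0 + 1024 * (128 + 2 * h) * S.P.P1))
    (c1Z S.P (128 - t) h g - 8192 * ((128 - s) * (128 - t)) * S.P.L
      + 512 * S.P.B * h * (1024 + 15 * g))
    (32 * S.P.B * (128 - t) * (128 - 2 * h))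
    (c1Z S.P (128 - t) h g - 4096 * ((128 - s) * (128 - t)) * S.P.L
      + 128 * S.P.B * ((131072 + 1024 * (h + g) + 15 * (h * g)) - 16 * (h * g)
        - 2048 * (128 - s)))
    (16 * S.P.B * ((128 - s) * (128 - t)))
    (ytZ S.Y0 (131072 + 1024 * (h + g) + 15 * (h * g)) h)
    (ytZ S.Y1 (131072 + 1024 * (h + g) + 15 * (h * g)) h)
    (ytZ S.Y2 (131072 + 1024 * (h + g) + 15 * (h * g)) h) p
  rw [← hm] at v1 v2 v3 v4 v5 v6
  have hC2s : 0 ≤ 32 * S.P.B * (128 - t) * (128 - 2 * h) :=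
    mul_nonneg (mul_nonneg (by positivity) (by linarith)) (by linarith)
  cases hn with
  | a hw1 hw2 =>
    have e : 32 * 128 ^ 6 * K0 S.P.r S.Y0.r .a w w2 (s / 128) (t / 128) (h / 128) (g / 128)
        = 16384 * (32 * 128 ^ 4 * K0 S.P.r S.Y0.r .a w w2 (s / 128) (t / 128) (h / 128) (g / 128)) := by
      ring
    rw [e, cast_a]
    generalize c0Z S.P (128 - t) (131072 + 1024 * (h + g) + 15 * (h * g)) s h g = C0 at *
    generalize c1Z S.P (128 - t) h g - (128 - t) * (262144 * S.P.P0 + 1024 * (128 + 2 * h) * S.P.P1)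
      = C1 at *
    generalize ytZ S.Y0 (131072 + 1024 * (h + g) + 15 * (h * g)) h = T0 at *
    have v1' : (m : ℝ) ≤ 16384 * (C0 + C1 * w0 - T0) := by exact_mod_cast v1
    have v2' : (m : ℝ) ≤ 16384 * (C0 + C1 * 128 - T0) := by exact_mod_cast v2
    have := aff_ge (α := 16384 * ((C0 : ℝ) - T0)) (β := 16384 * C1 * 128) (lo := (w0 : ℝ) / 128)
      (hi := 1) (x := w) (m := m) (by linarith) (by linarith) hw1 hw2
    linarith
  | b hw1 hw2 =>
    have e : 32 * 128 ^ 6 * K0 S.P.r S.Y0.r .b w (w ^ 2) (s / 128) (t / 128) (h / 128) (g / 128)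
        = 16384 * (32 * 128 ^ 4 * K0 S.P.r S.Y0.r .b w (w ^ 2) (s / 128) (t / 128) (h / 128) (g / 128)) := by
      ring
    rw [e, cast_b]
    generalize c0Z S.P (128 - t) (131072 + 1024 * (h + g) + 15 * (h * g)) s h g = C0 at *
    generalize c1Z S.P (128 - t) h g - 8192 * ((128 - s) * (128 - t)) * S.P.L
      + 512 * S.P.B * h * (1024 + 15 * g) = C1 at *
    generalize 32 * S.P.B * (128 - t) * (128 - 2 * h) = C2 at *
    generalize ytZ S.Y0 (131072 + 1024 * (h + g) + 15 * (h * g)) h = T0 at *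
    have v3' : (m : ℝ) ≤ 16384 * (C0 + C1 * w0 - T0) + C2 * (2 * p * 128 * w0 - p * p) := by
      exact_mod_cast v3
    have v4' : (m : ℝ) ≤ 16384 * (C0 + C1 * 128 - T0) + C2 * (2 * p * 128 * 128 - p * p) := by
      exact_mod_cast v4
    have hC2' : (0 : ℝ) ≤ C2 := by exact_mod_cast hC2s
    have := aff_ge (α := 16384 * ((C0 : ℝ) - T0) - C2 * (p * p))
      (β := 16384 * C1 * 128 + C2 * (2 * p * 128) * 128) (lo := (w0 : ℝ) / 128)
      (hi := 1) (x := w) (m := m) (by linarith) (by linarith) hw1 hw2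
    have h3 : 0 ≤ (C2 : ℝ) * (16384 * w - p) ^ 2 := mul_nonneg hC2' (sq_nonneg _)
    nlinarith
  | c =>
    have e : 32 * 128 ^ 6 * K0 S.P.r S.Y1.r .c ((w0 : ℝ) / 128) (2 * ((w0 : ℝ) / 128) - 1) (s / 128) (t / 128) (h / 128) (g / 128)
        = 16384 * (32 * 128 ^ 4 * K0 S.P.r S.Y1.r .c ((w0 : ℝ) / 128) (2 * ((w0 : ℝ) / 128) - 1) (s / 128) (t / 128) (h / 128) (g / 128)) := by
      ring
    rw [e, cast_c]
    generalize c0Z S.P (128 - t) (131072 + 1024 * (h + g) + 15 * (h * g)) s h g = C0 at *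
    generalize c1Z S.P (128 - t) h g - 4096 * ((128 - s) * (128 - t)) * S.P.L
      + 128 * S.P.B * ((131072 + 1024 * (h + g) + 15 * (h * g)) - 16 * (h * g)
        - 2048 * (128 - s)) = C1 at *
    generalize 16 * S.P.B * ((128 - s) * (128 - t)) = C2 at *
    generalize ytZ S.Y1 (131072 + 1024 * (h + g) + 15 * (h * g)) h = T0 at *
    have v5' : (m : ℝ) ≤ 16384 * (C0 + C1 * w0 + C2 * (2 * 128 * w0 - 128 * 128) - T0) := by
      exact_mod_cast v5
    linarith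
  | d =>
    have e : 32 * 128 ^ 6 * K0 S.P.r S.Y2.r .c 1 1 (s / 128) (t / 128) (h / 128) (g / 128)
        = 16384 * (32 * 128 ^ 4 * K0 S.P.r S.Y2.r .c 1 1 (s / 128) (t / 128) (h / 128) (g / 128)) := by
      ring
    rw [e, cast_c]
    generalize c0Z S.P (128 - t) (131072 + 1024 * (h + g) + 15 * (h * g)) s h g = C0 at *
    generalize c1Z S.P (128 - t) h g - 4096 * ((128 - s) * (128 - t)) * S.P.L
      + 128 * S.P.B * ((131072 + 1024 * (h + g) + 15 * (h * g)) - 16 * (h * g)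
        - 2048 * (128 - s)) = C1 at *
    generalize 16 * S.P.B * ((128 - s) * (128 - t)) = C2 at *
    generalize ytZ S.Y2 (131072 + 1024 * (h + g) + 15 * (h * g)) h = T0 at *
    have v6' : (m : ℝ) ≤ 16384 * (C0 + C1 * 128 + C2 * (128 * 128) - T0) := by
      exact_mod_cast v6
    linarith

end Pool.Agent.MP_7c6760_co.Ore
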