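import Pool.Agent.Lib.MP_7c6760_co.OreLeaf

/-! Soundness of the check of a tree of boxes. -/

namespace Pool.Agent.MP_7c6760_co.Ore

/-- what the certificates give at a point -/
def Concl (s t h g : ℝ) : Prop :=
  ∃ P P' : Pm ℝ, Adm P s t h g ∧ Adm P' t s g h ∧
    ∀ μ e μ' e' ν' : ℝ, 0 < ν' → Str s h g μ e ν' → Str t g h μ' e' ν' →
      ∀ (ty ty' : Ty) (w w' : ℝ), 1 / 2 + g ≤ w → w ≤ 1 → 1 / 2 + h ≤ w' → w' ≤ 1 →
        0 < GU P P'.B ty w (w ^ 2) s t h g μ e ν' + GU P' P.B ty' w' (w' ^ 2) t s g h μ' e' ν'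

lemma GU_inter {P : Pm ℝ} {B' s t h g μ e ν' w w0 X : ℝ} (hB : 0 ≤ P.B) (ht : t ≤ 1) (hs : s ≤ 1)
    (h1 : w0 ≤ w) (h2 : w ≤ 1)
    (hc : 0 < GU P B' .c w0 (2 * w0 - 1) s t h g μ e ν' + X)
    (hd : 0 < GU P B' .c 1 1 s t h g μ e ν' + X) :
    0 < GU P B' .c w (w ^ 2) s t h g μ e ν' + X := by
  have e1 : GU P B' .c w (w ^ 2) s t h g μ e ν'
      = GU P B' .c w (2 * w - 1) s t h g μ e ν'
        + 1 / 2 * (P.B * (1 - t) * (1 - s)) * (w - 1) ^ 2 := by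
    simp only [GU, cst, cty]; ring
  have e2 : 0 ≤ 1 / 2 * (P.B * (1 - t) * (1 - s)) * (w - 1) ^ 2 := by
    have : 0 ≤ P.B * (1 - t) * (1 - s) :=
      mul_nonneg (mul_nonneg hB (by linarith)) (by linarith)
    positivity
  have e3 : (1 - w0) * GU P B' .c w (2 * w - 1) s t h g μ e ν'
      = (1 - w) * GU P B' .c w0 (2 * w0 - 1) s t h g μ e ν'
        + (w - w0) * GU P B' .c 1 1 s t h g μ e ν' := by
    simp only [GU, cst, cty]; ring
  rcases eq_or_lt_of_le (h1.trans h2) with he | hlt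
  · have hw : w = w0 := by linarith
    rw [e1, hw]
    rw [hw] at e2
    linarith
  · have e4 : 0 < (1 - w0) * (GU P B' .c w (2 * w - 1) s t h g μ e ν' + X) := by
      have e5 : (1 - w0) * (GU P B' .c w (2 * w - 1) s t h g μ e ν' + X)
          = (1 - w) * (GU P B' .c w0 (2 * w0 - 1) s t h g μ e ν' + X)
            + (w - w0) * (GU P B' .c 1 1 s t h g μ e ν' + X) := by
        rw [mul_add, e3]; ring
      rw [e5]
      rcases eq_or_lt_of_le h2 with h3 | h3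
      · rw [h3]; nlinarith
      · have := mul_pos (sub_pos.mpr h3) hc
        have := mul_nonneg (sub_nonneg.mpr h1) hd.le
        linarith
    have e6 := pos_of_mul_pos_of_pos_left e4 (by linarith)
    linarith
where
  pos_of_mul_pos_of_pos_left {a b : ℝ} (h : 0 < a * b) (ha : 0 ≤ a) : 0 < b :=
    pos_of_mul_pos_of_nonneg_left' h ha
  pos_of_mul_pos_of_nonneg_left' {a b : ℝ} (h : 0 < a * b) (ha : 0 ≤ a) : 0 < b := by
    by_contra hb
    push Not at hb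
    have := mul_nonpos_of_nonneg_of_nonpos ha hb
    linarith

lemma node_all {S : Sd ℤ} {w0 : ℤ} {B' s t h g μ e ν' X : ℝ} (hB : 0 ≤ S.P.B) (ht : t ≤ 1)
    (hs : s ≤ 1)
    (hn : ∀ ty w w2 Y, Node S w0 ty w w2 Y → 0 < GU S.P.r B' ty w w2 s t h g μ e ν' + X) :
    ∀ (ty : Ty) (w : ℝ), (w0 : ℝ) / 128 ≤ w → w ≤ 1 →
      0 < GU S.P.r B' ty w (w ^ 2) s t h g μ e ν' + X := by
  intro ty w h1 h2
  cases ty with
  | a => exact hn _ _ _ _ (Node.a h1 h2)
  | b => exact hn _ _ _ _ (Node.b h1 h2)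
  | c =>
    refine GU_inter ?_ ht hs h1 h2 (hn _ _ _ _ Node.c) (hn _ _ _ _ Node.d)
    show (0 : ℝ) ≤ S.P.B
    exact_mod_cast hB

lemma corn_le {U U' : Sd ℤ} {w0 w0' s t h g : ℤ} (hB : 0 ≤ U.P.B) (hB' : 0 ≤ U'.P.B)
    (hs : s ≤ 128) (ht : t ≤ 128) (hh : 2 * h ≤ 128) (hg : 2 * g ≤ 128)
    (hc : cornZ U U' w0 w0' s t h g = true)
    {ty ty' : Ty} {w w2 w' w2' : ℝ} {Y Y' : Mu ℝ} (hn : Node U w0 ty w w2 Y)
    (hn' : Node U' w0' ty' w' w2' Y') :
    0 ≤ K0 U.P.r Y ty w w2 (s / 128) (t / 128) (h / 128) (g / 128)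
      + K0 U'.P.r Y' ty' w' w2' (t / 128) (s / 128) (g / 128) (h / 128) := by
  have h1 := m0Z_le (s := s) (t := t) (h := h) (g := g) hB ht hh hn
  have h2 := m0Z_le (s := t) (t := s) (h := g) (g := h) hB' hs hg hn'
  have h3 : (0 : ℝ) ≤ m0Z U w0 s t h g + m0Z U' w0' t s g h := by
    unfold cornZ at hc
    exact_mod_cast of_decide_eq_true hc
  linarith

lemma leaf_concl {U U' : Sd ℤ} {b : Bx} {s t h g : ℝ} (hc : leafZ U U' b = true)
    (hb : InBx b s t h g) (hs1 : b.s1 ≤ 64) (ht1 : b.t1 ≤ 64) (hh1 : b.h1 ≤ 64)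
    (hg1 : b.g1 ≤ 64) : Concl s t h g := by
  simp only [leafZ, Bool.and_eq_true, decide_eq_true_eq] at hc
  obtain ⟨⟨⟨⟨⟨⟨⟨⟨⟨⟨⟨I, nn⟩, nn'⟩, sd⟩, sd'⟩, kz⟩, kz'⟩, m5⟩, G1⟩, G2⟩, G3⟩, G4⟩ := hc
  obtain ⟨⟨⟨i1, i2⟩, i3⟩, i4⟩ := I
  obtain ⟨⟨⟨c1, c2⟩, c3⟩, c4⟩ := G1
  obtain ⟨⟨⟨c5, c6⟩, c7⟩, c8⟩ := G2
  obtain ⟨⟨⟨c9, c10⟩, c11⟩, c12⟩ := G3
  obtain ⟨⟨⟨c13, c14⟩, c15⟩, c16⟩ := G4
  have hB := (Pm.nn_nonneg nn).2.1
  have hB' := (Pm.nn_nonneg nn').2.1
  have A1 : Adm U.P.r s t h g := adm_of nn sd hb i4 ht1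
  have A2 : Adm U'.P.r t s g h := adm_of nn' sd' hb.sw i3 hs1
  have bs0 := hb.s0
  have bs1 := hb.s1
  have bt0 := hb.t0
  have bt1 := hb.t1
  have bh0 := hb.h0
  have bh1 := hb.h1
  have bg0 := hb.g0
  have bg1 := hb.g1
  have cs1 : (b.s1 : ℝ) ≤ 64 := by exact_mod_cast hs1
  have ct1 : (b.t1 : ℝ) ≤ 64 := by exact_mod_cast ht1
  have ch0 : (0 : ℝ) ≤ b.h0 := by exact_mod_cast i3
  have cg0 : (0 : ℝ) ≤ b.g0 := by exact_mod_cast i4
  have cs0 : (0 : ℝ) ≤ b.s0 := by exact_mod_cast i1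
  have ct0 : (0 : ℝ) ≤ b.t0 := by exact_mod_cast i2
  have zs0 : b.s0 ≤ 64 := by
    have : (b.s0 : ℝ) ≤ 64 := by linarith
    exact_mod_cast this
  have zt0 : b.t0 ≤ 64 := by
    have : (b.t0 : ℝ) ≤ 64 := by linarith
    exact_mod_cast this
  have zh0 : b.h0 ≤ 64 := by
    have hh1' : (b.h1 : ℝ) ≤ 64 := by exact_mod_cast hh1
    have : (b.h0 : ℝ) ≤ 64 := by linarith
    exact_mod_cast this
  have zg0 : b.g0 ≤ 64 := by
    have hg1' : (b.g1 : ℝ) ≤ 64 := by exact_mod_cast hg1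
    have : (b.g0 : ℝ) ≤ 64 := by linarith
    exact_mod_cast this
  refine ⟨U.P.r, U'.P.r, A1, A2, ?_⟩
  intro μ e μ' e' ν' hν hS hS'
  have main : ∀ ty w w2 Y, Node U (64 + b.g0) ty w w2 Y → ∀ ty' w' w2' Y',
      Node U' (64 + b.h0) ty' w' w2' Y' →
      0 < GU U.P.r U'.P.r.B ty w w2 s t h g μ e ν'
        + GU U'.P.r U.P.r.B ty' w' w2' t s g h μ' e' ν' := by
    intro ty w w2 Y hn ty' w' w2' Y' hn'
    obtain ⟨ok, k1, k2⟩ := K1_node (s := s) (h := h) kz bs0 bs1 bh0 bh1 hn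
    obtain ⟨ok', k1', k2'⟩ := K1_node (s := t) (h := g) kz' bt0 bt1 bg0 bg1 hn'
    have f1 := farkas (w2 := w2) (B' := U'.P.r.B) (t := t) (ty := ty) ok hS (by linarith) k1 k2
    have f2 := farkas (w2 := w2') (B' := U.P.r.B) (t := s) (ty := ty') ok' hS' (by linarith)
      k1' k2'
    have k5 := K5_node (s := s) (h := h) (b := b) bs0 bs1 bh0 bh1 hn
    have k5' := K5_node (s := t) (h := g) (b := b.sw) bt0 bt1 bg0 bg1 hn'
    have k5s : 0 < K5 U.P.r Y ty.n w s h + K5 U'.P.r Y' ty'.n w' t g := by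
      have : (0 : ℝ) < (m5Z U (64 + b.g0) b : ℝ) + m5Z U' (64 + b.h0) b.sw := by
        exact_mod_cast m5
      linarith
    have k0 : 0 ≤ K0 U.P.r Y ty w w2 s t h g + K0 U'.P.r Y' ty' w' w2' t s g h := by
      have hY : 0 ≤ Y.g := ok.g
      have hY' : 0 ≤ Y'.g := ok'.g
      refine box4 (fun s t h g => K0 U.P.r Y ty w w2 s t h g + K0 U'.P.r Y' ty' w' w2' t s g h)
        (s0 := (b.s0 : ℝ) / 128) (s1 := (b.s1 : ℝ) / 128) (t0 := (b.t0 : ℝ) / 128)
        (t1 := (b.t1 : ℝ) / 128) (h0 := (b.h0 : ℝ) / 128) (h1 := (b.h1 : ℝ) / 128)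
        (g0 := (b.g0 : ℝ) / 128) (g1 := (b.g1 : ℝ) / 128) (by positivity) (by positivity)
        (by linarith) ?_ ?_ ?_ ?_ ?_ bs0 bs1 bt0 bt1 bh0 bh1 bg0 bg1
      · intro t h g; exact (K0_s _ _ _ _ _ _ _ _).add (K0_t _ _ _ _ _ _ _ _)
      · intro s h g; exact (K0_t _ _ _ _ _ _ _ _).add (K0_s _ _ _ _ _ _ _ _)
      · intro s t g hg
        exact (K0_h _ _ _ _ _ _ _ _ A1.W0 hY hg).add (K0_g _ _ _ _ _ _ _ _)
      · intro s t h hh
        exact (K0_g _ _ _ _ _ _ _ _).add (K0_h _ _ _ _ _ _ _ _ A2.W0 hY' hh)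
      · intro s t h g hs ht hh hg
        rcases hs with rfl | rfl <;> rcases ht with rfl | rfl <;> rcases hh with rfl | rfl <;>
          rcases hg with rfl | rfl
        · exact corn_le hB hB' (by linarith) (by linarith) (by linarith) (by linarith) c1 hn hn'
        · exact corn_le hB hB' (by linarith) (by linarith) (by linarith) (by linarith) c2 hn hn'
        · exact corn_le hB hB' (by linarith) (by linarith) (by linarith) (by linarith) c3 hn hn'
        · exact corn_le hB hB' (by linarith) (by linarith) (by linarith) (by linarith) c4 hn hn'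
        · exact corn_le hB hB' (by linarith) (by linarith) (by linarith) (by linarith) c5 hn hn'
        · exact corn_le hB hB' (by linarith) (by linarith) (by linarith) (by linarith) c6 hn hn'
        · exact corn_le hB hB' (by linarith) (by linarith) (by linarith) (by linarith) c7 hn hn'
        · exact corn_le hB hB' (by linarith) (by linarith) (by linarith) (by linarith) c8 hn hn'
        · exact corn_le hB hB' (by linarith) (by linarith) (by linarith) (by linarith) c9 hn hn'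
        · exact corn_le hB hB' (by linarith) (by linarith) (by linarith) (by linarith) c10 hn hn'
        · exact corn_le hB hB' (by linarith) (by linarith) (by linarith) (by linarith) c11 hn hn'
        · exact corn_le hB hB' (by linarith) (by linarith) (by linarith) (by linarith) c12 hn hn'
        · exact corn_le hB hB' (by linarith) (by linarith) (by linarith) (by linarith) c13 hn hn'
        · exact corn_le hB hB' (by linarith) (by linarith) (by linarith) (by linarith) c14 hn hn'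
        · exact corn_le hB hB' (by linarith) (by linarith) (by linarith) (by linarith) c15 hn hn'
        · exact corn_le hB hB' (by linarith) (by linarith) (by linarith) (by linarith) c16 hn hn'
    have k5ν := mul_pos k5s hν
    have e1 : K5 U'.P.r Y' ty'.n w' t g * ν' + K5 U.P.r Y ty.n w s h * ν'
      = (K5 U.P.r Y ty.n w s h + K5 U'.P.r Y' ty'.n w' t g) * ν' := by ring
    linarith
  intro ty ty' w w' hw1 hw2 hw1' hw2'
  have hg0 : ((64 + b.g0 : ℤ) : ℝ) / 128 ≤ w := by push_cast; linarith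
  have hh0 : ((64 + b.h0 : ℤ) : ℝ) / 128 ≤ w' := by push_cast; linarith
  have step1 : ∀ ty' w' w2' Y', Node U' (64 + b.h0) ty' w' w2' Y' →
      0 < GU U.P.r U'.P.r.B ty w (w ^ 2) s t h g μ e ν'
        + GU U'.P.r U.P.r.B ty' w' w2' t s g h μ' e' ν' := by
    intro ty' w' w2' Y' hn'
    exact node_all hB (by linarith) (by linarith) (fun ty w w2 Y hn => main ty w w2 Y hn _ _ _ _ hn')
      ty w hg0 hw2
  have step2 := node_all (S := U') (w0 := 64 + b.h0) (B' := U.P.r.B) (s := t) (t := s) (h := g)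
    (g := h) (μ := μ') (e := e') (ν' := ν') (X := GU U.P.r U'.P.r.B ty w (w ^ 2) s t h g μ e ν')
    hB' (by linarith) (by linarith)
    (fun ty' w' w2' Y' hn' => by have := step1 ty' w' w2' Y' hn'; linarith) ty' w' hh0 hw2'
  linarith

/-- the conclusion holds at all relevant points of a box -/
def Good (b : Bx) : Prop := ∀ s t h g : ℝ, InBx b s t h g → (b.t0 = 0 ∨ (b.t0 : ℝ) / 128 < t) →
  s + h ≤ 1 / 2 → t + g ≤ 1 / 2 → t ≤ s → Concl s t h g

lemma good_ss {b : Bx} {m : ℤ} (hl : Good ⟨b.s0, m, b.t0, b.t1, b.h0, b.h1, b.g0, b.g1⟩)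
    (hr : Good ⟨m, b.s1, b.t0, b.t1, b.h0, b.h1, b.g0, b.g1⟩) : Good b := by
  intro s t h g hb ht hd hd' hts
  rcases le_total s ((m : ℝ) / 128) with hm | hm
  · exact hl s t h g ⟨hb.s0, hm, hb.t0, hb.t1, hb.h0, hb.h1, hb.g0, hb.g1⟩ ht hd hd' hts
  · exact hr s t h g ⟨hm, hb.s1, hb.t0, hb.t1, hb.h0, hb.h1, hb.g0, hb.g1⟩ ht hd hd' hts

lemma good_st {b : Bx} {m : ℤ} (hl : Good ⟨b.s0, b.s1, b.t0, m, b.h0, b.h1, b.g0, b.g1⟩)
    (hr : Good ⟨b.s0, b.s1, m, b.t1, b.h0, b.h1, b.g0, b.g1⟩) : Good b := by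
  intro s t h g hb ht hd hd' hts
  rcases le_or_gt t ((m : ℝ) / 128) with hm | hm
  · exact hl s t h g ⟨hb.s0, hb.s1, hb.t0, hm, hb.h0, hb.h1, hb.g0, hb.g1⟩ ht hd hd' hts
  · exact hr s t h g ⟨hb.s0, hb.s1, hm.le, hb.t1, hb.h0, hb.h1, hb.g0, hb.g1⟩ (Or.inr hm)
      hd hd' hts

lemma good_sh {b : Bx} {m : ℤ} (hl : Good ⟨b.s0, b.s1, b.t0, b.t1, b.h0, m, b.g0, b.g1⟩)
    (hr : Good ⟨b.s0, b.s1, b.t0, b.t1, m, b.h1, b.g0, b.g1⟩) : Good b := by
  intro s t h g hb ht hd hd' hts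
  rcases le_total h ((m : ℝ) / 128) with hm | hm
  · exact hl s t h g ⟨hb.s0, hb.s1, hb.t0, hb.t1, hb.h0, hm, hb.g0, hb.g1⟩ ht hd hd' hts
  · exact hr s t h g ⟨hb.s0, hb.s1, hb.t0, hb.t1, hm, hb.h1, hb.g0, hb.g1⟩ ht hd hd' hts

lemma good_sg {b : Bx} {m : ℤ} (hl : Good ⟨b.s0, b.s1, b.t0, b.t1, b.h0, b.h1, b.g0, m⟩)
    (hr : Good ⟨b.s0, b.s1, b.t0, b.t1, b.h0, b.h1, m, b.g1⟩) : Good b := by
  intro s t h g hb ht hd hd' hts
  rcases le_total g ((m : ℝ) / 128) with hm | hm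
  · exact hl s t h g ⟨hb.s0, hb.s1, hb.t0, hb.t1, hb.h0, hb.h1, hb.g0, hm⟩ ht hd hd' hts
  · exact hr s t h g ⟨hb.s0, hb.s1, hb.t0, hb.t1, hb.h0, hb.h1, hm, hb.g1⟩ ht hd hd' hts

lemma chk_good : ∀ (T : Tr) (b : Bx), chk T b = true → 0 ≤ b.s0 → 0 ≤ b.t0 → 0 ≤ b.h0 →
    0 ≤ b.g0 → Good b := by
  intro T
  induction T with
  | skip =>
    intro b hc _ _ _ _ s t h g hb ht hd hd' hts
    simp only [chk, Bool.and_eq_true, decide_eq_true_eq] at hc
    exfalso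
    rcases ht with ht | ht
    · omega
    · have h1 : (b.s1 : ℝ) ≤ b.t0 := by exact_mod_cast hc.1
      have h2 := hb.s1
      linarith
  | empty =>
    intro b hc _ _ _ _ s t h g hb ht hd hd' hts
    simp only [chk, Bool.or_eq_true, decide_eq_true_eq] at hc
    exfalso
    rcases hc with hc | hc
    · have h1 : (64 : ℝ) < b.s0 + b.h0 := by exact_mod_cast hc
      have h2 := hb.s0
      have h3 := hb.h0
      linarith
    · have h1 : (64 : ℝ) < b.t0 + b.g0 := by exact_mod_cast hc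
      have h2 := hb.t0
      have h3 := hb.g0
      linarith
  | leaf U U' =>
    intro b hc hs0 ht0 hh0 hg0 s t h g hb ht hd hd' hts
    simp only [chk] at hc
    have bs0 := hb.s0
    have bt0 := hb.t0
    have bh0 := hb.h0
    have bg0 := hb.g0
    refine leaf_concl hc ⟨hb.s0, ?_, hb.t0, ?_, hb.h0, ?_, hb.g0, ?_⟩ ?_ ?_ ?_ ?_
    · show s ≤ ((min b.s1 (64 - b.h0) : ℤ) : ℝ) / 128
      push_cast
      rw [le_div_iff₀ (by norm_num)]
      exact le_min (by linarith [hb.s1]) (by linarith)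
    · show t ≤ ((min b.t1 (64 - b.g0) : ℤ) : ℝ) / 128
      push_cast
      rw [le_div_iff₀ (by norm_num)]
      exact le_min (by linarith [hb.t1]) (by linarith)
    · show h ≤ ((min b.h1 (64 - b.s0) : ℤ) : ℝ) / 128
      push_cast
      rw [le_div_iff₀ (by norm_num)]
      exact le_min (by linarith [hb.h1]) (by linarith)
    · show g ≤ ((min b.g1 (64 - b.t0) : ℤ) : ℝ) / 128
      push_cast
      rw [le_div_iff₀ (by norm_num)]
      exact le_min (by linarith [hb.g1]) (by linarith)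
    · show min b.s1 (64 - b.h0) ≤ 64
      exact (min_le_right _ _).trans (by linarith)
    · show min b.t1 (64 - b.g0) ≤ 64
      exact (min_le_right _ _).trans (by linarith)
    · show min b.h1 (64 - b.s0) ≤ 64
      exact (min_le_right _ _).trans (by linarith)
    · show min b.g1 (64 - b.t0) ≤ 64
      exact (min_le_right _ _).trans (by linarith)
  | ss m l r ihl ihr =>
    intro b hc hs0 ht0 hh0 hg0
    simp only [chk, Bool.and_eq_true, decide_eq_true_eq] at hc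
    exact good_ss (m := m) (ihl _ hc.1.2 hs0 ht0 hh0 hg0) (ihr _ hc.2 hc.1.1 ht0 hh0 hg0)
  | st m l r ihl ihr =>
    intro b hc hs0 ht0 hh0 hg0
    simp only [chk, Bool.and_eq_true, decide_eq_true_eq] at hc
    exact good_st (m := m) (ihl _ hc.1.2 hs0 ht0 hh0 hg0) (ihr _ hc.2 hs0 hc.1.1 hh0 hg0)
  | sh m l r ihl ihr =>
    intro b hc hs0 ht0 hh0 hg0
    simp only [chk, Bool.and_eq_true, decide_eq_true_eq] at hc
    exact good_sh (m := m) (ihl _ hc.1.2 hs0 ht0 hh0 hg0) (ihr _ hc.2 hs0 ht0 hc.1.1 hg0)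
  | sg m l r ihl ihr =>
    intro b hc hs0 ht0 hh0 hg0
    simp only [chk, Bool.and_eq_true, decide_eq_true_eq] at hc
    exact good_sg (m := m) (ihl _ hc.1.2 hs0 ht0 hh0 hg0) (ihr _ hc.2 hs0 ht0 hh0 hc.1.1)

end Pool.Agent.MP_7c6760_co.Ore
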