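import Pool.Agent.Lib.MP_7c6760_co.OreSide

/-! The inequality of one side, assembled. -/

namespace Pool.Agent.MP_7c6760_co

open Finset

noncomputable section

open Classical

set_option linter.unusedSectionVars false

variable {V : Type*} [Fintype V]

variable {G G2 H : SimpleGraph V} {q u v x y z : V} {a b D E : ℕ}

theorem sideU (hcr : Crit G G2) (ha : OreLe G a) (hb : OreLe G2 b)
    (hn : a * b < 2 * Fintype.card V) (hD : ∀ x, dg G x ≤ D) (hDex : ∃ v, dg G v = D)
    (hE : ∀ x, dg G2 x ≤ E) :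
    ∃ π : ℕ, b + 1 ≤ 2 * π ∧ π ≤ E ∧ ∀ (L β w P0 P1 M A Vv K : ℝ),
      SP a b D E L β w P0 P1 M A →
      2 * ((b : ℝ) - π - 1) * (M - β * (b + 1) / 2) + 2 * M ≤ Vv → Vv ≤ A + L →
      ((a : ℝ) - 1) / 2 * (P0 + P1 * (a + 1) / 2) ≤ K →
      2 * (D * L) - β * (2 * Fintype.card V - 2 * π - ((b : ℝ) - π) * (a - 1)) ≤ K →
      D * L - β / 2 * ((Fintype.card V : ℝ) - (hiF G b).card - 1 - ((b : ℝ) - π - 1) * D) ≤ K →
      2 * (L * ((Fintype.card V : ℝ) - (hiF G b).card)
        + w * (eF G b - ((a : ℝ) - D) * ((Fintype.card V : ℝ) - (hiF G b).card))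
        + P0 * (hiF G b).card + P1 * eF G b - 3 / 2 * β * eF G2 a)
        - L + 2 * β * π - (((a : ℝ) - D) - 1) * A - Vv - π * K - β * (π : ℝ) ^ 2 / 8 ≤ 0 := by
  obtain ⟨D', u, H, h⟩ := exists_NM hcr ha hb hn
  have hDD : D' = D := by
    obtain ⟨v, hv⟩ := h.exD
    obtain ⟨v', hv'⟩ := hDex
    have h1 := hD v
    have h2 := h.maxD v'
    omega
  subst hDD
  have hb2 := hi2_deg (b := b) hn h.hi2
  have hπE := h.copy.dg_le hE u
  have hcardpos : 0 < Fintype.card V := Fintype.card_pos_iff.mpr ⟨u⟩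
  have ha1 : 1 ≤ a := by
    by_contra hcon
    have : a = 0 := by omega
    have := h.hi2
    simp_all
  obtain ⟨y0, hy0⟩ := Finset.card_pos.mp (show 0 < (nb H u).card by
    have : 0 < dg H u := by omega
    exact this)
  have hb1 : 1 ≤ b := by
    have h1 := (hb.copy h.copy) u y0 (by simpa using hy0)
    omega
  refine ⟨dg H u, hb2, hπE, ?_⟩
  intro L β w P0 P1 M A Vv K sp hVv hVA hK0 hKs hKn
  have hpos : 0 ≤ M - β * (b + 1) / 2 := by
    have h1 : ((b + 1 : ℕ) : ℝ) ≤ ((2 * dg H u : ℕ) : ℝ) := by exact_mod_cast hb2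
    push_cast at h1
    have h2 := mul_le_mul_of_nonneg_left h1 sp.β0
    have h3 := sp.βk hπE
    linarith [sp.LM]
  -- sets
  obtain ⟨C, hC⟩ : ∃ C, C = nb G u ∩ nb H u := ⟨_, rfl⟩
  obtain ⟨S, hS⟩ : ∃ S, S = (insert u C)ᶜ := ⟨_, rfl⟩
  have huC : u ∉ C := by rw [hC]; simp
  have hCX : C ⊆ nb G u := by rw [hC]; exact Finset.inter_subset_left
  have hCne : 1 ≤ C.card := by
    obtain ⟨p, r, hG, hH⟩ := hcr.no H h.copy
    rcases h.atu p r hG hH with h' | h'
    · exact Finset.card_pos.mpr ⟨r, by rw [hC]; simp [← h', hG, hH]⟩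
    · exact Finset.card_pos.mpr ⟨p, by rw [hC]; simp [← h', hG.symm, hH.symm]⟩
  have huS : u ∉ S := by rw [hS]; simp
  have hSu : ∀ z ∈ S, z ≠ u := fun z hz e => huS (e ▸ hz)
  have hSC : ∀ z ∈ S, ¬ (G.Adj u z ∧ H.Adj u z) := by
    intro z hz e
    rw [hS, mem_compl, mem_insert, not_or, hC] at hz
    exact hz.2 (by simp [e.1, e.2])
  obtain ⟨W, hW⟩ : ∃ W : V → ℝ, W = Wt G H a b D' L β w P0 P1 := ⟨_, rfl⟩
  have hW0 : ∀ z, 0 ≤ W z := by rw [hW]; exact Wt_nonneg sp h.copy hE
  -- the two kinds of neighbours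
  obtain ⟨tA, htA⟩ : ∃ t : V → Prop, ∀ x, t x ↔ a * dg H x < Fintype.card V :=
    ⟨_, fun _ => Iff.rfl⟩
  obtain ⟨tB, htB⟩ : ∃ t : V → Prop, ∀ x, t x ↔ ∃ z, z ≠ u ∧ H.Adj u x ∧ One G (sw H u z) z x :=
    ⟨_, fun _ => Iff.rfl⟩
  have hlo := h.lo1
  have cov := cover_sum hcr.no h.copy h.atu S hSu hSC tA tB ?_ ?_ W (fun z _ => hW0 z)
  rotate_left
  · intro z hz x hx1 hx2 hone
    rw [htA]
    have h1 := dich hcr.no ha hb hn (h.copy.sw u z) hone
    have h2 : dg (sw H u z) x = dg H x := dg_sw_of_ne hx1.ne' hx2.ne'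
    rw [h2] at h1
    rcases h1 with h1 | h1
    · omega
    · exact h1.2.2.2
  · intro z hz x hx1 hx2 hone
    rw [htB]
    exact ⟨z, hSu z hz, hx1, hone⟩
  -- first sum
  have bipG := hcr.bip1 ha hb hn
  have first : ∑ x ∈ nb G u, (if tA x then (2 : ℝ) else 1) * ∑ z ∈ nb H x ∩ S, W z
      + 2 * ∑ x ∈ C, W x ≤ (((a : ℝ) - D') - 1) * A + (Vv - L) + C.card * L := by
    rw [← Finset.sum_sdiff hCX]
    have f1 : ∑ x ∈ nb G u \ C, (if tA x then (2 : ℝ) else 1) * ∑ z ∈ nb H x ∩ S, W z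
        ≤ ((nb G u).card - C.card : ℝ) * A := by
      have : ((nb G u \ C).card : ℝ) = (nb G u).card - C.card := by
        rw [Finset.card_sdiff_of_subset hCX, Nat.cast_sub (Finset.card_le_card hCX)]
      rw [← this, ← nsmul_eq_mul, ← Finset.sum_const]
      refine Finset.sum_le_sum (fun x _ => ?_)
      rw [hW]
      exact sideX hcr ha hb hn sp ha1 hb1 hD h.copy hE hpos S tA htA x
    have f2 : ∑ x ∈ C, (if tA x then (2 : ℝ) else 1) * ∑ z ∈ nb H x ∩ S, W z
        + 2 * ∑ x ∈ C, W x ≤ C.card * Vv := by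
      rw [Finset.mul_sum, ← Finset.sum_add_distrib, ← nsmul_eq_mul, ← Finset.sum_const]
      refine Finset.sum_le_sum (fun x hx => ?_)
      rw [hW]
      have hx' : H.Adj u x := by
        rw [hC] at hx; simpa using (mem_inter.mp hx).2
      exact sideC hcr ha hb hn sp ha1 hD h.copy hE hpos S huS tA htA hVv x hx' h.hi2
    have hXs : ((nb G u).card : ℝ) ≤ (a : ℝ) - D' := by
      have : ((dg G u + D' : ℕ) : ℝ) ≤ a := by exact_mod_cast h.du
      push_cast at this
      have e : ((nb G u).card : ℝ) = dg G u := rfl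
      linarith
    have f3 := mul_le_mul_of_nonneg_right hXs sp.A0
    have hC1 : (1 : ℝ) ≤ C.card := by exact_mod_cast hCne
    have f4 := mul_le_mul_of_nonneg_left (show Vv - L ≤ A by linarith)
      (show (0 : ℝ) ≤ C.card - 1 by linarith)
    linarith
  -- second sum
  obtain ⟨Y0, hY0⟩ : ∃ Y0, Y0 = (nb H u).filter (fun x => b * dg G x < Fintype.card V) := ⟨_, rfl⟩
  have second : ∑ y ∈ nb H u, (if tB y then (2 : ℝ) else 1) * ∑ z ∈ nb G y ∩ S, W z
      ≤ dg H u * K + β * (dg H u : ℝ) ^ 2 / 8 - C.card * L := by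
    have s1 : ∀ y ∈ nb H u, (if tB y then (2 : ℝ) else 1) * ∑ z ∈ nb G y ∩ S, W z
        ≤ K + (if y ∈ Y0 then 0 else β / 2 * Y0.card) - (if u ∈ nb G y then L else 0) := by
      intro y hy
      have hadj : H.Adj u y := by simpa using hy
      by_cases hylo : b * dg G y < Fintype.card V
      · have m1 : y ∈ Y0 := by rw [hY0, mem_filter]; exact ⟨hy, hylo⟩
        have m2 : u ∉ nb G y := by
          intro hmem
          have hGadj : G.Adj y u := by simpa using hmem
          rcases hcr.hi1 ha hb hn hGadj with h1 | h1 <;> omega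
        have m3 : ¬ tB y := by
          rw [htB]
          rintro ⟨z, hzu, _, hone⟩
          have h1 := dich hcr.no ha hb hn (h.copy.sw u z) hone
          have h2 : dg (sw H u z) z = dg H u := dg_sw_right
          rw [h2] at h1
          have h3 := h.hi2
          rcases h1 with h1 | h1 <;> omega
        rw [if_neg m3, if_pos m1, if_neg m2, one_mul, hW]
        have := sideY_lo (β := β) (H := H) (w := w) (M := M) hcr ha hb hn sp ha1 S hK0 y hylo
        linarith
      · have hyhi : Fintype.card V ≤ b * dg G y := by omega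
        have m1 : y ∉ Y0 := by rw [hY0, mem_filter]; exact fun h => hylo h.2
        rw [if_neg m1]
        have base := sideY_hi hcr ha hb hn sp hD h.copy hE S huS y hyhi
        rw [← hW] at base
        obtain ⟨l, hl⟩ : ∃ l : ℝ, l = if u ∈ nb G y then L else 0 := ⟨_, rfl⟩
        rw [← hl] at base ⊢
        have hl0 : 0 ≤ l := by rw [hl]; split_ifs; exacts [sp.L0, le_refl _]
        have hY00 : (0 : ℝ) ≤ β / 2 * Y0.card := by
          have := sp.β0; positivity
        by_cases ht : tB y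
        · rw [if_pos ht]
          obtain ⟨z, hzu, _, hone⟩ := (htB y).mp ht
          have k1 := kap_single hcr ha hb hn h.copy h.hi2 hzu hadj hone ha1
          have k2 := mul_le_mul_of_nonneg_left k1 sp.β0
          linarith
        · rw [if_neg ht, one_mul]
          have k1 := kap_pot hb h hadj hyhi
          rw [← hY0] at k1
          have k2 := mul_le_mul_of_nonneg_left k1 sp.β0
          linarith
    have s2 := Finset.sum_le_sum s1
    rw [Finset.sum_sub_distrib, Finset.sum_add_distrib, Finset.sum_const, nsmul_eq_mul] at s2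
    have s3 : ∑ y ∈ nb H u, (if u ∈ nb G y then L else 0) = C.card * L := by
      rw [← Finset.sum_filter, Finset.sum_const, nsmul_eq_mul]
      congr 3
      rw [hC]; ext y; simp [SimpleGraph.adj_comm, and_comm]
    have s4 : ∑ y ∈ nb H u, (if y ∈ Y0 then 0 else β / 2 * (Y0.card : ℝ))
        = ((dg H u : ℝ) - Y0.card) * (β / 2 * Y0.card) := by
      have hsub : Y0 ⊆ nb H u := by rw [hY0]; exact Finset.filter_subset _ _
      rw [← Finset.sum_sdiff hsub]
      have e1 : ∑ y ∈ Y0, (if y ∈ Y0 then 0 else β / 2 * (Y0.card : ℝ)) = 0 :=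
        Finset.sum_eq_zero (fun y hy => if_pos hy)
      have e2 : ∑ y ∈ nb H u \ Y0, (if y ∈ Y0 then 0 else β / 2 * (Y0.card : ℝ))
          = ∑ y ∈ nb H u \ Y0, β / 2 * (Y0.card : ℝ) :=
        Finset.sum_congr rfl (fun y hy => if_neg (mem_sdiff.mp hy).2)
      rw [e1, e2, Finset.sum_const, nsmul_eq_mul, Finset.card_sdiff_of_subset hsub,
        Nat.cast_sub (Finset.card_le_card hsub), add_zero]
      rfl
    rw [s3, s4] at s2
    have s5 : ((dg H u : ℝ) - Y0.card) * (β / 2 * Y0.card) ≤ β * (dg H u : ℝ) ^ 2 / 8 := by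
      nlinarith [mul_nonneg sp.β0 (sq_nonneg ((dg H u : ℝ) - 2 * Y0.card))]
    have e : ((nb H u).card : ℝ) = dg H u := rfl
    rw [e] at s2
    linarith
  -- total
  have tot := tot_ge (L := L) (β := β) (w := w) (P0 := P0) (P1 := P1) (D := D') hcr ha hb hn h.copy
  rw [← hW] at tot
  have split : ∑ x, W x = W u + ∑ x ∈ C, W x + ∑ x ∈ S, W x := by
    rw [← Finset.sum_add_sum_compl (insert u C), Finset.sum_insert huC, ← hS]
  have hWu : W u = L - β * dg H u := by rw [hW]; exact h.wt_u sp.w0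
  linarith

end

end Pool.Agent.MP_7c6760_co
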