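import Pool.Agent.Lib.MP_7c6760_co.OreCount

/-! The weights. -/

namespace Pool.Agent.MP_7c6760_co

open Finset

noncomputable section

open Classical

set_option linter.unusedSectionVars false

/-- factor of the second degree in the weight -/
def cc (n a k : ℕ) : ℝ := if n ≤ a * k then 1 else 1 / 2

/-- weight of a vertex with degrees `g`, `k` -/
def wt (n a b : ℕ) (L β w s P0 P1 : ℝ) (g k : ℕ) : ℝ :=
  if n ≤ b * g then max 0 (P0 + P1 * g - cc n a k * β * k)
  else max L (L + w * (g - s)) - cc n a k * β * k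

/-- conditions for the parameters of the weights -/
structure SP (a b D E : ℕ) (L β w P0 P1 M A : ℝ) : Prop where
  L0 : 0 ≤ L
  β0 : 0 ≤ β
  w0 : 0 ≤ w
  P00 : 0 ≤ P0
  P10 : 0 ≤ P1
  A0 : 0 ≤ A
  βE : β * E ≤ L
  wD : w * D ≤ L
  LM : L ≤ M
  PM : P0 + P1 * D ≤ M
  fM : L + w * (((a : ℝ) - 1) / 2 - (a - D)) ≤ M
  EM : E * M ≤ A
  bM : ((b : ℝ) - 1) * (M - β * (b + 1) / 2) ≤ A

variable {n a b D E g k : ℕ} {L β w P0 P1 M A s : ℝ}

lemma cc_nonneg : 0 ≤ cc n a k := by unfold cc; split_ifs <;> norm_num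

lemma cc_le : cc n a k ≤ 1 := by unfold cc; split_ifs <;> norm_num

lemma cc_ge : 1 / 2 ≤ cc n a k := by unfold cc; split_ifs <;> norm_num

lemma SP.βk (h : SP a b D E L β w P0 P1 M A) (hk : k ≤ E) : β * k ≤ L := by
  have h1 : (k : ℝ) ≤ E := by exact_mod_cast hk
  exact (mul_le_mul_of_nonneg_left h1 h.β0).trans h.βE

lemma SP.ccβk (h : SP a b D E L β w P0 P1 M A) (hk : k ≤ E) : cc n a k * β * k ≤ L := by
  have h1 : 0 ≤ β * k := mul_nonneg h.β0 (Nat.cast_nonneg _)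
  have h2 := h.βk hk
  have h3 : cc n a k * (β * k) ≤ 1 * (β * k) := mul_le_mul_of_nonneg_right cc_le h1
  linarith

lemma SP.ccβ0 (h : SP a b D E L β w P0 P1 M A) : 0 ≤ cc n a k * β * k :=
  mul_nonneg (mul_nonneg cc_nonneg h.β0) (Nat.cast_nonneg _)

lemma wt_nonneg (h : SP a b D E L β w P0 P1 M A) (hk : k ≤ E) :
    0 ≤ wt n a b L β w s P0 P1 g k := by
  unfold wt
  split_ifs
  · exact le_max_left _ _
  · have h1 := h.ccβk (n := n) hk
    have h2 : L ≤ max L (L + w * (g - s)) := le_max_left _ _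
    linarith

lemma wt_ge : (if n ≤ b * g then P0 + P1 * g else L + w * (g - s)) - cc n a k * β * k
    ≤ wt n a b L β w s P0 P1 g k := by
  unfold wt
  split_ifs
  · exact le_max_right _ _
  · have h2 : L + w * (g - s) ≤ max L (L + w * (g - s)) := le_max_right _ _
    linarith

lemma phi_le (h : SP a b D E L β w P0 P1 M A) (ha : 1 ≤ a) (hl : 2 * g ≤ a - 1) :
    max L (L + w * (g - ((a : ℝ) - D))) ≤ M := by
  refine max_le h.LM (le_trans ?_ h.fM)
  have h1 : ((2 * g : ℕ) : ℝ) ≤ ((a - 1 : ℕ) : ℝ) := by exact_mod_cast hl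
  rw [Nat.cast_sub ha] at h1
  push_cast at h1
  have h2 : w * ((g : ℝ) - (a - D)) ≤ w * (((a : ℝ) - 1) / 2 - (a - D)) :=
    mul_le_mul_of_nonneg_left (by linarith) h.w0
  linarith

lemma psi_le (h : SP a b D E L β w P0 P1 M A) (hg : g ≤ D) : P0 + P1 * g ≤ M := by
  have h1 : (g : ℝ) ≤ D := by exact_mod_cast hg
  have h2 := mul_le_mul_of_nonneg_left h1 h.P10
  linarith [h.PM]

lemma wt_le_M (h : SP a b D E L β w P0 P1 M A) (ha : 1 ≤ a) (hg : g ≤ D)
    (hl : b * g < n → 2 * g ≤ a - 1) : wt n a b L β w ((a : ℝ) - D) P0 P1 g k ≤ M := by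
  unfold wt
  have h0 := h.ccβ0 (n := n) (k := k)
  split_ifs with hc
  · have h1 := psi_le h hg
    refine max_le (h.L0.trans h.LM) (by linarith)
  · have h1 := phi_le h ha (hl (by omega))
    linarith

lemma wt_le_hi2 (h : SP a b D E L β w P0 P1 M A) (ha : 1 ≤ a) (hg : g ≤ D)
    (hl : b * g < n → 2 * g ≤ a - 1) (hk : k ≤ E) (hk2 : n ≤ a * k) :
    wt n a b L β w ((a : ℝ) - D) P0 P1 g k ≤ M - β * k := by
  unfold wt
  have h0 := h.βk hk
  have hc1 : cc n a k = 1 := by unfold cc; rw [if_pos hk2]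
  rw [hc1, one_mul]
  split_ifs with hc
  · have h1 := psi_le h hg
    refine max_le (by linarith [h.LM]) (by linarith)
  · have h1 := phi_le h ha (hl (by omega))
    linarith

lemma wt_hi_le (h : SP a b D E L β w P0 P1 M A) (hc : n ≤ b * g) :
    wt n a b L β w s P0 P1 g k ≤ P0 + P1 * g := by
  unfold wt
  rw [if_pos hc]
  have h0 := h.ccβ0 (n := n) (k := k)
  exact max_le (add_nonneg h.P00 (mul_nonneg h.P10 (Nat.cast_nonneg _))) (by linarith)

lemma wt_lo (hc : b * g < n) :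
    wt n a b L β w s P0 P1 g k = max L (L + w * (g - s)) - cc n a k * β * k := by
  unfold wt
  rw [if_neg (by omega)]

/-- sum of a function over a subset, at most a multiple of the size -/
lemma sum_le_mul {V : Type*} {s t : Finset V} {f : V → ℝ} {c : ℝ} {m : ℝ} (hst : s ⊆ t)
    (h : ∀ x ∈ t, f x ≤ c) (hc : 0 ≤ c) (hm : (t.card : ℝ) ≤ m) : ∑ x ∈ s, f x ≤ m * c := by
  calc ∑ x ∈ s, f x ≤ ∑ x ∈ s, c := Finset.sum_le_sum (fun x hx => h x (hst hx))
    _ = s.card * c := by rw [Finset.sum_const, nsmul_eq_mul]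
    _ ≤ m * c := by
      refine mul_le_mul_of_nonneg_right ?_ hc
      have : (s.card : ℝ) ≤ t.card := by exact_mod_cast Finset.card_le_card hst
      linarith

end

end Pool.Agent.MP_7c6760_co
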